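import Pool.Agent.Lib.MP_7946c7_pr.G.BasA

/-!
# Stream G, job BasB: probabilities `PP`
-/

set_option autoImplicit false

open Finset

namespace RST.G

variable {ι B : Type} [Fintype ι] [Fintype B] {q : B → ℝ}

open Classical in
theorem PP_eq (S : Set (ι → B)) : PP q S = EE q (fun b => if b ∈ S then (1 : ℝ) else 0) := by
  rfl

theorem PP_nonneg (hq : IsLaw q) (S : Set (ι → B)) : 0 ≤ PP q S := by
  classical
  rw [PP_eq]
  refine EE_nonneg hq fun b => ?_
  split_ifs <;> norm_num

theorem PP_le_one (hq : IsLaw q) (S : Set (ι → B)) : PP q S ≤ 1 := by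
  classical
  calc PP q S = EE q (fun b => if b ∈ S then (1 : ℝ) else 0) := PP_eq S
    _ ≤ EE q (fun _ : ι → B => (1 : ℝ)) := by
        refine EE_mono hq fun b => ?_
        split_ifs <;> norm_num
    _ = 1 := EE_const hq 1

theorem PP_mono (hq : IsLaw q) {S T : Set (ι → B)} (h : S ⊆ T) : PP q S ≤ PP q T := by
  classical
  rw [PP_eq, PP_eq]
  refine EE_mono hq fun b => ?_
  by_cases hb : b ∈ S
  · rw [if_pos hb, if_pos (h hb)]
  · rw [if_neg hb]
    split_ifs <;> norm_num

theorem PP_empty : PP q (∅ : Set (ι → B)) = 0 := by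
  classical
  rw [PP_eq]
  unfold EE
  simp

theorem PP_compl (hq : IsLaw q) (S : Set (ι → B)) : PP q Sᶜ = 1 - PP q S := by
  classical
  have h1 : EE q (fun _ : ι → B => (1 : ℝ)) = 1 := EE_const hq 1
  have h2 : EE q (fun b : ι → B => (1 : ℝ) - if b ∈ S then (1 : ℝ) else 0) = 1 - PP q S := by
    rw [EE_sub, h1, PP_eq]
  rw [← h2, PP_eq]
  refine EE_congr fun b => ?_
  by_cases hb : b ∈ S
  · rw [if_neg (fun h : b ∈ Sᶜ => h hb), if_pos hb]
    norm_num
  · rw [if_pos (show b ∈ Sᶜ from hb), if_neg hb]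
    norm_num

theorem PP_union (hq : IsLaw q) (S T : Set (ι → B)) : PP q (S ∪ T) ≤ PP q S + PP q T := by
  classical
  rw [PP_eq, PP_eq, PP_eq, ← EE_add]
  refine EE_mono hq fun b => ?_
  by_cases hS : b ∈ S
  · rw [if_pos (show b ∈ S ∪ T from Or.inl hS), if_pos hS]
    split_ifs <;> norm_num
  · by_cases hT : b ∈ T
    · rw [if_pos (show b ∈ S ∪ T from Or.inr hT), if_neg hS, if_pos hT]
      norm_num
    · rw [if_neg (fun h : b ∈ S ∪ T => h.elim hS hT), if_neg hS, if_neg hT]
      norm_num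

/-- union bound -/
theorem PP_exists (hq : IsLaw q) {κ : Type} (s : Finset κ) (S : κ → Set (ι → B)) :
    PP q {b | ∃ k ∈ s, b ∈ S k} ≤ ∑ k ∈ s, PP q (S k) := by
  classical
  have h1 : ∀ k ∈ s, PP q (S k) = EE q (fun b => if b ∈ S k then (1 : ℝ) else 0) := fun k _ => PP_eq _
  rw [Finset.sum_congr rfl h1, PP_eq, ← EE_sum]
  refine EE_mono hq fun b => ?_
  by_cases hb : ∃ k ∈ s, b ∈ S k
  · rw [if_pos (show b ∈ {b | ∃ k ∈ s, b ∈ S k} from hb)]
    obtain ⟨k, hk, hbk⟩ := hb
    calc (1 : ℝ) = if b ∈ S k then (1 : ℝ) else 0 := by rw [if_pos hbk]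
      _ ≤ ∑ k ∈ s, if b ∈ S k then (1 : ℝ) else 0 :=
        Finset.single_le_sum (f := fun k => if b ∈ S k then (1 : ℝ) else 0)
          (fun i _ => by
            show (0 : ℝ) ≤ if b ∈ S i then (1 : ℝ) else 0
            split_ifs <;> norm_num) hk
  · rw [if_neg (show ¬ b ∈ {b | ∃ k ∈ s, b ∈ S k} from hb)]
    refine Finset.sum_nonneg fun i _ => ?_
    split_ifs <;> norm_num

theorem markov (hq : IsLaw q) {F : (ι → B) → ℝ} (hF : ∀ b, 0 ≤ F b) {a : ℝ} (ha : 0 < a) :
    PP q {b | a ≤ F b} ≤ EE q F / a := by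
  classical
  have h1 : EE q F / a = EE q (fun b => F b * (1 / a)) := by
    rw [EE_mul_right]
    ring
  rw [h1, PP_eq]
  refine EE_mono hq fun b => ?_
  by_cases hb : a ≤ F b
  · rw [if_pos (show b ∈ {b | a ≤ F b} from hb), mul_one_div, le_div_iff₀ ha]
    linarith
  · rw [if_neg (show ¬ b ∈ {b | a ≤ F b} from hb)]
    exact mul_nonneg (hF b) (by positivity)

open Classical in
/-- decomposition of an expectation according to the value of a function with finitely many
values -/
theorem EE_partition {κ : Type} [Fintype κ] (f : (ι → B) → κ) (F : (ι → B) → ℝ) :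
    EE q F = ∑ k : κ, EE q (fun b => (if f b = k then (1 : ℝ) else 0) * F b) := by
  rw [← EE_sum]
  refine EE_congr fun b => ?_
  rw [← Finset.sum_mul]
  simp

open Classical in
theorem EE_fun_of {κ : Type} [Fintype κ] (f : (ι → B) → κ) (g : κ → ℝ) :
    EE q (fun b => g (f b)) = ∑ k : κ, PP q {b | f b = k} * g k := by
  have h1 : ∀ k ∈ (Finset.univ : Finset κ), PP q {b | f b = k} * g k =
      EE q (fun b => (if f b = k then (1 : ℝ) else 0) * g k) := by
    intro k _
    rw [EE_mul_right, PP_eq]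
    rfl
  rw [Finset.sum_congr rfl h1, ← EE_sum]
  refine EE_congr fun b => ?_
  simp

/-- layer cake: `E X = ∑_{j ≥ 1} P(X ≥ j)` for a bounded integer variable -/
theorem EE_layer (f : (ι → B) → ℕ) (m : ℕ) (hm : ∀ b, f b ≤ m) :
    EE q (fun b => (f b : ℝ)) = ∑ j ∈ Finset.range m, PP q {b | j + 1 ≤ f b} := by
  classical
  have h1 : ∀ j ∈ Finset.range m, PP q {b | j + 1 ≤ f b} =
      EE q (fun b => if j + 1 ≤ f b then (1 : ℝ) else 0) := by
    intro j _
    rw [PP_eq]
    refine EE_congr fun b => ?_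
    by_cases hb : j + 1 ≤ f b
    · rw [if_pos hb, if_pos (show b ∈ {b | j + 1 ≤ f b} from hb)]
    · rw [if_neg hb, if_neg (show ¬ b ∈ {b | j + 1 ≤ f b} from hb)]
  rw [Finset.sum_congr rfl h1, ← EE_sum]
  refine EE_congr fun b => ?_
  rw [← Finset.sum_filter, Finset.sum_const, nsmul_eq_mul, mul_one]
  have h2 : (Finset.range m).filter (fun j => j + 1 ≤ f b) = Finset.range (f b) := by
    ext j
    simp only [Finset.mem_filter, Finset.mem_range]
    have := hm b
    omega
  rw [h2, Finset.card_range]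

end RST.G
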