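import Pool.Agent.Lib.MP_7946c7_pr.G.BasA

/-!
# Stream G, job IndA: independence
-/

set_option autoImplicit false

open Finset

namespace RST.G

variable {ι B : Type} [Fintype ι] [DecidableEq ι] [Fintype B] [DecidableEq B]

/-- Independence of functions of disjoint sets of coordinates.
Proof.  Split the configurations by `Equiv.piEquivPiSubtypeProd (· ∈ s) (fun _ => B)`
(`(ι → B) ≃ ({i // i ∈ s} → B) × ({i // i ∉ s} → B)`): the weight `∏ e, q (b e)` is the product of
the two weights (`Fintype.prod_subtype_mul_prod_subtype`), `F b` depends only on the first part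
and `G b` only on the second part; so the sum is a product of two sums, and the total mass of the
other part is `1` in `EE q F`, `EE q G` (`EE_const`). -/
theorem EE_indep {q : B → ℝ} (hq : IsLaw q) (s : Set ι) (F G : (ι → B) → ℝ)
    (hF : DependsOn F s) (hG : DependsOn G sᶜ) :
    EE q (fun b => F b * G b) = EE q F * EE q G := by
  classical
  by_cases hne : Nonempty (ι → B)
  swap
  · have hem : IsEmpty (ι → B) := not_nonempty_iff.1 hne
    have h1 := EE_const (ι := ι) hq 1
    rw [BasA_def] at h1
    simp at h1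
  obtain ⟨b0⟩ := hne
  let e := Equiv.piEquivPiSubtypeProd (fun i => i ∈ s) (fun _ : ι => B)
  -- the sections
  let F1 : ({i // i ∈ s} → B) → ℝ := fun x => F (e.symm (x, fun i => b0 i))
  let G1 : ({i // i ∉ s} → B) → ℝ := fun y => G (e.symm (fun i => b0 i, y))
  have hF1 : ∀ x y, F (e.symm (x, y)) = F1 x := by
    intro x y
    apply hF
    intro i hi
    simp [e, Equiv.piEquivPiSubtypeProd, hi]
  have hG1 : ∀ x y, G (e.symm (x, y)) = G1 y := by
    intro x y
    apply hG
    intro i hi
    have hi' : i ∉ s := hi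
    simp [e, Equiv.piEquivPiSubtypeProd, hi']
  have hw : ∀ x y, (∏ i, q (e.symm (x, y) i)) = (∏ i, q (x i)) * ∏ i, q (y i) := by
    intro x y
    rw [← Fintype.prod_subtype_mul_prod_subtype (fun i => i ∈ s)
      (fun i => q (e.symm (x, y) i))]
    congr 1
    · refine Finset.prod_congr rfl fun i _ => ?_
      simp [e, Equiv.piEquivPiSubtypeProd, i.2]
    · refine Finset.prod_congr rfl fun i _ => ?_
      simp [e, Equiv.piEquivPiSubtypeProd, i.2]
  have hsplit : ∀ (H1 : ({i // i ∈ s} → B) → ℝ) (H2 : ({i // i ∉ s} → B) → ℝ)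
      (H : (ι → B) → ℝ), (∀ x y, H (e.symm (x, y)) = H1 x * H2 y) →
      EE q H = EE q H1 * EE q H2 := by
    intro H1 H2 H hH
    rw [BasA_def, BasA_def, BasA_def, Finset.sum_mul_sum, ← Finset.sum_product',
      Finset.univ_product_univ]
    refine (Equiv.sum_comp e.symm _).symm.trans ?_
    refine Finset.sum_congr rfl fun p _ => ?_
    obtain ⟨x, y⟩ := p
    rw [hw x y, hH x y]
    ring
  have h1 := hsplit F1 G1 (fun b => F b * G b) (fun x y => by rw [hF1, hG1])
  have h2 := hsplit F1 (fun _ => 1) F (fun x y => by rw [hF1, mul_one])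
  have h3 := hsplit (fun _ => 1) G1 G (fun x y => by rw [hG1, one_mul])
  rw [EE_const hq, mul_one] at h2
  rw [EE_const hq, one_mul] at h3
  rw [h1, h2, h3]

end RST.G
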