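import Pool.Agent.Lib.MP_7946c7_pr.G.ExpA
import Pool.Agent.Lib.MP_7946c7_pr.G.IndA

/-!
# Stream G, job Step: one step of the exploration, in expectation
-/

set_option autoImplicit false

open Finset

namespace RST.G

variable {V : Type} [Fintype V] [DecidableEq V]

/-- binomial sum: `Finset.prod_add` -/
theorem binom_sum (a b y : ℝ) (W : Finset V) :
    ∑ N ∈ W.powerset, a ^ N.card * b ^ (W.card - N.card) * y ^ N.card =
      (b + a * y) ^ W.card := by
  rw [add_comm, ← Finset.sum_pow_mul_eq_add_pow (a * y) b W]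
  refine Finset.sum_congr rfl fun N _ => ?_
  rw [mul_pow]
  ring

open Classical in
/-- the indicator of the neighbourhood as a product over edges -/
private theorem Step_ind (W N : Finset V) (hN : N ⊆ W) (q : V) (ξ : Sym2 V → Bool) :
    (if W.filter (fun w => ξ s(q, w) = true) = N then (1 : ℝ) else 0) =
      ∏ e ∈ W.image (fun w => s(q, w)),
        (fun (e : Sym2 V) (x : Bool) =>
          if (x = true ↔ ∃ w ∈ N, e = s(q, w)) then (1 : ℝ) else 0) e (ξ e) := by
  have hinj : ∀ w ∈ W, ∀ w' ∈ W, s(q, w) = s(q, w') → w = w' := by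
    intro w _ w' _ h
    rcases Sym2.eq_iff.mp h with ⟨_, h⟩ | ⟨h1, h2⟩
    · exact h
    · rw [h2, h1]
  rw [Finset.prod_image (fun w hw w' hw' h => hinj w hw w' hw' h)]
  have hex : ∀ w ∈ W, ((∃ w' ∈ N, s(q, w) = s(q, w')) ↔ w ∈ N) := by
    intro w hw
    constructor
    · rintro ⟨w', hw', h⟩
      rw [hinj w hw w' (hN hw') h]
      exact hw'
    · intro h
      exact ⟨w, h, rfl⟩
  by_cases h : W.filter (fun w => ξ s(q, w) = true) = N
  · rw [if_pos h]
    symm
    refine Finset.prod_eq_one fun w hw => ?_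
    refine if_pos ?_
    rw [hex w hw, ← h, Finset.mem_filter]
    constructor
    · intro h'
      exact ⟨hw, h'⟩
    · intro h'
      exact h'.2
  · rw [if_neg h]
    symm
    rw [Finset.prod_eq_zero_iff]
    by_contra hcon
    apply h
    ext w
    rw [Finset.mem_filter]
    constructor
    · rintro ⟨hw, hx⟩
      by_contra hwN
      refine hcon ⟨w, hw, if_neg ?_⟩
      rw [hex w hw]
      intro hiff
      exact hwN (hiff.mp hx)
    · intro hwN
      refine ⟨hN hwN, ?_⟩
      by_contra hx
      refine hcon ⟨w, hN hwN, if_neg ?_⟩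
      rw [hex w (hN hwN)]
      intro hiff
      exact hx (hiff.mpr hwN)

open Classical in
private theorem Step_prob {p : ℝ} (hp0 : 0 ≤ p) (hp1 : p ≤ 1) (W N : Finset V) (hN : N ⊆ W)
    (q : V) :
    EE (bern p) (fun ξ : Sym2 V → Bool =>
      if W.filter (fun w => ξ s(q, w) = true) = N then (1 : ℝ) else 0) =
      p ^ N.card * (1 - p) ^ (W.card - N.card) := by
  rw [EE_congr (fun ξ => Step_ind W N hN q ξ)]
  refine (EE_coord (bern_law hp0 hp1) (W.image (fun w => s(q, w)))
    (fun (e : Sym2 V) (x : Bool) =>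
      if (x = true ↔ ∃ w ∈ N, e = s(q, w)) then (1 : ℝ) else 0)).trans ?_
  have hinj : ∀ w ∈ W, ∀ w' ∈ W, s(q, w) = s(q, w') → w = w' := by
    intro w _ w' _ h
    rcases Sym2.eq_iff.mp h with ⟨_, h⟩ | ⟨h1, h2⟩
    · exact h
    · rw [h2, h1]
  rw [Finset.prod_image (fun w hw w' hw' h => hinj w hw w' hw' h)]
  have hex : ∀ w ∈ W, ((∃ w' ∈ N, s(q, w) = s(q, w')) ↔ w ∈ N) := by
    intro w hw
    constructor
    · rintro ⟨w', hw', h⟩
      rw [hinj w hw w' (hN hw') h]
      exact hw'
    · intro h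
      exact ⟨w, h, rfl⟩
  have hterm : ∀ w ∈ W, (∑ x : Bool, bern p x *
      (if (x = true ↔ ∃ w' ∈ N, s(q, w) = s(q, w')) then (1 : ℝ) else 0)) =
      if w ∈ N then p else 1 - p := by
    intro w hw
    rw [Fintype.sum_bool]
    by_cases h : w ∈ N
    · have h1 : (true = true ↔ ∃ w' ∈ N, s(q, w) = s(q, w')) := by
        rw [hex w hw]; simp [h]
      have h2 : ¬ (false = true ↔ ∃ w' ∈ N, s(q, w) = s(q, w')) := by
        rw [hex w hw]; simp [h]
      rw [if_pos h1, if_neg h2, if_pos h]
      simp [bern]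
    · have h1 : ¬ (true = true ↔ ∃ w' ∈ N, s(q, w) = s(q, w')) := by
        rw [hex w hw]; simp [h]
      have h2 : (false = true ↔ ∃ w' ∈ N, s(q, w) = s(q, w')) := by
        rw [hex w hw]; simp [h]
      rw [if_neg h1, if_pos h2, if_neg h]
      simp [bern]
  rw [Finset.prod_congr rfl hterm, Finset.prod_ite, Finset.prod_const, Finset.prod_const]
  have h1 : W.filter (fun w => w ∈ N) = N := by
    ext w
    rw [Finset.mem_filter]
    exact ⟨fun h => h.2, fun h => ⟨hN h, h⟩⟩
  have h2 : W.filter (fun w => ¬ w ∈ N) = W \ N := by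
    ext w
    rw [Finset.mem_filter, Finset.mem_sdiff]
  rw [h1, h2, Finset.card_sdiff_of_subset hN]

/-- One step of the exploration, for any function `F` of the size.
Proof.  `N(ξ) = {w ∈ W : ξ s(q,w)}` (`q ∉ W`).  Decompose according to the value `N` of `N(ξ)`
(`EE_partition` or a sum over `W.powerset`); on `N(ξ) = N` `expl_step` gives
`expl = insert q (expl (Q.erase q ∪ N) (W \ N))`, of size `1 + ...` since `q` is not in
`(Q.erase q ∪ N) ∪ (W \ N)` (`expl_subset`).  The indicator of `N(ξ) = N` is a function of the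
edges `s(q,w)`, `w ∈ W`, with expectation `p^|N| (1-p)^(|W|-|N|)` (`EE_coord`; the edges `s(q,w)`
are distinct), the second factor depends on the edges inside `Q.erase q ∪ W` (`expl_congr`), which
do not contain `q`; `EE_indep`. -/
theorem expl_EE {p : ℝ} (hp0 : 0 ≤ p) (hp1 : p ≤ 1) (Q W : Finset V) (hQW : Disjoint Q W) (q : V)
    (hq : q ∈ Q) (F : ℕ → ℝ) :
    EE (bern p) (fun ξ : Sym2 V → Bool => F (expl (bg ξ) Q W).card) =
      ∑ N ∈ W.powerset, p ^ N.card * (1 - p) ^ (W.card - N.card) *
        EE (bern p) (fun ξ : Sym2 V → Bool =>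
          F (1 + (expl (bg ξ) (Q.erase q ∪ N) (W \ N)).card)) := by
  classical
  have hqW : q ∉ W := fun h => (Finset.disjoint_left.mp hQW) hq h
  have hmem : ∀ (N : Finset V), N ⊆ W → ∀ u ∈ (Q.erase q ∪ N) ∪ (W \ N), u ≠ q := by
    intro N hN u hu huq
    subst huq
    rw [Finset.mem_union, Finset.mem_union, Finset.mem_sdiff] at hu
    rcases hu with (hu | hu) | hu
    · exact (Finset.notMem_erase u Q) hu
    · exact hqW (hN hu)
    · exact hqW hu.1
  -- pointwise
  have hpt : ∀ ξ : Sym2 V → Bool, F (expl (bg ξ) Q W).card =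
      ∑ N ∈ W.powerset, (if W.filter (fun w => ξ s(q, w) = true) = N then (1 : ℝ) else 0) *
        F (1 + (expl (bg ξ) (Q.erase q ∪ N) (W \ N)).card) := by
    intro ξ
    have hsub : W.filter (fun w => ξ s(q, w) = true) ⊆ W := Finset.filter_subset _ _
    rw [Finset.sum_eq_single (W.filter (fun w => ξ s(q, w) = true))]
    · rw [if_pos rfl, one_mul]
      have hstep := expl_step (bg ξ) Q W hQW q hq (W.filter (fun w => ξ s(q, w) = true)) (by
        intro w
        rw [Finset.mem_filter]
        constructor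
        · rintro ⟨hw, hx⟩
          refine ⟨hw, ?_, hx⟩
          intro h
          exact hqW (h ▸ hw)
        · rintro ⟨hw, _, hx⟩
          exact ⟨hw, hx⟩)
      rw [hstep, Finset.card_insert_of_notMem, add_comm]
      intro hcon
      exact hmem _ hsub q (expl_subset _ _ _ hcon) rfl
    · intro N _ hne
      rw [if_neg (fun h => hne h.symm), zero_mul]
    · intro h
      exact absurd (Finset.mem_powerset.mpr hsub) h
  rw [EE_congr hpt, EE_sum]
  refine Finset.sum_congr rfl fun N hN => ?_
  have hNW : N ⊆ W := Finset.mem_powerset.mp hN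
  rw [EE_indep (bern_law hp0 hp1) {e : Sym2 V | q ∈ e}]
  · rw [Step_prob hp0 hp1 W N hNW q]
  · intro ξ ξ' h
    have : W.filter (fun w => ξ s(q, w) = true) = W.filter (fun w => ξ' s(q, w) = true) := by
      refine Finset.filter_congr fun w _ => ?_
      rw [h s(q, w) (Sym2.mem_mk_left q w)]
    simp only [this]
  · intro ξ ξ' h
    have : expl (bg ξ) (Q.erase q ∪ N) (W \ N) = expl (bg ξ') (Q.erase q ∪ N) (W \ N) := by
      refine expl_congr _ _ _ _ fun u hu w hw => ?_
      have hu' : u ≠ q := hmem N hNW u hu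
      have hw' : w ≠ q := hmem N hNW w (Finset.mem_union_right _ hw)
      have he : ξ s(u, w) = ξ' s(u, w) := by
        apply h
        intro hcon
        rcases Sym2.mem_iff.mp hcon with h1 | h1
        · exact hu' h1.symm
        · exact hw' h1.symm
      unfold bg
      rw [he]
    simp only [this]

/-- sizes -/
theorem card_step (Q W N : Finset V) (hQW : Disjoint Q W) (q : V) (hq : q ∈ Q) (hN : N ⊆ W) :
    (Q.erase q ∪ N).card = Q.card - 1 + N.card ∧ (W \ N).card = W.card - N.card ∧
      Disjoint (Q.erase q ∪ N) (W \ N) ∧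
      (Q.erase q ∪ N).card + (W \ N).card + 1 = Q.card + W.card := by
  have h1 : (Q.erase q ∪ N).card = Q.card - 1 + N.card := by
    rw [Finset.card_union_of_disjoint, Finset.card_erase_of_mem hq]
    rw [Finset.disjoint_left]
    intro x hx hxN
    exact (Finset.disjoint_left.mp hQW) (Finset.mem_of_mem_erase hx) (hN hxN)
  have h2 : (W \ N).card = W.card - N.card := Finset.card_sdiff_of_subset hN
  have h3 : N.card ≤ W.card := Finset.card_le_card hN
  have h4 : 1 ≤ Q.card := Finset.card_pos.mpr ⟨q, hq⟩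
  refine ⟨h1, h2, ?_, by omega⟩
  rw [Finset.disjoint_left]
  intro x hx hxW
  rw [Finset.mem_sdiff] at hxW
  rw [Finset.mem_union] at hx
  rcases hx with hx | hx
  · exact (Finset.disjoint_left.mp hQW) (Finset.mem_of_mem_erase hx) hxW.1
  · exact hxW.2 hx

end RST.G
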