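import Pool.Agent.Lib.MP_7946c7_pr.G.BallA
import Pool.Agent.Lib.MP_7946c7_pr.G.BasB
import Pool.Agent.Lib.MP_7946c7_pr.G.Step

/-!
# Stream G, job BallB: ball growth G7
-/

set_option autoImplicit false

open Finset

namespace RST.G

variable {V : Type} [Fintype V] [DecidableEq V]

/-- `1 + (1-(1-p)^l) s ≤ (1+ps)^l` for `s ≥ 0`: `1-(1-p)^l ≤ l p` and Bernoulli's inequality
`1 + l p s ≤ (1+ps)^l`. -/
theorem layer_ineq (p s : ℝ) (hp0 : 0 ≤ p) (hp1 : p ≤ 1) (hs : 0 ≤ s) (l : ℕ) :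
    1 + (1 - (1 - p) ^ l) * s ≤ (1 + p * s) ^ l := by
  have h1 : 1 + (l : ℝ) * (-p) ≤ (1 + -p) ^ l := one_add_mul_le_pow (by linarith) l
  have h2 : 1 + (l : ℝ) * (p * s) ≤ (1 + p * s) ^ l :=
    one_add_mul_le_pow (by nlinarith [mul_nonneg hp0 hs]) l
  have h3 : 1 - (1 - p) ^ l ≤ l * p := by
    have e : (1 : ℝ) + -p = 1 - p := by ring
    rw [e] at h1
    linarith
  have h4 : (1 - (1 - p) ^ l) * s ≤ l * p * s := mul_le_mul_of_nonneg_right h3 hs
  linarith [h2, h4, mul_assoc (l : ℝ) p s]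

/-- Recursion: if `z ≥ 1` and `y 0 = 1`, `y j ≥ 1` for `j ≤ r`,
`(1 + p (z y_j - 1))^n ≤ y_{j+1}` for `j < r`, then `E z^|bex j L W| ≤ (z y_j)^|L|` for `j ≤ r`,
`|W| ≤ n`.  Induction on `j` (for all `L`, `W`): `bex_EE` with `F k = z^k`,
`z^(|L|+k) = z^|L| z^k`, induction hypothesis `≤ (z y_j)^|N|`, `binom_sum`
(`∑_N a^|N| b^(|W|-|N|) (z y_j)^|N| = (b + a z y_j)^|W| = (1 + a (z y_j - 1))^|W|`, `a = 1-(1-p)^|L|`,
`b = 1 - a`), `layer_ineq`. -/
theorem bex_growth (p z : ℝ) (hp0 : 0 ≤ p) (hp1 : p ≤ 1) (hz : 1 ≤ z) (n r : ℕ) (y : ℕ → ℝ)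
    (hy0 : y 0 = 1) (hy1 : ∀ j ≤ r, 1 ≤ y j)
    (hy : ∀ j < r, (1 + p * (z * y j - 1)) ^ n ≤ y (j + 1))
    (j : ℕ) (hj : j ≤ r) (L W : Finset V) (hLW : Disjoint L W) (hW : W.card ≤ n) :
    EE (bern p) (fun ξ : Sym2 V → Bool => z ^ (bex (bg ξ) j L W).card) ≤ (z * y j) ^ L.card := by
  induction j generalizing L W with
  | zero =>
    have e : (fun ξ : Sym2 V → Bool => z ^ (bex (bg ξ) 0 L W).card) = fun _ => z ^ L.card := by
      funext ξ
      rfl
    rw [e, EE_const (bern_law hp0 hp1), hy0, mul_one]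
  | succ j ih =>
    have hz0 : (0 : ℝ) < z := by linarith
    have hyj : 1 ≤ y j := hy1 j (by omega)
    have hyj1 : 1 ≤ y (j + 1) := hy1 (j + 1) hj
    have hzy : 1 ≤ z * y j := by nlinarith
    have ha0 : 0 ≤ 1 - (1 - p) ^ L.card := by
      have : (1 - p) ^ L.card ≤ 1 := pow_le_one₀ (by linarith) (by linarith)
      linarith
    have hb0 : 0 ≤ (1 - p) ^ L.card := pow_nonneg (by linarith) _
    have hp' : 0 ≤ p * (z * y j - 1) := mul_nonneg hp0 (by linarith)
    rw [bex_EE hp0 hp1 j L W hLW (fun k => z ^ k)]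
    calc ∑ N ∈ W.powerset, (1 - (1 - p) ^ L.card) ^ N.card *
          ((1 - p) ^ L.card) ^ (W.card - N.card) *
          EE (bern p) (fun ξ : Sym2 V → Bool => z ^ (L.card + (bex (bg ξ) j N (W \ N)).card))
        ≤ ∑ N ∈ W.powerset, z ^ L.card * ((1 - (1 - p) ^ L.card) ^ N.card *
          ((1 - p) ^ L.card) ^ (W.card - N.card) * (z * y j) ^ N.card) := by
          refine Finset.sum_le_sum fun N hN => ?_
          have hNW : N ⊆ W := Finset.mem_powerset.1 hN
          have e1 : (fun ξ : Sym2 V → Bool => z ^ (L.card + (bex (bg ξ) j N (W \ N)).card)) =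
              fun ξ => z ^ L.card * z ^ (bex (bg ξ) j N (W \ N)).card := by
            funext ξ
            rw [pow_add]
          rw [e1, EE_mul_left]
          have e2 := ih (by omega) N (W \ N) Finset.disjoint_sdiff
            ((Finset.card_le_card Finset.sdiff_subset).trans hW)
          have e3 : 0 ≤ z ^ L.card * ((1 - (1 - p) ^ L.card) ^ N.card *
              ((1 - p) ^ L.card) ^ (W.card - N.card)) :=
            mul_nonneg (pow_nonneg hz0.le _) (mul_nonneg (pow_nonneg ha0 _) (pow_nonneg hb0 _))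
          calc _ = z ^ L.card * ((1 - (1 - p) ^ L.card) ^ N.card *
              ((1 - p) ^ L.card) ^ (W.card - N.card)) *
              EE (bern p) (fun ξ => z ^ (bex (bg ξ) j N (W \ N)).card) := by ring
            _ ≤ z ^ L.card * ((1 - (1 - p) ^ L.card) ^ N.card *
              ((1 - p) ^ L.card) ^ (W.card - N.card)) * (z * y j) ^ N.card :=
                mul_le_mul_of_nonneg_left e2 e3
            _ = _ := by ring
      _ = z ^ L.card * ((1 - p) ^ L.card + (1 - (1 - p) ^ L.card) * (z * y j)) ^ W.card := by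
          rw [← Finset.mul_sum, binom_sum]
      _ ≤ z ^ L.card * y (j + 1) ^ L.card := by
          refine mul_le_mul_of_nonneg_left ?_ (pow_nonneg hz0.le _)
          have e4 : (1 - p) ^ L.card + (1 - (1 - p) ^ L.card) * (z * y j) =
              1 + (1 - (1 - p) ^ L.card) * (z * y j - 1) := by ring
          have e5 := layer_ineq p (z * y j - 1) hp0 hp1 (by linarith) L.card
          have e6 : 0 ≤ 1 + (1 - (1 - p) ^ L.card) * (z * y j - 1) := by
            have := mul_nonneg ha0 (by linarith : (0 : ℝ) ≤ z * y j - 1)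
            linarith
          calc ((1 - p) ^ L.card + (1 - (1 - p) ^ L.card) * (z * y j)) ^ W.card
              ≤ ((1 + p * (z * y j - 1)) ^ L.card) ^ W.card := by
                rw [e4]
                exact pow_le_pow_left₀ e6 e5 _
            _ = ((1 + p * (z * y j - 1)) ^ W.card) ^ L.card := by
                rw [← pow_mul, ← pow_mul, mul_comm L.card W.card]
            _ ≤ ((1 + p * (z * y j - 1)) ^ n) ^ L.card := by
                refine pow_le_pow_left₀ (pow_nonneg (by linarith) _) ?_ _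
                exact pow_le_pow_right₀ (by linarith) hW
            _ ≤ y (j + 1) ^ L.card := by
                refine pow_le_pow_left₀ (pow_nonneg (by linarith) _) ?_ _
                exact hy j (by omega)
      _ = (z * y (j + 1)) ^ L.card := by rw [mul_pow]

/-- Numerical recursion: `z = 1 + 1/(16 r²)`, `p n ≤ 1`; the sequence `y j = 1 + 4 j (z-1)`
satisfies the recursion for `j < r`: with `d = y_j - 1 ≤ 1/(4r)` and
`u = z (1+d) - 1 = d + (z-1)(1+d) ≤ 1/3`, `(1 + p u)^n ≤ exp(u)` and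
`exp u ≤ 1 + u + 0.6 u²` for `0 ≤ u ≤ 1/3`, `u ≤ (1/(4r)) (1 + 5/(16 r))`, so
`0.6 u² ≤ 0.6 (21/16)²/(16 r²) ≤ 1.04 (z-1)` and `(z-1)(1+d) ≤ (5/4)(z-1)`; the sum is
`≤ 4 (z-1)`. -/
theorem layer_num (p : ℝ) (hp0 : 0 ≤ p) (n r : ℕ) (hr : 1 ≤ r) (hn : p * n ≤ 1) (j : ℕ)
    (hj : j < r) :
    (1 + p * ((1 + 1 / (16 * (r : ℝ) ^ 2)) * (1 + 4 * j * (1 / (16 * (r : ℝ) ^ 2))) - 1)) ^ n ≤
      1 + 4 * (j + 1) * (1 / (16 * (r : ℝ) ^ 2)) := by
  have hr0 : (1 : ℝ) ≤ r := by exact_mod_cast hr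
  obtain ⟨w, hw⟩ : ∃ w : ℝ, w = 1 / (16 * (r : ℝ) ^ 2) := ⟨_, rfl⟩
  rw [← hw]
  have hw0 : 0 < w := by rw [hw]; positivity
  have hwr : w * (16 * (r : ℝ) ^ 2) = 1 := by
    rw [hw]
    field_simp
  have hw16 : w ≤ 1 / 16 := by
    rw [hw]
    apply one_div_le_one_div_of_le (by norm_num)
    nlinarith
  have hj0 : (0 : ℝ) ≤ j := Nat.cast_nonneg j
  have hjr : (j : ℝ) + 1 ≤ r := by exact_mod_cast hj
  have hrw : 4 * (r : ℝ) * w ≤ 1 / 4 := by
    have h1 : 4 * (r : ℝ) * w * (4 * r) = 1 := by nlinarith [hwr]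
    have h2 : 4 * (r : ℝ) * w * 4 ≤ 4 * (r : ℝ) * w * (4 * r) := by
      have : 0 ≤ 4 * (r : ℝ) * w := by positivity
      nlinarith
    linarith
  have hjw : 4 * (j : ℝ) * w ≤ 1 / 4 := by
    have : 4 * (j : ℝ) * w ≤ 4 * (r : ℝ) * w := by
      apply mul_le_mul_of_nonneg_right _ hw0.le
      linarith
    linarith
  obtain ⟨u, hu⟩ : ∃ u : ℝ, u = (1 + w) * (1 + 4 * j * w) - 1 := ⟨_, rfl⟩
  rw [← hu]
  have hjw0 : 0 ≤ 4 * (j : ℝ) * w := by positivity
  have hu0 : 0 ≤ u := by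
    rw [hu]
    nlinarith
  have hu1 : u ≤ 4 * (r : ℝ) * w := by
    have h1 : w * (4 * (j : ℝ) * w) ≤ w * (1 / 4) := mul_le_mul_of_nonneg_left hjw hw0.le
    have h2 : 4 * ((j : ℝ) + 1) * w ≤ 4 * (r : ℝ) * w := by
      apply mul_le_mul_of_nonneg_right _ hw0.le
      linarith
    rw [hu]
    nlinarith
  have hu2 : u + 2 * w ≤ 4 * ((j : ℝ) + 1) * w := by
    have h1 : w * (4 * (j : ℝ) * w) ≤ w * (1 / 4) := mul_le_mul_of_nonneg_left hjw hw0.le
    rw [hu]
    nlinarith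
  have ht1 : 4 * ((j : ℝ) + 1) * w ≤ 4 * (r : ℝ) * w := by
    apply mul_le_mul_of_nonneg_right _ hw0.le
    linarith
  have hpu : 0 ≤ p * u := mul_nonneg hp0 hu0
  have h1 : (1 + p * u) ^ n ≤ Real.exp u := by
    have h2 : 1 + p * u ≤ Real.exp (p * u) := by
      have := Real.add_one_le_exp (p * u)
      linarith
    calc (1 + p * u) ^ n ≤ (Real.exp (p * u)) ^ n := pow_le_pow_left₀ (by linarith) h2 n
      _ = Real.exp (n * (p * u)) := by rw [← Real.exp_nat_mul]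
      _ ≤ Real.exp u := by
        apply Real.exp_le_exp.2
        nlinarith
  have h3 : Real.exp u ≤ 1 / (1 - u) :=
    Real.exp_bound_div_one_sub_of_interval hu0 (by linarith)
  refine (h1.trans h3).trans ?_
  rw [div_le_iff₀ (by linarith)]
  have h4 : u * (4 * ((j : ℝ) + 1) * w) ≤ w := by
    have h5 : u * (4 * ((j : ℝ) + 1) * w) ≤ (4 * (r : ℝ) * w) * (4 * (r : ℝ) * w) :=
      mul_le_mul hu1 ht1 (by positivity) (by positivity)
    have h6 : (4 * (r : ℝ) * w) * (4 * (r : ℝ) * w) = w * (w * (16 * (r : ℝ) ^ 2)) := by ring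
    rw [h6, hwr, mul_one] at h5
    exact h5
  nlinarith

/-- G7. Ball growth.  `s ≤ 0` is trivial.  `ball_subset`, `bex_growth` with `L = {v}`,
`W = univ.erase v`, `n = |V|`, `z = 1 + 1/(16r²)`, `y j = 1 + 4 j (z-1)`, `layer_num`.
`E z^|ball| ≤ z (1 + 4 r (z-1)) = (1 + 1/(16 r²)) (1 + 1/(4r)) ≤ 2`, Markov:
`P(|ball| ≥ s) ≤ 2 z^(-s) = 2 exp(-s log z)`, `log z ≥ 1/(32 r²)` (`log(1+u) ≥ u/2` for
`0 ≤ u ≤ 1`). -/
theorem ball_growth (p : ℝ) (hp0 : 0 ≤ p) (hp1 : p ≤ 1) (hW : p * Fintype.card V ≤ 1)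
    (v : V) (r : ℕ) (hr : 1 ≤ r) (s : ℝ) :
    PP (bern p) {ξ | s ≤ (ball (bg ξ) v r).card} ≤ 2 * Real.exp (-(s / (32 * (r : ℝ) ^ 2))) := by
  have hlaw := bern_law hp0 hp1
  rcases lt_or_ge s 0 with hs | hs
  · have h1 := PP_le_one hlaw {ξ : Sym2 V → Bool | s ≤ (ball (bg ξ) v r).card}
    have h2 : (1 : ℝ) ≤ Real.exp (-(s / (32 * (r : ℝ) ^ 2))) := by
      apply Real.one_le_exp
      have : s / (32 * (r : ℝ) ^ 2) ≤ 0 := div_nonpos_of_nonpos_of_nonneg hs.le (by positivity)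
      linarith
    linarith
  have hr0 : (1 : ℝ) ≤ r := by exact_mod_cast hr
  obtain ⟨w, hw⟩ : ∃ w : ℝ, w = 1 / (16 * (r : ℝ) ^ 2) := ⟨_, rfl⟩
  have hw0 : 0 < w := by rw [hw]; positivity
  have hw16 : w ≤ 1 / 16 := by
    rw [hw]
    apply one_div_le_one_div_of_le (by norm_num)
    nlinarith
  have hz1 : (1 : ℝ) ≤ 1 + w := by linarith
  have hz0 : (0 : ℝ) < 1 + w := by linarith
  have hgrow := bex_growth p (1 + w) hp0 hp1 hz1 (Fintype.card V) r (fun j => 1 + 4 * j * w)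
    (by simp) (fun j _ => by
      have : (0 : ℝ) ≤ 4 * j * w := by positivity
      linarith)
    (fun j hj => by
      have := layer_num p hp0 (Fintype.card V) r hr hW j hj
      rw [← hw] at this
      push_cast
      exact this) r le_rfl {v} (univ.erase v) (by simp) (Finset.card_le_univ _)
  simp only [Finset.card_singleton, pow_one] at hgrow
  have hrw : 4 * (r : ℝ) * w ≤ 1 / 4 := by
    rw [hw]
    have e : 4 * (r : ℝ) * (1 / (16 * (r : ℝ) ^ 2)) = 1 / 4 * (1 / r) := by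
      field_simp
      norm_num
    rw [e]
    have : 1 / (r : ℝ) ≤ 1 := by
      rw [div_le_one (by linarith)]
      exact hr0
    linarith
  have hE : EE (bern p) (fun ξ : Sym2 V → Bool => (1 + w) ^ (ball (bg ξ) v r).card) ≤ 2 := by
    calc EE (bern p) (fun ξ : Sym2 V → Bool => (1 + w) ^ (ball (bg ξ) v r).card)
        ≤ EE (bern p) (fun ξ : Sym2 V → Bool =>
          (1 + w) ^ (bex (bg ξ) r {v} (univ.erase v)).card) :=
          EE_mono hlaw fun ξ => pow_le_pow_right₀ hz1 (Finset.card_le_card (ball_subset _ _ _))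
      _ ≤ (1 + w) * (1 + 4 * r * w) := hgrow
      _ ≤ 2 := by nlinarith
  have hzs : 0 < (1 + w) ^ s := Real.rpow_pos_of_pos hz0 s
  have hmark := markov hlaw
    (F := fun ξ : Sym2 V → Bool => (1 + w) ^ (ball (bg ξ) v r).card)
    (fun ξ => pow_nonneg hz0.le _) hzs
  have hsub : {ξ : Sym2 V → Bool | s ≤ (ball (bg ξ) v r).card} ⊆
      {ξ : Sym2 V → Bool | (1 + w) ^ s ≤ (1 + w) ^ (ball (bg ξ) v r).card} := by
    intro ξ hξ
    have hξ' : s ≤ ((ball (bg ξ) v r).card : ℝ) := hξ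
    have := Real.rpow_le_rpow_of_exponent_le hz1 hξ'
    rw [Real.rpow_natCast] at this
    exact this
  have hlog : w / 2 ≤ Real.log (1 + w) := by
    have h1 := Real.one_sub_inv_le_log_of_pos hz0
    have h2 : w / 2 ≤ 1 - (1 + w)⁻¹ := by
      have e : 1 - (1 + w)⁻¹ = w / (1 + w) := by
        field_simp
        ring
      rw [e, div_le_div_iff₀ (by norm_num) hz0]
      nlinarith
    linarith
  calc PP (bern p) {ξ : Sym2 V → Bool | s ≤ (ball (bg ξ) v r).card}
      ≤ EE (bern p) (fun ξ : Sym2 V → Bool => (1 + w) ^ (ball (bg ξ) v r).card) / (1 + w) ^ s :=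
        (PP_mono hlaw hsub).trans hmark
    _ ≤ 2 / (1 + w) ^ s := div_le_div_of_nonneg_right hE hzs.le
    _ = 2 * Real.exp (-(s * Real.log (1 + w))) := by
        rw [Real.rpow_def_of_pos hz0, Real.exp_neg, div_eq_mul_inv, mul_comm (Real.log (1 + w)) s]
    _ ≤ 2 * Real.exp (-(s / (32 * (r : ℝ) ^ 2))) := by
        have h5 : s / (32 * (r : ℝ) ^ 2) = s * (w / 2) := by
          rw [hw]
          have : (r : ℝ) ≠ 0 := by linarith
          field_simp
          ring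
        have h6 : s * (w / 2) ≤ s * Real.log (1 + w) := mul_le_mul_of_nonneg_left hlog hs
        rw [h5]
        have := Real.exp_le_exp.2 (neg_le_neg h6)
        linarith

end RST.G
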