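import Pool.Agent.Lib.MP_7946c7_pr.G.BasB
import Pool.Agent.Lib.MP_7946c7_pr.G.Step

/-!
# Stream G, job LapB: Laplace transform with a budget G5
-/

set_option autoImplicit false

open Finset

namespace RST.G

variable {V : Type} [Fintype V] [DecidableEq V]

open Classical in
/-- G5.  Induction on `Q.card + W.card` (for all `Q`, `W`, `t`).  `Q = ∅`: clear (`expl_empty`).
Otherwise: if `t < |Q|` the event is empty (`subset_expl`), the left side is 0.  If `|Q| ≤ t` then
`t = t' + 1`, `N ≤ |W|`, take `q ∈ Q`, `expl_EE` with `F k = if k ≤ t then z^k else 0`,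
`F (1+k) = z * (if k ≤ t' then z^k else 0)`; the induction hypothesis for
`(Q.erase q ∪ N', W \ N')`, `t'` (`card_step`: the sum of the cards is one less);
`binom_sum`: `z * y^(|Q|-1) * (1-p+py)^|W| ≤ z * y^(|Q|-1) * (1-p+py)^N ≤ y^|Q|`
(`0 ≤ 1-p+py ≤ 1`). -/
theorem laplace_budget (p z y : ℝ) (N t : ℕ) (hp0 : 0 ≤ p) (hp1 : p ≤ 1) (hz : 0 < z)
    (hy0 : 0 < y) (hy1 : y ≤ 1) (h : z * (1 - p + p * y) ^ N ≤ y)
    (Q W : Finset V) (hQW : Disjoint Q W) (hc : N + t ≤ W.card + Q.card) :
    (EE (bern p) fun ξ => if (expl (bg ξ) Q W).card ≤ t then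
      z ^ (expl (bg ξ) Q W).card else 0) ≤ y ^ Q.card := by
  have hq := bern_law hp0 hp1
  have main : ∀ (m t : ℕ) (Q W : Finset V), Q.card + W.card = m → Disjoint Q W →
      N + t ≤ W.card + Q.card →
      (EE (bern p) fun ξ => if (expl (bg ξ) Q W).card ≤ t then
        z ^ (expl (bg ξ) Q W).card else 0) ≤ y ^ Q.card := by
    intro m
    induction m with
    | zero =>
      intro t Q W hm hQW hc
      have hQ : Q = ∅ := by
        rw [← Finset.card_eq_zero]; omega
      subst hQ
      refine le_trans (le_of_eq (EE_congr (G := fun _ => (1 : ℝ)) ?_)) ?_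
      · intro ξ
        rw [expl_empty]
        simp
      · rw [EE_const hq]; simp
    | succ m ih =>
      intro t Q W hm hQW hc
      rcases Finset.eq_empty_or_nonempty Q with hQ | ⟨q, hqQ⟩
      · subst hQ
        refine le_trans (le_of_eq (EE_congr (G := fun _ => (1 : ℝ)) ?_)) ?_
        · intro ξ
          rw [expl_empty]
          simp
        · rw [EE_const hq]; simp
      · by_cases htQ : t < Q.card
        · refine le_trans (le_of_eq (EE_congr (G := fun _ => (0 : ℝ)) ?_)) ?_
          · intro ξ
            rw [if_neg]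
            have := Finset.card_le_card (subset_expl (bg ξ) Q W)
            omega
          · rw [EE_const hq]; positivity
        · have hQpos : 1 ≤ Q.card := Finset.card_pos.mpr ⟨q, hqQ⟩
          obtain ⟨t', rfl⟩ : ∃ t', t = t' + 1 := ⟨t - 1, by omega⟩
          have hstep := expl_EE hp0 hp1 Q W hQW q hqQ
            (fun k => if k ≤ t' + 1 then z ^ k else 0)
          rw [hstep]
          have hb0 : 0 ≤ 1 - p + p * y := by nlinarith [mul_nonneg hp0 hy0.le]
          have hb1 : 1 - p + p * y ≤ 1 := by nlinarith
          have hterm : ∀ S ∈ W.powerset, p ^ S.card * (1 - p) ^ (W.card - S.card) *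
              EE (bern p) (fun ξ : Sym2 V → Bool =>
                if 1 + (expl (bg ξ) (Q.erase q ∪ S) (W \ S)).card ≤ t' + 1 then
                  z ^ (1 + (expl (bg ξ) (Q.erase q ∪ S) (W \ S)).card) else 0) ≤
              z * y ^ (Q.card - 1) *
                (p ^ S.card * (1 - p) ^ (W.card - S.card) * y ^ S.card) := by
            intro S hS
            have hS' : S ⊆ W := Finset.mem_powerset.mp hS
            obtain ⟨c1, c2, c3, c4⟩ := card_step Q W S hQW q hqQ hS'
            have hSW : S.card ≤ W.card := Finset.card_le_card hS'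
            have hi := ih t' (Q.erase q ∪ S) (W \ S) (by omega) c3 (by omega)
            have he : EE (bern p) (fun ξ : Sym2 V → Bool =>
                if 1 + (expl (bg ξ) (Q.erase q ∪ S) (W \ S)).card ≤ t' + 1 then
                  z ^ (1 + (expl (bg ξ) (Q.erase q ∪ S) (W \ S)).card) else 0) =
                z * EE (bern p) (fun ξ : Sym2 V → Bool =>
                  if (expl (bg ξ) (Q.erase q ∪ S) (W \ S)).card ≤ t' then
                    z ^ (expl (bg ξ) (Q.erase q ∪ S) (W \ S)).card else 0) := by
              rw [← EE_mul_left]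
              apply EE_congr
              intro ξ
              by_cases hk : (expl (bg ξ) (Q.erase q ∪ S) (W \ S)).card ≤ t'
              · rw [if_pos (by omega), if_pos hk, pow_add, pow_one]
              · rw [if_neg (by omega), if_neg hk, mul_zero]
            rw [he]
            have hw : 0 ≤ p ^ S.card * (1 - p) ^ (W.card - S.card) :=
              mul_nonneg (pow_nonneg hp0 _) (pow_nonneg (by linarith) _)
            calc p ^ S.card * (1 - p) ^ (W.card - S.card) *
                (z * EE (bern p) (fun ξ : Sym2 V → Bool =>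
                  if (expl (bg ξ) (Q.erase q ∪ S) (W \ S)).card ≤ t' then
                    z ^ (expl (bg ξ) (Q.erase q ∪ S) (W \ S)).card else 0))
                ≤ p ^ S.card * (1 - p) ^ (W.card - S.card) *
                  (z * y ^ (Q.erase q ∪ S).card) := by
                  apply mul_le_mul_of_nonneg_left _ hw
                  exact mul_le_mul_of_nonneg_left hi hz.le
              _ = z * y ^ (Q.card - 1) *
                (p ^ S.card * (1 - p) ^ (W.card - S.card) * y ^ S.card) := by
                  rw [c1, pow_add]; ring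
          refine le_trans (Finset.sum_le_sum hterm) ?_
          rw [← Finset.mul_sum, binom_sum]
          have hNW : N ≤ W.card := by omega
          calc z * y ^ (Q.card - 1) * (1 - p + p * y) ^ W.card
              ≤ z * y ^ (Q.card - 1) * (1 - p + p * y) ^ N := by
                apply mul_le_mul_of_nonneg_left _ (by positivity)
                exact pow_le_pow_of_le_one hb0 hb1 hNW
            _ = (z * (1 - p + p * y) ^ N) * y ^ (Q.card - 1) := by ring
            _ ≤ y * y ^ (Q.card - 1) := mul_le_mul_of_nonneg_right h (by positivity)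
            _ = y ^ Q.card := by
                rw [← pow_succ']
                congr 1
                omega
  exact main _ t Q W rfl hQW hc

/-- Consequence: small explored sets are unlikely, for `z ≤ 1`:
`z^t * P(|C| ≤ t) ≤ E[z^|C|; |C| ≤ t] ≤ y^|Q|`. -/
theorem budget_prob (p z y : ℝ) (N t : ℕ) (hp0 : 0 ≤ p) (hp1 : p ≤ 1) (hz : 0 < z) (hz1 : z ≤ 1)
    (hy0 : 0 < y) (hy1 : y ≤ 1) (h : z * (1 - p + p * y) ^ N ≤ y)
    (Q W : Finset V) (hQW : Disjoint Q W) (hc : N + t ≤ W.card + Q.card) :
    z ^ t * PP (bern p) {ξ | (expl (bg ξ) Q W).card ≤ t} ≤ y ^ Q.card := by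
  classical
  have hq := bern_law hp0 hp1
  refine le_trans ?_ (laplace_budget p z y N t hp0 hp1 hz hy0 hy1 h Q W hQW hc)
  rw [PP_eq, ← EE_mul_left]
  apply EE_mono hq
  intro ξ
  by_cases hk : (expl (bg ξ) Q W).card ≤ t
  · have : ξ ∈ {ξ : Sym2 V → Bool | (expl (bg ξ) Q W).card ≤ t} := hk
    rw [if_pos this, if_pos hk, mul_one]
    exact pow_le_pow_of_le_one hz.le hz1 hk
  · have : ξ ∉ {ξ : Sym2 V → Bool | (expl (bg ξ) Q W).card ≤ t} := hk
    rw [if_neg this, if_neg hk, mul_zero]

end RST.G
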