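import Pool.Agent.Lib.MP_7946c7_pr.G.Fac
import Pool.Agent.Lib.MP_7946c7_pr.G.LapB

/-!
# Stream G, job GiaA: existence of a giant (G11)
-/

set_option autoImplicit false

open Finset

namespace RST.G

/-- Numerical condition: `z = exp(0.04 x²)`, `y = 1 - 0.2 x`, `p = (1+x)/n`,
`N ≥ n (1 - 0.51 x)`: `(1 - 0.2 x p)^N ≤ exp(-0.2 x (1+x)(1-0.51x)) ≤ exp(-0.2x - 0.098x² + 0.102x³)`,
times `z`: `exp(-0.2x - 0.058x² + 0.102x³) ≤ 1 - 0.2x`
(`log(1-u) ≥ -u - u²/2 - u³/2` for `0 ≤ u ≤ 1/20`, `u = 0.2x`: `-0.2x - 0.02x² - 0.004x³`). -/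
theorem gia_num (n x : ℝ) (N : ℕ) (hn : 1 ≤ n) (hx0 : 0 < x) (hx1 : x ≤ 1 / 10)
    (hN : n * (1 - 51 / 100 * x) ≤ N) (hxn : (1 + x) / n ≤ 1) :
    Real.exp (0.04 * x ^ 2) * (1 - (1 + x) / n + (1 + x) / n * (1 - 0.2 * x)) ^ N ≤ 1 - 0.2 * x := by
  have hn0 : 0 < n := by linarith
  set p : ℝ := (1 + x) / n with hp
  have hp0 : 0 ≤ p := by positivity
  have hbase : 1 - p + p * (1 - 0.2 * x) = 1 - 0.2 * x * p := by ring
  have hb0 : 0 ≤ 1 - 0.2 * x * p := by nlinarith
  have hb1 : 1 - 0.2 * x * p ≤ Real.exp (-(0.2 * x * p)) := by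
    have := Real.add_one_le_exp (-(0.2 * x * p))
    linarith
  have hpN : (1 + x) * (1 - 51 / 100 * x) ≤ p * N := by
    have h1 : p * (n * (1 - 51 / 100 * x)) ≤ p * N := mul_le_mul_of_nonneg_left hN hp0
    have h2 : p * (n * (1 - 51 / 100 * x)) = (1 + x) * (1 - 51 / 100 * x) := by
      rw [hp]
      field_simp
    linarith
  set w : ℝ := 0.2 * x + 0.058 * x ^ 2 - 0.102 * x ^ 3 with hw
  have h3 : (1 - p + p * (1 - 0.2 * x)) ^ N ≤ Real.exp (-(0.2 * x * ((1 + x) * (1 - 51 / 100 * x)))) := by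
    rw [hbase]
    calc (1 - 0.2 * x * p) ^ N ≤ (Real.exp (-(0.2 * x * p))) ^ N := pow_le_pow_left₀ hb0 hb1 N
      _ = Real.exp (-(0.2 * x * (p * N))) := by
        rw [← Real.exp_nat_mul]
        congr 1
        ring
      _ ≤ _ := by
        apply Real.exp_le_exp.mpr
        have : 0.2 * x * ((1 + x) * (1 - 51 / 100 * x)) ≤ 0.2 * x * (p * N) :=
          mul_le_mul_of_nonneg_left hpN (by positivity)
        linarith
  have h4 : Real.exp (0.04 * x ^ 2) * (1 - p + p * (1 - 0.2 * x)) ^ N ≤ Real.exp (-w) := by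
    calc Real.exp (0.04 * x ^ 2) * (1 - p + p * (1 - 0.2 * x)) ^ N
        ≤ Real.exp (0.04 * x ^ 2) * Real.exp (-(0.2 * x * ((1 + x) * (1 - 51 / 100 * x)))) :=
          mul_le_mul_of_nonneg_left h3 (Real.exp_pos _).le
      _ = Real.exp (-w) := by
        rw [← Real.exp_add]
        congr 1
        rw [hw]
        ring
  refine le_trans h4 ?_
  have h5 : Real.exp (-w) * Real.exp w = 1 := by
    rw [← Real.exp_add]
    simp
  have h6 : w + 1 ≤ Real.exp w := Real.add_one_le_exp w
  have hx3 : x ^ 3 ≤ x ^ 2 / 10 := by nlinarith [sq_nonneg x]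
  have hw0 : 0.2 * x + 0.0478 * x ^ 2 ≤ w := by
    rw [hw]
    nlinarith
  have h7 : 1 ≤ (1 - 0.2 * x) * (w + 1) := by
    have h8 : (1 - 0.2 * x) * (0.2 * x + 0.0478 * x ^ 2 + 1) ≤ (1 - 0.2 * x) * (w + 1) :=
      mul_le_mul_of_nonneg_left (by linarith) (by linarith)
    have h9 : 1 ≤ (1 - 0.2 * x) * (0.2 * x + 0.0478 * x ^ 2 + 1) := by
      have : (1 - 0.2 * x) * (0.2 * x + 0.0478 * x ^ 2 + 1) =
        1 + (0.0078 * x ^ 2 - 0.00956 * x ^ 3) := by ring
      rw [this]
      nlinarith [sq_nonneg x]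
    linarith
  have h10 : (1 - 0.2 * x) * (w + 1) ≤ (1 - 0.2 * x) * Real.exp w :=
    mul_le_mul_of_nonneg_left h6 (by linarith)
  have hE : 0 < Real.exp (-w) := Real.exp_pos _
  calc Real.exp (-w) = Real.exp (-w) * 1 := by ring
    _ ≤ Real.exp (-w) * ((1 - 0.2 * x) * Real.exp w) :=
      mul_le_mul_of_nonneg_left (by linarith) hE.le
    _ = (1 - 0.2 * x) * (Real.exp (-w) * Real.exp w) := by ring
    _ = 1 - 0.2 * x := by rw [h5]; ring

/-- `b = 0.04 x²`, `n = |V|`.  Claim: for all `W`,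
`P(all the components of G[W] have size ≤ k) ≤ exp(-b (|W| - n (1-x/2)))`.  Strong induction on `|W|`.
If `|W| ≤ n (1-x/2)` the right side is `≥ 1`.  Otherwise take any `v ∈ W`, `C = cmp v`: the event is
`|C| ≤ k` and all components of `G[W \ C]` have size `≤ k` (`cmp_sdiff`); `cmp_cond`, induction
hypothesis: `≤ exp(-b(|W| - n(1-x/2))) E[e^(b|C|); |C| ≤ k]`, and by `cmp_eq_expl` and
`laplace_budget` (`Q = {v}`, `W.erase v`, `t = k`, `N = |W| - k ≥ n(1-x/2) - xn/100`, `gia_num`) the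
expectation is `≤ y ≤ 1`. -/
theorem gia_claim (V : Type) [Fintype V] [DecidableEq V] (x : ℝ) (hx0 : 0 < x) (hx1 : x ≤ 1 / 10)
    (k : ℕ) (hk : 1 ≤ k) (hk2 : (k : ℝ) ≤ x * Fintype.card V / 100) (W : Finset V) :
    PP (bern ((1 + x) / Fintype.card V)) {ξ : Sym2 V → Bool | ∀ v ∈ W, (cmp (bg ξ) W v).card ≤ k} ≤
      Real.exp (-(0.04 * x ^ 2 * (W.card - Fintype.card V * (1 - x / 2)))) := by
  classical
  set n : ℝ := (Fintype.card V : ℝ) with hn
  have hk1 : (1 : ℝ) ≤ k := by exact_mod_cast hk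
  have hn1000 : 1000 ≤ n := by
    have h1 : 1 ≤ x * n / 100 := le_trans hk1 hk2
    have h2 : 0 ≤ n := by rw [hn]; positivity
    nlinarith
  set p : ℝ := (1 + x) / n with hp
  have hp0 : 0 ≤ p := by positivity
  have hp1 : p ≤ 1 := by
    rw [hp, div_le_one (by linarith)]
    linarith
  have hq := bern_law hp0 hp1
  set b : ℝ := 0.04 * x ^ 2 with hb
  have hb0 : 0 ≤ b := by positivity
  induction hm : W.card using Nat.strong_induction_on generalizing W with
  | _ m ih =>
    subst hm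
    by_cases hW : (W.card : ℝ) ≤ n * (1 - x / 2)
    · refine le_trans (PP_le_one hq _) (Real.one_le_exp ?_)
      have : b * (W.card - n * (1 - x / 2)) ≤ 0 :=
        mul_nonpos_of_nonneg_of_nonpos hb0 (by linarith)
      linarith
    push Not at hW
    have hWpos : 0 < W.card := by
      have h1 : (0 : ℝ) < W.card := lt_of_le_of_lt (by nlinarith) hW
      exact_mod_cast h1
    obtain ⟨v, hv⟩ := Finset.card_pos.mp hWpos
    -- the functions
    let S : Finset V → Set (Sym2 V → Bool) := fun U => {ξ | ∀ v ∈ U, (cmp (bg ξ) U v).card ≤ k}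
    let F : Finset V → (Sym2 V → Bool) → ℝ := fun D ξ =>
      if D.card ≤ k then (if ξ ∈ S (W \ D) then (1 : ℝ) else 0) else 0
    have hF : ∀ D, DependsOn (F D) (inE (W \ D)) := by
      intro D ξ ξ' h
      have h1 : ∀ u, cmp (bg ξ) (W \ D) u = cmp (bg ξ') (W \ D) u := fun u =>
        dep_cmp (W \ D) u id h
      have h2 : ξ ∈ S (W \ D) ↔ ξ' ∈ S (W \ D) := by
        simp only [S, Set.mem_ofPred_eq, h1]
      simp only [F, h2]
    have hstep1 : PP (bern p) (S W) ≤ EE (bern p) (fun ξ => F (cmp (bg ξ) W v) ξ) := by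
      rw [PP_eq]
      apply EE_mono hq
      intro ξ
      by_cases hξ : ξ ∈ S W
      · have hc : (cmp (bg ξ) W v).card ≤ k := hξ v hv
        have hS : ξ ∈ S (W \ cmp (bg ξ) W v) := by
          intro u hu
          rw [cmp_sdiff (bg ξ) (bg_symm ξ) W v u hu]
          exact hξ u (Finset.mem_sdiff.mp hu).1
        simp only [F]
        rw [if_pos hξ, if_pos hc, if_pos hS]
      · rw [if_neg hξ]
        simp only [F]
        split_ifs <;> norm_num
    have hstep2 : ∀ ξ : Sym2 V → Bool, EE (bern p) (F (cmp (bg ξ) W v)) ≤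
        Real.exp (-(b * (W.card - n * (1 - x / 2)))) *
          (if (expl (bg ξ) {v} (W.erase v)).card ≤ k then
            (Real.exp b) ^ (expl (bg ξ) {v} (W.erase v)).card else 0) := by
      intro ξ
      have hCe := cmp_eq_expl (bg ξ) W v hv
      rw [← hCe]
      set C := cmp (bg ξ) W v with hC
      by_cases hc : C.card ≤ k
      · rw [if_pos hc]
        have h1 : EE (bern p) (F C) = PP (bern p) (S (W \ C)) := by
          rw [PP_eq]
          refine EE_congr fun η => ?_
          by_cases hη : η ∈ S (W \ C)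
          · simp only [F, if_pos hc, if_pos hη]
          · simp only [F, if_pos hc, if_neg hη]
        have hsub : C ⊆ W := cmp_subset (bg ξ) W v
        have hvC : v ∈ C := self_mem_cmp (bg ξ) W v hv
        have hcard : (W \ C).card + C.card = W.card := Finset.card_sdiff_add_card_eq_card hsub
        have hCpos : 0 < C.card := Finset.card_pos.mpr ⟨v, hvC⟩
        have h2 := ih (W \ C).card (by omega) (W \ C) rfl
        rw [h1]
        refine le_trans h2 (le_of_eq ?_)
        rw [← Real.exp_nat_mul, ← Real.exp_add]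
        congr 1
        have h3 : ((W \ C).card : ℝ) = W.card - C.card := by
          rw [← hcard]
          push_cast
          ring
        rw [h3]
        ring
      · rw [if_neg hc, mul_zero]
        have h1 : EE (bern p) (F C) = 0 := by
          have : F C = fun _ => (0 : ℝ) := by
            funext η
            simp only [F, if_neg hc]
          rw [this]
          exact EE_const hq 0
        rw [h1]
    have hkW : k ≤ W.card := by
      have h1 : (k : ℝ) ≤ W.card := by
        have : x * n / 100 ≤ n * (1 - x / 2) := by nlinarith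
        linarith
      exact_mod_cast h1
    have hN : n * (1 - 51 / 100 * x) ≤ ((W.card - k : ℕ) : ℝ) := by
      rw [Nat.cast_sub hkW]
      nlinarith
    have hnum := gia_num n x (W.card - k) (by linarith) hx0 hx1 hN hp1
    have hcard2 : W.card - k + k ≤ (W.erase v).card + ({v} : Finset V).card := by
      rw [Finset.card_erase_of_mem hv, Finset.card_singleton]
      omega
    have hlap := laplace_budget p (Real.exp b) (1 - 0.2 * x) (W.card - k) k hp0 hp1
      (Real.exp_pos _) (by linarith) (by linarith) hnum {v} (W.erase v)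
      (Finset.disjoint_singleton_left.mpr (Finset.notMem_erase v W)) hcard2
    rw [Finset.card_singleton, pow_one] at hlap
    calc PP (bern p) (S W) ≤ EE (bern p) (fun ξ => F (cmp (bg ξ) W v) ξ) := hstep1
      _ = EE (bern p) (fun ξ => EE (bern p) (F (cmp (bg ξ) W v))) :=
        cmp_cond hp0 hp1 W v hv F hF
      _ ≤ EE (bern p) (fun ξ => Real.exp (-(b * (W.card - n * (1 - x / 2)))) *
          (if (expl (bg ξ) {v} (W.erase v)).card ≤ k then
            (Real.exp b) ^ (expl (bg ξ) {v} (W.erase v)).card else 0)) :=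
        EE_mono hq hstep2
      _ = Real.exp (-(b * (W.card - n * (1 - x / 2)))) *
          EE (bern p) (fun ξ => if (expl (bg ξ) {v} (W.erase v)).card ≤ k then
            (Real.exp b) ^ (expl (bg ξ) {v} (W.erase v)).card else 0) := EE_mul_left _ _
      _ ≤ Real.exp (-(b * (W.card - n * (1 - x / 2)))) * 1 :=
        mul_le_mul_of_nonneg_left (le_trans hlap (by linarith)) (Real.exp_pos _).le
      _ = _ := mul_one _

variable {V : Type} [Fintype V] [DecidableEq V]

/-- `gia_claim` with `|W| - n (1-x/2) ≥ n (x/2 - x/100) = 0.49 x n` -/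
theorem giant_exist (x : ℝ) (hx0 : 0 < x) (hx1 : x ≤ 1 / 10) (W : Finset V)
    (hW : Fintype.card V * (1 - x / 100) ≤ W.card) (k : ℕ) (hk : 1 ≤ k)
    (hk2 : (k : ℝ) ≤ x * Fintype.card V / 100) :
    PP (bern ((1 + x) / Fintype.card V)) {ξ | ∀ v ∈ W, (cmp (bg ξ) W v).card ≤ k} ≤
      Real.exp (-(19 / 1000 * x ^ 3 * Fintype.card V)) := by
  refine le_trans (gia_claim V x hx0 hx1 k hk hk2 W) (Real.exp_le_exp.mpr ?_)
  have hn : (0 : ℝ) ≤ Fintype.card V := by positivity
  have h1 : (Fintype.card V : ℝ) * (49 / 100 * x) ≤ W.card - Fintype.card V * (1 - x / 2) := by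
    nlinarith
  have h2 : 0.04 * x ^ 2 * ((Fintype.card V : ℝ) * (49 / 100 * x)) ≤
      0.04 * x ^ 2 * (W.card - Fintype.card V * (1 - x / 2)) :=
    mul_le_mul_of_nonneg_left h1 (by positivity)
  have h3 : 0 ≤ x ^ 3 * (Fintype.card V : ℝ) := by positivity
  nlinarith

end RST.G
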