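import Mathlib

/-!
# Stream G: definitions of the random graph library
-/

set_option autoImplicit false

open Finset

namespace RST

/-- Bernoulli law. -/
def bern (p : ℝ) : Bool → ℝ := fun x => if x then p else 1 - p

/-- The graph of the open edges. -/
def bg {V : Type} (ξ : Sym2 V → Bool) (u v : V) : Prop := u ≠ v ∧ ξ s(u, v) = true

/-- Union of two relations. -/
def rU {V : Type} (R S : V → V → Prop) (u v : V) : Prop := R u v ∨ S u v

open Classical in
/-- The ball of radius `r`. -/
noncomputable def ball {V : Type} [Fintype V] (R : V → V → Prop) (v : V) (r : ℕ) : Finset V :=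
  univ.filter fun w => ∃ (γ : ℕ → V) (ℓ : ℕ), ℓ ≤ r ∧ γ 0 = v ∧ γ ℓ = w ∧
    ∀ i < ℓ, R (γ i) (γ (i + 1))

/-- The one arm bound. -/
noncomputable def armB (n : ℕ) (x : ℝ) (r : ℕ) : ℝ := 8 / r + 4 * (x + 4 / n)

namespace G

/-- The edges (unordered pairs) with both ends in `S`. -/
def inE {V : Type} (S : Finset V) : Set (Sym2 V) := {e | ∀ x ∈ e, x ∈ S}

/-- Increasing event. -/
def Inc {ι : Type} (A : Set (ι → Bool)) : Prop :=
  ∀ ξ ξ' : ι → Bool, (∀ e, ξ e = true → ξ' e = true) → ξ ∈ A → ξ' ∈ A

/-- Disjoint occurrence (of increasing events). -/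
def Box {ι : Type} (A B : Set (ι → Bool)) : Set (ι → Bool) :=
  {ξ | ∃ η : ι → Bool, (∀ e, η e = true → ξ e = true) ∧ η ∈ A ∧ (fun e => ξ e && !η e) ∈ B}

open Classical in
/-- The neighbours in `W` of the set `L`. -/
noncomputable def nb {V : Type} (R : V → V → Prop) (L W : Finset V) : Finset V :=
  W.filter fun w => ∃ u ∈ L, R u w

open Classical in
/-- Layered exploration: `L` and `j` further layers in `W`. -/
noncomputable def bex {V : Type} (R : V → V → Prop) : ℕ → Finset V → Finset V → Finset V
  | 0, L, _ => L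
  | j + 1, L, W => L ∪ bex R j (nb R L W) (W \ nb R L W)

end G

end RST
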