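import Pool.Agent.Lib.MP_7946c7_pr.DefsW
import Pool.Agent.Lib.MP_7946c7_pr.G.Defs

/-!
# Stream G, job ExpB: components `cmp R W v` (no probability)
-/

set_option autoImplicit false

open Finset

namespace RST.G

variable {V : Type} [DecidableEq V]

omit [DecidableEq V] in
private theorem ExpB_mem (R : V → V → Prop) (W : Finset V) (v w : V) :
    w ∈ cmp R W v ↔ w ∈ W ∧ v ∈ W ∧ Rch R W v w := by
  classical
  simp only [cmp, mem_filter]

omit [DecidableEq V] in
private theorem ExpB_mem_expl (R : V → V → Prop) (Q W : Finset V) (w : V) :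
    w ∈ expl R Q W ↔ w ∈ Q ∨ (w ∈ W ∧ ∃ q ∈ Q, ∃ u ∈ W, R q u ∧ Rch R W u w) := by
  classical
  simp only [expl, mem_union, mem_filter]

omit [DecidableEq V] in
private theorem ExpB_rch_mono {R R' : V → V → Prop} {W W' : Finset V}
    (h : ∀ u ∈ W, ∀ w ∈ W, R u w → R' u w) (hW : W ⊆ W') {u w : V} (hr : Rch R W u w) :
    Rch R' W' u w := by
  induction hr with
  | refl => exact Relation.ReflTransGen.refl
  | @tail a b _ hab ih =>
    exact Relation.ReflTransGen.tail ih ⟨h a hab.2.1 b hab.2.2 hab.1, hW hab.2.1, hW hab.2.2⟩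

omit [DecidableEq V] in
private theorem ExpB_rch_symm {R : V → V → Prop} (hR : ∀ u v, R u v → R v u) {W : Finset V}
    {u w : V} (hr : Rch R W u w) : Rch R W w u := by
  induction hr with
  | refl => exact Relation.ReflTransGen.refl
  | @tail a b _ hab ih =>
    exact Relation.ReflTransGen.head ⟨hR a b hab.1, hab.2.2, hab.2.1⟩ ih

theorem cmp_of_not_mem (R : V → V → Prop) (W : Finset V) (v : V) (hv : v ∉ W) :
    cmp R W v = ∅ := by
  ext w
  rw [ExpB_mem]
  constructor
  · intro h; exact absurd h.2.1 hv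
  · intro h; exact absurd h (notMem_empty w)

theorem self_mem_cmp (R : V → V → Prop) (W : Finset V) (v : V) (hv : v ∈ W) : v ∈ cmp R W v := by
  rw [ExpB_mem]
  exact ⟨hv, hv, Relation.ReflTransGen.refl⟩

theorem cmp_subset (R : V → V → Prop) (W : Finset V) (v : V) : cmp R W v ⊆ W := by
  intro w hw
  exact ((ExpB_mem R W v w).1 hw).1

theorem cmp_congr (R R' : V → V → Prop) (W : Finset V) (v : V)
    (h : ∀ u ∈ W, ∀ w ∈ W, R u w ↔ R' u w) : cmp R W v = cmp R' W v := by
  ext w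
  rw [ExpB_mem, ExpB_mem]
  constructor
  · rintro ⟨h1, h2, h3⟩
    exact ⟨h1, h2, ExpB_rch_mono (fun u hu w hw => (h u hu w hw).1) (Subset.refl W) h3⟩
  · rintro ⟨h1, h2, h3⟩
    exact ⟨h1, h2, ExpB_rch_mono (fun u hu w hw => (h u hu w hw).2) (Subset.refl W) h3⟩

theorem cmp_mono (R R' : V → V → Prop) (W W' : Finset V) (v : V)
    (h : ∀ u w, R u w → R' u w) (hW : W ⊆ W') : cmp R W v ⊆ cmp R' W' v := by
  intro w hw
  rw [ExpB_mem] at hw ⊢
  exact ⟨hW hw.1, hW hw.2.1, ExpB_rch_mono (fun u _ w _ => h u w) hW hw.2.2⟩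

/-- (no symmetry needed: last visit to `v`) -/
theorem cmp_eq_expl (R : V → V → Prop) (W : Finset V) (v : V) (hv : v ∈ W) :
    cmp R W v = expl R {v} (W.erase v) := by
  apply Subset.antisymm
  · intro w hw
    rw [ExpB_mem] at hw
    have hr := hw.2.2
    clear hw
    induction hr with
    | refl =>
      rw [ExpB_mem_expl]
      exact Or.inl (mem_singleton_self v)
    | @tail b c _ hbc ih =>
      rw [ExpB_mem_expl] at ih ⊢
      by_cases hc : c = v
      · exact Or.inl (mem_singleton.2 hc)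
      · right
        have hcW : c ∈ W.erase v := mem_erase.2 ⟨hc, hbc.2.2⟩
        rcases ih with hb | ⟨hb, q, hq, u, hu, hqu, hr⟩
        · exact ⟨hcW, b, hb, c, hcW, hbc.1, Relation.ReflTransGen.refl⟩
        · exact ⟨hcW, q, hq, u, hu, hqu, Relation.ReflTransGen.tail hr ⟨hbc.1, hb, hcW⟩⟩
  · intro w hw
    rw [ExpB_mem_expl] at hw
    rcases hw with hw | ⟨hw, q, hq, u, hu, hqu, hr⟩
    · rw [mem_singleton] at hw
      rw [hw]
      exact self_mem_cmp R W v hv
    · rw [mem_singleton] at hq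
      subst hq
      rw [ExpB_mem]
      refine ⟨(mem_erase.1 hw).2, hv, ?_⟩
      refine Relation.ReflTransGen.head ⟨hqu, hv, (mem_erase.1 hu).2⟩ ?_
      exact ExpB_rch_mono (fun _ _ _ _ h => h) (erase_subset _ _) hr

theorem cmp_eq_of_mem (R : V → V → Prop) (hR : ∀ u v, R u v → R v u) (W : Finset V) (v w : V)
    (h : w ∈ cmp R W v) : cmp R W w = cmp R W v := by
  rw [ExpB_mem] at h
  obtain ⟨hw, hv, hr⟩ := h
  ext x
  rw [ExpB_mem, ExpB_mem]
  constructor
  · rintro ⟨h1, _, h3⟩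
    exact ⟨h1, hv, Relation.ReflTransGen.trans hr h3⟩
  · rintro ⟨h1, _, h3⟩
    exact ⟨h1, hw, Relation.ReflTransGen.trans (ExpB_rch_symm hR hr) h3⟩

/-- removing a component does not change the others -/
theorem cmp_sdiff (R : V → V → Prop) (hR : ∀ u v, R u v → R v u) (W : Finset V) (v u : V)
    (hu : u ∈ W \ cmp R W v) : cmp R (W \ cmp R W v) u = cmp R W u := by
  apply Subset.antisymm
  · exact cmp_mono R R _ _ u (fun _ _ h => h) sdiff_subset
  · intro x hx
    rw [ExpB_mem] at hx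
    have key : ∀ x, Rch R W u x → Rch R (W \ cmp R W v) u x ∧ x ∈ W \ cmp R W v := by
      intro x hr
      induction hr with
      | refl => exact ⟨Relation.ReflTransGen.refl, hu⟩
      | @tail b c _ hbc ih =>
        have hc : c ∈ W \ cmp R W v := by
          rw [mem_sdiff]
          refine ⟨hbc.2.2, fun hc => (mem_sdiff.1 ih.2).2 ?_⟩
          rw [ExpB_mem] at hc ⊢
          exact ⟨hbc.2.1, hc.2.1, Relation.ReflTransGen.tail hc.2.2
            ⟨hR _ _ hbc.1, hbc.2.2, hbc.2.1⟩⟩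
        exact ⟨Relation.ReflTransGen.tail ih.1 ⟨hbc.1, ih.2, hc⟩, hc⟩
    obtain ⟨h1, h2⟩ := key x hx.2.2
    rw [ExpB_mem]
    exact ⟨h2, hu, h1⟩

/-- the big components after removing the component of `v` -/
theorem bigs_sdiff (R : V → V → Prop) (hR : ∀ u v, R u v → R v u) (W : Finset V) (v : V)
    (hv : v ∈ W) (k : ℕ) :
    (bigs R W k).card =
      (bigs R (W \ cmp R W v) k).card + if k ≤ (cmp R W v).card then 1 else 0 := by
  classical
  set C := cmp R W v with hC
  have himg : (W.image fun v => cmp R W v) =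
      insert C ((W \ C).image fun v => cmp R (W \ C) v) := by
    ext D
    rw [mem_image, mem_insert, mem_image]
    constructor
    · rintro ⟨w, hw, rfl⟩
      by_cases hwC : w ∈ C
      · left
        exact cmp_eq_of_mem R hR W v w hwC
      · right
        exact ⟨w, mem_sdiff.2 ⟨hw, hwC⟩, cmp_sdiff R hR W v w (mem_sdiff.2 ⟨hw, hwC⟩)⟩
    · rintro (rfl | ⟨w, hw, rfl⟩)
      · exact ⟨v, hv, rfl⟩
      · exact ⟨w, (mem_sdiff.1 hw).1, (cmp_sdiff R hR W v w hw).symm⟩
  have hnot : C ∉ (W \ C).image fun v => cmp R (W \ C) v := by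
    intro h
    rw [mem_image] at h
    obtain ⟨w, hw, hwC⟩ := h
    have h1 : w ∈ cmp R (W \ C) w := self_mem_cmp R _ w hw
    rw [hwC] at h1
    exact (mem_sdiff.1 hw).2 h1
  have h1 : bigs R W k = (W.image fun v => cmp R W v).filter fun D => k ≤ D.card := by
    ext D
    simp only [bigs, mem_filter, mem_image]
  have h2 : bigs R (W \ C) k = ((W \ C).image fun v => cmp R (W \ C) v).filter
      fun D => k ≤ D.card := by
    ext D
    simp only [bigs, mem_filter, mem_image]
  rw [h1, h2, himg, filter_insert]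
  by_cases hk : k ≤ C.card
  · rw [if_pos hk, if_pos hk, card_insert_of_notMem]
    intro h
    exact hnot (mem_filter.1 h).1
  · rw [if_neg hk, if_neg hk, add_zero]

/-- a vertex explored from `Q ⊆ W` is in the component of a vertex of `Q` -/
theorem expl_sub_cmp (R : V → V → Prop) (Q W : Finset V) (hQ : Q ⊆ W) (w : V)
    (hw : w ∈ expl R Q (W \ Q)) : ∃ q ∈ Q, w ∈ cmp R W q := by
  rw [ExpB_mem_expl] at hw
  rcases hw with hw | ⟨hw, q, hq, u, hu, hqu, hr⟩
  · exact ⟨w, hw, self_mem_cmp R W w (hQ hw)⟩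
  · refine ⟨q, hq, ?_⟩
    rw [ExpB_mem]
    refine ⟨(mem_sdiff.1 hw).1, hQ hq, ?_⟩
    refine Relation.ReflTransGen.head ⟨hqu, hQ hq, (mem_sdiff.1 hu).1⟩ ?_
    exact ExpB_rch_mono (fun _ _ _ _ h => h) sdiff_subset hr

theorem bg_symm (ξ : Sym2 V → Bool) (u v : V) (h : bg ξ u v) : bg ξ v u := by
  refine ⟨h.1.symm, ?_⟩
  rw [Sym2.eq_swap]
  exact h.2

theorem bg_congr (ξ ξ' : Sym2 V → Bool) (S : Finset V) (h : ∀ e ∈ inE S, ξ e = ξ' e) :
    ∀ u ∈ S, ∀ w ∈ S, bg ξ u w ↔ bg ξ' u w := by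
  intro u hu w hw
  have h1 : ξ s(u, w) = ξ' s(u, w) := by
    apply h
    intro x hx
    rcases Sym2.mem_iff.1 hx with rfl | rfl
    · exact hu
    · exact hw
  rw [bg, bg, h1]

end RST.G
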