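import Pool.Agent.Lib.MP_7946c7_pr.G.BasB
import Pool.Agent.Lib.MP_7946c7_pr.G.ExpB
import Pool.Agent.Lib.MP_7946c7_pr.G.Step

/-!
# Stream G, job LapC: probability of an exact size, G6
-/

set_option autoImplicit false

open Finset

namespace RST.G

variable {V : Type} [Fintype V] [DecidableEq V]

private theorem LapC_base {p z : ℝ} (hp0 : 0 ≤ p) (hp1 : p ≤ 1) (hz : 0 < z) (t : ℕ) :
    0 ≤ 1 + (z - 1) * (1 - p) ^ t := by
  have h0 : 0 ≤ (1 - p) ^ t := pow_nonneg (by linarith) _
  have h1 : (1 - p) ^ t ≤ 1 := pow_le_one₀ (by linarith) (by linarith)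
  nlinarith [mul_nonneg h0 hz.le]

private theorem LapC_aux (p z : ℝ) (hp0 : 0 ≤ p) (hp1 : p ≤ 1) (hz : 0 < z) :
    ∀ (n : ℕ) (Q W : Finset V), Q.card + W.card = n → Disjoint Q W → ∀ t : ℕ,
      t ≤ W.card + Q.card →
    PP (bern p) {ξ | (expl (bg ξ) Q W).card = t} * z ^ (W.card + Q.card - t) ≤
      (1 + (z - 1) * (1 - p) ^ t) ^ W.card := by
  classical
  intro n
  induction n using Nat.strong_induction_on with
  | _ n ih =>
  intro Q W hn hQW t ht
  have hlaw : IsLaw (bern p) := bern_law hp0 hp1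
  have hb := LapC_base hp0 hp1 hz t
  rcases Q.eq_empty_or_nonempty with rfl | ⟨q, hq⟩
  · rcases Nat.eq_zero_or_pos t with rfl | htp
    · have h1 : PP (bern p) {ξ : Sym2 V → Bool | (expl (bg ξ) ∅ W).card = 0} ≤ 1 :=
        PP_le_one hlaw _
      have h2 : (1 + (z - 1) * (1 - p) ^ 0) ^ W.card = z ^ W.card := by
        congr 1; simp
      rw [h2]
      have h3 : 0 < z ^ W.card := pow_pos hz _
      simpa using mul_le_mul_of_nonneg_right h1 h3.le
    · have h1 : {ξ : Sym2 V → Bool | (expl (bg ξ) ∅ W).card = t} = ∅ := by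
        ext ξ
        simp only [Set.mem_ofPred_eq, Set.mem_empty_iff_false, iff_false]
        rw [expl_empty]
        simp only [card_empty]
        omega
      rw [h1, PP_empty, zero_mul]
      exact pow_nonneg hb _
  · cases t with
    | zero =>
      have h1 : {ξ : Sym2 V → Bool | (expl (bg ξ) Q W).card = 0} = ∅ := by
        ext ξ
        simp only [Set.mem_ofPred_eq, Set.mem_empty_iff_false, iff_false]
        intro h
        have := subset_expl (bg ξ) Q W hq
        rw [Finset.card_eq_zero] at h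
        rw [h] at this
        simp at this
      rw [h1, PP_empty, zero_mul]
      exact pow_nonneg hb _
    | succ t' =>
      have h1 : PP (bern p) {ξ : Sym2 V → Bool | (expl (bg ξ) Q W).card = t' + 1} =
          ∑ N ∈ W.powerset, p ^ N.card * (1 - p) ^ (W.card - N.card) *
            PP (bern p) {ξ : Sym2 V → Bool |
              (expl (bg ξ) (Q.erase q ∪ N) (W \ N)).card = t'} := by
        rw [PP_eq]
        have h2 := expl_EE hp0 hp1 Q W hQW q hq (fun k => if k = t' + 1 then (1 : ℝ) else 0)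
        rw [EE_congr (G := fun ξ : Sym2 V → Bool =>
          (fun k => if k = t' + 1 then (1 : ℝ) else 0) (expl (bg ξ) Q W).card)
          (fun ξ => by simp), h2]
        apply Finset.sum_congr rfl
        intro N _
        rw [PP_eq]
        congr 1
        apply EE_congr
        intro ξ
        have : (1 + (expl (bg ξ) (Q.erase q ∪ N) (W \ N)).card = t' + 1) ↔
            ((expl (bg ξ) (Q.erase q ∪ N) (W \ N)).card = t') := by omega
        by_cases hc : (expl (bg ξ) (Q.erase q ∪ N) (W \ N)).card = t'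
        · simp [hc, add_comm]
        · simp [hc, this]
      set s : ℝ := 1 + (z - 1) * (1 - p) ^ t' with hs
      have hterm : ∀ N ∈ W.powerset, p ^ N.card * (1 - p) ^ (W.card - N.card) *
            PP (bern p) {ξ : Sym2 V → Bool |
              (expl (bg ξ) (Q.erase q ∪ N) (W \ N)).card = t'} *
              z ^ (W.card + Q.card - (t' + 1)) ≤
            p ^ N.card * ((1 - p) * s) ^ (W.card - N.card) * (1 : ℝ) ^ N.card := by
        intro N hN
        have hN' := Finset.mem_powerset.1 hN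
        obtain ⟨c1, c2, c3, c4⟩ := card_step Q W N hQW q hq hN'
        have hih := ih ((Q.erase q ∪ N).card + (W \ N).card) (by omega) (Q.erase q ∪ N) (W \ N)
          rfl c3 t' (by omega)
        have he : (W \ N).card + (Q.erase q ∪ N).card - t' = W.card + Q.card - (t' + 1) := by
          omega
        rw [he, c2, ← hs] at hih
        have hpp : 0 ≤ p ^ N.card * (1 - p) ^ (W.card - N.card) :=
          mul_nonneg (pow_nonneg hp0 _) (pow_nonneg (by linarith) _)
        calc _ = (p ^ N.card * (1 - p) ^ (W.card - N.card)) *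
            (PP (bern p) {ξ : Sym2 V → Bool |
              (expl (bg ξ) (Q.erase q ∪ N) (W \ N)).card = t'} *
              z ^ (W.card + Q.card - (t' + 1))) := by ring
          _ ≤ (p ^ N.card * (1 - p) ^ (W.card - N.card)) * s ^ (W.card - N.card) :=
            mul_le_mul_of_nonneg_left hih hpp
          _ = _ := by rw [one_pow, mul_one, mul_pow]; ring
      rw [h1, Finset.sum_mul]
      refine (Finset.sum_le_sum hterm).trans ?_
      rw [binom_sum]
      apply le_of_eq
      congr 1
      rw [hs]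
      ring

/-- G6.  Induction on `Q.card + W.card` (for all `Q`, `W`, `t`).  `Q = ∅`: `expl = ∅`, so for
`t = 0` the probability is `1` and both sides are `z^|W|`, for `t > 0` it is 0 (and
`1 + (z-1)(1-p)^t ≥ 0`).  Otherwise take `q ∈ Q`; `t = 0`: probability 0.  `t = t'+1`: `expl_EE`
with `F k = if k = t then 1 else 0`, induction hypothesis for `(Q.erase q ∪ N, W \ N)`, `t'`
(`card_step`: `|W \ N| + |Q.erase q ∪ N| - t' = |W| + |Q| - t`; if `t' > |W \ N| + |Q.erase q ∪ N|`
is impossible), and `binom_sum` with `y = 1`-type sum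
`∑_N p^|N| (1-p)^(|W|-|N|) s^(|W|-|N|) = (p + (1-p) s)^|W|`, `s = 1 + (z-1)(1-p)^t'`,
`p + (1-p) s = 1 + (z-1)(1-p)^t`. -/
theorem exact_size (p z : ℝ) (hp0 : 0 ≤ p) (hp1 : p ≤ 1) (hz : 0 < z) (Q W : Finset V)
    (hQW : Disjoint Q W) (t : ℕ) (ht : t ≤ W.card + Q.card) :
    PP (bern p) {ξ | (expl (bg ξ) Q W).card = t} * z ^ (W.card + Q.card - t) ≤
      (1 + (z - 1) * (1 - p) ^ t) ^ W.card :=
  LapC_aux p z hp0 hp1 hz (Q.card + W.card) Q W rfl hQW t ht

private theorem LapC_exp (g : ℝ) (hg0 : 0 < g) (hg1 : g ≤ 1) :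
    1 + g ≤ Real.exp (g - g ^ 2 / 8) := by
  have h0 : 0 ≤ g - g ^ 2 / 8 := by nlinarith
  have h1 := Real.quadratic_le_exp_of_nonneg h0
  have h2 : 1 + g ≤ 1 + (g - g ^ 2 / 8) + (g - g ^ 2 / 8) ^ 2 / 2 := by
    have h3 : (7 / 8 * g) ^ 2 ≤ (g - g ^ 2 / 8) ^ 2 := by
      apply pow_le_pow_left₀ (by positivity)
      nlinarith
    nlinarith
  linarith

/-- Consequence of G6.  `cmp_eq_expl` with `w = |W| - 1 = |W.erase v|`; if `t > w + 1` the
probability is 0.  With `z = 1 + g`, `u = 1 - (1-p)^t`: `1 + (z-1)(1-p)^t = z (1 - (1 - 1/z) u)`, so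
`P ≤ z^(t-1) (1 - (1-1/z) u)^w ≤ z^t exp(-(1-1/z) u w) ≤ exp(t (log (1+g) - g))` (hypothesis
`u w ≥ (1+g) t`, `(1-1/z)(1+g) = g`), and `log(1+g) ≤ g - g²/2 + g³/3 ≤ g - g²/8`. -/
theorem exact_size_gap (p g : ℝ) (hp0 : 0 ≤ p) (hp1 : p ≤ 1) (hg0 : 0 < g) (hg1 : g ≤ 1)
    (W : Finset V) (v : V) (hv : v ∈ W) (t : ℕ) (ht : 1 ≤ t)
    (h : (1 + g) * t ≤ (W.card - 1) * (1 - (1 - p) ^ t)) :
    PP (bern p) {ξ | (cmp (bg ξ) W v).card = t} ≤ Real.exp (-(t * g ^ 2 / 8)) := by
  classical
  have hset : {ξ : Sym2 V → Bool | (cmp (bg ξ) W v).card = t} =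
      {ξ : Sym2 V → Bool | (expl (bg ξ) {v} (W.erase v)).card = t} := by
    ext ξ
    simp only [Set.mem_ofPred_eq]
    rw [cmp_eq_expl _ W v hv]
  rw [hset]
  set w : ℕ := (W.erase v).card with hw
  have hcard : W.card = w + 1 := by
    rw [hw, Finset.card_erase_of_mem hv]
    have : 0 < W.card := Finset.card_pos.2 ⟨v, hv⟩
    omega
  have hdisj : Disjoint ({v} : Finset V) (W.erase v) := by
    rw [Finset.disjoint_singleton_left]
    exact Finset.notMem_erase v W
  by_cases htw : t ≤ w + 1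
  · have hz : 0 < 1 + g := by linarith
    have h6 := exact_size p (1 + g) hp0 hp1 hz {v} (W.erase v) hdisj t
      (by rw [Finset.card_singleton]; exact htw)
    rw [Finset.card_singleton, ← hw] at h6
    set P := PP (bern p) {ξ : Sym2 V → Bool | (expl (bg ξ) {v} (W.erase v)).card = t} with hP
    set a : ℝ := (1 - p) ^ t with ha
    have ha0 : 0 ≤ a := pow_nonneg (by linarith) _
    have ha1 : a ≤ 1 := pow_le_one₀ (by linarith) (by linarith)
    have hwt : (1 + g) * t ≤ w * (1 - a) := by
      have : ((W.card : ℝ) - 1) = w := by rw [hcard]; push_cast; ring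
      rw [this] at h
      exact h
    have hfac : 1 + (1 + g - 1) * a = (1 + g) * (1 - g / (1 + g) * (1 - a)) := by
      field_simp
      ring
    have hexp : 1 - g / (1 + g) * (1 - a) ≤ Real.exp (-(g / (1 + g) * (1 - a))) := by
      have := Real.add_one_le_exp (-(g / (1 + g) * (1 - a)))
      linarith
    have hnn : 0 ≤ 1 - g / (1 + g) * (1 - a) := by
      have h1 : g / (1 + g) ≤ 1 := by rw [div_le_one hz]; linarith
      have h2 : 0 ≤ g / (1 + g) := by positivity
      nlinarith
    have hpow : (1 - g / (1 + g) * (1 - a)) ^ w ≤ Real.exp (-(g * t)) := by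
      calc (1 - g / (1 + g) * (1 - a)) ^ w ≤ (Real.exp (-(g / (1 + g) * (1 - a)))) ^ w :=
            pow_le_pow_left₀ hnn hexp _
        _ = Real.exp (-(g / (1 + g) * (w * (1 - a)))) := by
            rw [← Real.exp_nat_mul]; congr 1; ring
        _ ≤ Real.exp (-(g * t)) := by
            apply Real.exp_le_exp.2
            have h2 : 0 ≤ g / (1 + g) := by positivity
            have h3 := mul_le_mul_of_nonneg_left hwt h2
            have h4 : g / (1 + g) * ((1 + g) * t) = g * t := by
              field_simp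
            linarith
    have hzt : (1 + g) ^ t ≤ Real.exp (t * (g - g ^ 2 / 8)) := by
      calc (1 + g) ^ t ≤ (Real.exp (g - g ^ 2 / 8)) ^ t :=
            pow_le_pow_left₀ hz.le (LapC_exp g hg0 hg1) _
        _ = _ := by rw [← Real.exp_nat_mul]
    rw [hfac, mul_pow] at h6
    have hpos : 0 < (1 + g) ^ (w + 1 - t) := pow_pos hz _
    have hsplit : (1 + g) ^ w ≤ (1 + g) ^ t * (1 + g) ^ (w + 1 - t) := by
      rw [← pow_add]
      apply pow_le_pow_right₀ (by linarith)
      omega
    have h7 : P * (1 + g) ^ (w + 1 - t) ≤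
        ((1 + g) ^ t * Real.exp (-(g * t))) * (1 + g) ^ (w + 1 - t) := by
      calc P * (1 + g) ^ (w + 1 - t) ≤
          (1 + g) ^ w * (1 - g / (1 + g) * (1 - a)) ^ w := h6
        _ ≤ ((1 + g) ^ t * (1 + g) ^ (w + 1 - t)) * Real.exp (-(g * t)) :=
            mul_le_mul hsplit hpow (pow_nonneg hnn _) (by positivity)
        _ = _ := by ring
    have h8 : P ≤ (1 + g) ^ t * Real.exp (-(g * t)) := le_of_mul_le_mul_right h7 hpos
    calc P ≤ (1 + g) ^ t * Real.exp (-(g * t)) := h8
      _ ≤ Real.exp (t * (g - g ^ 2 / 8)) * Real.exp (-(g * t)) :=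
          mul_le_mul_of_nonneg_right hzt (Real.exp_pos _).le
      _ = Real.exp (-(t * g ^ 2 / 8)) := by
          rw [← Real.exp_add]; congr 1; ring
  · have h1 : {ξ : Sym2 V → Bool | (expl (bg ξ) {v} (W.erase v)).card = t} = ∅ := by
      ext ξ
      simp only [Set.mem_ofPred_eq, Set.mem_empty_iff_false, iff_false]
      intro hc
      have h2 := Finset.card_le_card (expl_subset (bg ξ) {v} (W.erase v))
      have h3 := Finset.card_union_le ({v} : Finset V) (W.erase v)
      rw [Finset.card_singleton] at h3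
      omega
    rw [h1, PP_empty]
    exact (Real.exp_pos _).le

end RST.G
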