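import Pool.Agent.Lib.MP_7946c7_pr.G.Step

/-!
# Stream G, job LapA: Laplace transforms G3, G4

Induction on `Q.card + W.card` (for all `Q`, `W`).  `Q = ∅`: `expl = ∅` (`expl_empty`),
`z^0 = 1 = y^0`.  Otherwise take `q ∈ Q`, `expl_EE` with `F k = z^k`, `z^(1+k) = z * z^k`, the
induction hypothesis for `(Q.erase q ∪ N, W \ N)` (`card_step`; its hypothesis holds since
`(1-p+py)^|W \ N|` is `≥` resp. `≤` `(1-p+py)^|W|`: the base is `≤ 1` resp. `≥ 1`), and
`binom_sum`: `z * y^(|Q|-1) * (1-p+py)^|W|`, which is `≥` resp. `≤` `y^|Q|`.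
-/

set_option autoImplicit false

open Finset

namespace RST.G

variable {V : Type} [Fintype V] [DecidableEq V]

/-- the sum over the neighbourhoods -/
private theorem LapA_sum (p z y : ℝ) (Q W : Finset V) (q : V) (hq : q ∈ Q) :
    ∑ N ∈ W.powerset, p ^ N.card * (1 - p) ^ (W.card - N.card) *
      (z * y ^ (Q.card - 1 + N.card)) =
      z * (y ^ (Q.card - 1) * (1 - p + p * y) ^ W.card) := by
  rw [← binom_sum p (1 - p) y W, Finset.mul_sum, Finset.mul_sum]
  refine Finset.sum_congr rfl fun N _ => ?_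
  rw [pow_add]
  ring

private theorem LapA_pow (y : ℝ) (Q : Finset V) (q : V) (hq : q ∈ Q) :
    y ^ Q.card = y ^ (Q.card - 1) * y := by
  have h1 : 1 ≤ Q.card := Finset.card_pos.mpr ⟨q, hq⟩
  rw [← pow_succ]
  congr 1
  omega

private theorem LapA_empty (p z : ℝ) (hp0 : 0 ≤ p) (hp1 : p ≤ 1) (W : Finset V) :
    (EE (bern p) fun ξ : Sym2 V → Bool => z ^ (expl (bg ξ) (∅ : Finset V) W).card) = 1 := by
  have h : ∀ ξ : Sym2 V → Bool, z ^ (expl (bg ξ) (∅ : Finset V) W).card = (1 : ℝ) := by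
    intro ξ
    rw [expl_empty]
    simp
  rw [EE_congr h]
  exact EE_const (bern_law hp0 hp1) 1

private theorem LapA_step (p z : ℝ) (hp0 : 0 ≤ p) (hp1 : p ≤ 1) (Q W : Finset V)
    (hQW : Disjoint Q W) (q : V) (hq : q ∈ Q) :
    (EE (bern p) fun ξ : Sym2 V → Bool => z ^ (expl (bg ξ) Q W).card) =
      ∑ N ∈ W.powerset, p ^ N.card * (1 - p) ^ (W.card - N.card) *
        (z * EE (bern p) (fun ξ : Sym2 V → Bool =>
          z ^ (expl (bg ξ) (Q.erase q ∪ N) (W \ N)).card)) := by
  rw [expl_EE hp0 hp1 Q W hQW q hq (fun k => z ^ k)]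
  refine Finset.sum_congr rfl fun N _ => ?_
  congr 1
  rw [← EE_mul_left]
  refine EE_congr fun ξ => ?_
  rw [pow_add, pow_one]

/-- G3. -/
theorem laplace_lower (p z y : ℝ) (hp0 : 0 ≤ p) (hp1 : p ≤ 1) (hz0 : 0 < z) (hz1 : z ≤ 1)
    (hy0 : 0 < y) (hy1 : y ≤ 1) (Q W : Finset V) (hQW : Disjoint Q W)
    (h : y ≤ z * (1 - p + p * y) ^ W.card) :
    y ^ Q.card ≤ EE (bern p) fun ξ => z ^ (expl (bg ξ) Q W).card := by
  have hB0 : 0 ≤ 1 - p + p * y := by nlinarith [mul_nonneg hp0 hy0.le]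
  have hB1 : 1 - p + p * y ≤ 1 := by nlinarith [mul_nonneg hp0 (sub_nonneg.mpr hy1)]
  generalize hn : Q.card + W.card = n
  induction n using Nat.strong_induction_on generalizing Q W with
  | _ n ih =>
    rcases Finset.eq_empty_or_nonempty Q with rfl | ⟨q, hq⟩
    · rw [LapA_empty p z hp0 hp1 W]
      simp
    · rw [LapA_step p z hp0 hp1 Q W hQW q hq]
      have key : z * (y ^ (Q.card - 1) * (1 - p + p * y) ^ W.card) ≤
          ∑ N ∈ W.powerset, p ^ N.card * (1 - p) ^ (W.card - N.card) *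
            (z * EE (bern p) (fun ξ : Sym2 V → Bool =>
              z ^ (expl (bg ξ) (Q.erase q ∪ N) (W \ N)).card)) := by
        rw [← LapA_sum p z y Q W q hq]
        refine Finset.sum_le_sum fun N hN => ?_
        have hNW : N ⊆ W := Finset.mem_powerset.mp hN
        obtain ⟨hc1, hc2, hd, hc3⟩ := card_step Q W N hQW q hq hNW
        refine mul_le_mul_of_nonneg_left ?_
          (mul_nonneg (pow_nonneg hp0 _) (pow_nonneg (by linarith) _))
        refine mul_le_mul_of_nonneg_left ?_ hz0.le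
        rw [← hc1]
        refine ih _ (by omega) _ _ hd ?_ rfl
        refine h.trans (mul_le_mul_of_nonneg_left ?_ hz0.le)
        exact pow_le_pow_of_le_one hB0 hB1 (by omega)
      refine le_trans ?_ key
      rw [LapA_pow y Q q hq]
      calc y ^ (Q.card - 1) * y ≤ y ^ (Q.card - 1) * (z * (1 - p + p * y) ^ W.card) :=
            mul_le_mul_of_nonneg_left h (pow_nonneg hy0.le _)
        _ = z * (y ^ (Q.card - 1) * (1 - p + p * y) ^ W.card) := by ring

/-- G4. -/
theorem laplace_upper (p z y : ℝ) (hp0 : 0 ≤ p) (hp1 : p ≤ 1) (hz1 : 1 ≤ z) (hy1 : 1 ≤ y)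
    (Q W : Finset V) (hQW : Disjoint Q W) (h : z * (1 - p + p * y) ^ W.card ≤ y) :
    (EE (bern p) fun ξ => z ^ (expl (bg ξ) Q W).card) ≤ y ^ Q.card := by
  have hz0 : 0 ≤ z := by linarith
  have hy0 : 0 ≤ y := by linarith
  have hB1 : 1 ≤ 1 - p + p * y := by nlinarith [mul_nonneg hp0 (sub_nonneg.mpr hy1)]
  generalize hn : Q.card + W.card = n
  induction n using Nat.strong_induction_on generalizing Q W with
  | _ n ih =>
    rcases Finset.eq_empty_or_nonempty Q with rfl | ⟨q, hq⟩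
    · rw [LapA_empty p z hp0 hp1 W]
      simp
    · rw [LapA_step p z hp0 hp1 Q W hQW q hq]
      have key : ∑ N ∈ W.powerset, p ^ N.card * (1 - p) ^ (W.card - N.card) *
            (z * EE (bern p) (fun ξ : Sym2 V → Bool =>
              z ^ (expl (bg ξ) (Q.erase q ∪ N) (W \ N)).card)) ≤
          z * (y ^ (Q.card - 1) * (1 - p + p * y) ^ W.card) := by
        rw [← LapA_sum p z y Q W q hq]
        refine Finset.sum_le_sum fun N hN => ?_
        have hNW : N ⊆ W := Finset.mem_powerset.mp hN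
        obtain ⟨hc1, hc2, hd, hc3⟩ := card_step Q W N hQW q hq hNW
        refine mul_le_mul_of_nonneg_left ?_
          (mul_nonneg (pow_nonneg hp0 _) (pow_nonneg (by linarith) _))
        refine mul_le_mul_of_nonneg_left ?_ hz0
        rw [← hc1]
        refine ih _ (by omega) _ _ hd ?_ rfl
        refine le_trans (mul_le_mul_of_nonneg_left ?_ hz0) h
        exact pow_le_pow_right₀ hB1 (by omega)
      refine le_trans key ?_
      rw [LapA_pow y Q q hq]
      calc z * (y ^ (Q.card - 1) * (1 - p + p * y) ^ W.card)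
          = y ^ (Q.card - 1) * (z * (1 - p + p * y) ^ W.card) := by ring
        _ ≤ y ^ (Q.card - 1) * y := mul_le_mul_of_nonneg_left h (pow_nonneg hy0 _)

end RST.G
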