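import Pool.Agent.Lib.MP_7946c7_pr.G.BasB
import Pool.Agent.Lib.MP_7946c7_pr.G.ExpB
import Pool.Agent.Lib.MP_7946c7_pr.G.LapA

/-!
# Stream G, job SubB: subcritical components
-/

set_option autoImplicit false

open Finset

namespace RST.G

variable {V : Type} [Fintype V] [DecidableEq V]

private lemma SubB_log (d : ℝ) (hd : 0 ≤ d) : Real.exp (d - d ^ 2 / 2) ≤ 1 + d := by
  have h1 := Real.le_log_one_add_of_nonneg hd
  have h2 : d - d ^ 2 / 2 ≤ 2 * d / (d + 2) := by
    rw [le_div_iff₀ (by linarith)]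
    have : 0 ≤ d ^ 3 := by positivity
    nlinarith
  calc Real.exp (d - d ^ 2 / 2) ≤ Real.exp (Real.log (1 + d)) :=
        Real.exp_le_exp.mpr (le_trans h2 h1)
    _ = 1 + d := Real.exp_log (by linarith)

/-- Subcritical exponential moment (from G4).  `v ∉ W`: the component is empty.  Otherwise
`cmp_eq_expl`, `laplace_upper` with `z = exp(hd - d²/2) ≥ 1`, `y = 1 + d`: the condition is
`hd - d²/2 + |W| log(1 + p d) ≤ log(1+d)`: `|W| log(1+pd) ≤ p |W| d ≤ (1-h) d` and
`log(1+d) ≥ d - d²/2`. -/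
theorem subcrit_exp (p h d : ℝ) (hp0 : 0 ≤ p) (hp1 : p ≤ 1) (h0 : 0 < h) (h1 : h ≤ 1)
    (hd0 : 0 ≤ d) (hd : d ≤ 2 * h) (W : Finset V) (hW : p * W.card ≤ 1 - h) (v : V) :
    (EE (bern p) fun ξ => Real.exp ((h * d - d ^ 2 / 2) * (cmp (bg ξ) W v).card)) ≤ 1 + d := by
  by_cases hv : v ∈ W
  · have hnn : 0 ≤ h * d - d ^ 2 / 2 := by nlinarith
    have hup := laplace_upper p (Real.exp (h * d - d ^ 2 / 2)) (1 + d) hp0 hp1
      (Real.one_le_exp hnn) (by linarith) {v} (W.erase v) (by simp) (by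
        have e1 : (1 - p + p * (1 + d)) ≤ Real.exp (p * d) := by
          have := Real.add_one_le_exp (p * d)
          linarith
        have e0 : 0 ≤ (1 - p + p * (1 + d)) := by
          have : 0 ≤ p * d := by positivity
          nlinarith
        have e2 : (1 - p + p * (1 + d)) ^ (W.erase v).card ≤ Real.exp ((1 - h) * d) := by
          calc (1 - p + p * (1 + d)) ^ (W.erase v).card
              ≤ (Real.exp (p * d)) ^ (W.erase v).card := pow_le_pow_left₀ e0 e1 _
            _ = Real.exp ((W.erase v).card * (p * d)) := by rw [Real.exp_nat_mul]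
            _ ≤ Real.exp ((1 - h) * d) := by
                apply Real.exp_le_exp.mpr
                have hc : ((W.erase v).card : ℝ) ≤ W.card := by
                  exact_mod_cast Finset.card_le_card (Finset.erase_subset _ _)
                calc ((W.erase v).card : ℝ) * (p * d) ≤ W.card * (p * d) :=
                      mul_le_mul_of_nonneg_right hc (by positivity)
                  _ = p * W.card * d := by ring
                  _ ≤ (1 - h) * d := mul_le_mul_of_nonneg_right hW hd0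
        calc Real.exp (h * d - d ^ 2 / 2) * (1 - p + p * (1 + d)) ^ (W.erase v).card
            ≤ Real.exp (h * d - d ^ 2 / 2) * Real.exp ((1 - h) * d) :=
              mul_le_mul_of_nonneg_left e2 (Real.exp_pos _).le
          _ = Real.exp (d - d ^ 2 / 2) := by rw [← Real.exp_add]; congr 1; ring
          _ ≤ 1 + d := SubB_log d hd0)
    rw [card_singleton, pow_one] at hup
    refine le_trans (le_of_eq ?_) hup
    apply EE_congr
    intro ξ
    rw [cmp_eq_expl _ _ _ hv, mul_comm, Real.exp_nat_mul]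
  · have : (EE (bern p) fun ξ : Sym2 V → Bool =>
        Real.exp ((h * d - d ^ 2 / 2) * (cmp (bg ξ) W v).card)) =
        EE (bern p) (fun _ : Sym2 V → Bool => (1 : ℝ)) := by
      apply EE_congr
      intro ξ
      rw [cmp_of_not_mem _ _ _ hv]
      simp
    rw [this, EE_const (bern_law hp0 hp1)]
    linarith

/-- `subcrit_exp` with `d = h` and `markov`; trivial if `k ≤ 0` -/
theorem subcrit_tail (p h : ℝ) (hp0 : 0 ≤ p) (hp1 : p ≤ 1) (h0 : 0 < h) (h1 : h ≤ 1)
    (W : Finset V) (hW : p * W.card ≤ 1 - h) (v : V) (k : ℝ) :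
    PP (bern p) {ξ | k ≤ (cmp (bg ξ) W v).card} ≤ 2 * Real.exp (-(h ^ 2 * k / 2)) := by
  have hq := bern_law hp0 hp1
  have hexp := subcrit_exp p h h hp0 hp1 h0 h1 h0.le (by linarith) W hW v
  have hm := markov (q := bern p) hq
    (F := fun ξ : Sym2 V → Bool => Real.exp ((h * h - h ^ 2 / 2) * (cmp (bg ξ) W v).card))
    (fun b => (Real.exp_pos _).le) (a := Real.exp (h ^ 2 * k / 2)) (Real.exp_pos _)
  have hmono : PP (bern p) {ξ : Sym2 V → Bool | k ≤ (cmp (bg ξ) W v).card} ≤
      PP (bern p) {b : Sym2 V → Bool | Real.exp (h ^ 2 * k / 2) ≤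
        Real.exp ((h * h - h ^ 2 / 2) * (cmp (bg b) W v).card)} := by
    apply PP_mono hq
    intro ξ hξ
    simp only [Set.mem_setOf_eq] at hξ ⊢
    apply Real.exp_le_exp.mpr
    nlinarith [sq_nonneg h, mul_le_mul_of_nonneg_left hξ (sq_nonneg h)]
  refine le_trans hmono (le_trans hm ?_)
  rw [Real.exp_neg, div_eq_mul_inv]
  exact mul_le_mul_of_nonneg_right (by linarith) (by positivity)

/-- Expected component size in the subcritical regime: for `0 < d < 2h`
`1 + (hd - d²/2) E|C| ≤ E exp(...) ≤ 1 + d`, so `E|C| ≤ 1/(h - d/2)`; let `d → 0`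
(`le_of_forall_...` or an `ε` argument). -/
theorem subcrit_mean (p h : ℝ) (hp0 : 0 ≤ p) (hp1 : p ≤ 1) (h0 : 0 < h) (h1 : h ≤ 1)
    (W : Finset V) (hW : p * W.card ≤ 1 - h) (v : V) :
    (EE (bern p) fun ξ => ((cmp (bg ξ) W v).card : ℝ)) ≤ 1 / h := by
  have hq := bern_law hp0 hp1
  set m := EE (bern p) fun ξ : Sym2 V → Bool => ((cmp (bg ξ) W v).card : ℝ) with hmdef
  have hm0 : 0 ≤ m := EE_nonneg hq (fun b => Nat.cast_nonneg _)
  have key : ∀ d : ℝ, 0 < d → d < 2 * h → (h - d / 2) * m ≤ 1 := by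
    intro d hd hd2
    have hexp := subcrit_exp p h d hp0 hp1 h0 h1 hd.le hd2.le W hW v
    have hlow : 1 + (h * d - d ^ 2 / 2) * m ≤
        EE (bern p) fun ξ : Sym2 V → Bool =>
          Real.exp ((h * d - d ^ 2 / 2) * (cmp (bg ξ) W v).card) := by
      have e1 : EE (bern p) (fun ξ : Sym2 V → Bool =>
          (1 : ℝ) + (h * d - d ^ 2 / 2) * ((cmp (bg ξ) W v).card : ℝ)) =
          1 + (h * d - d ^ 2 / 2) * m := by
        rw [EE_add, EE_const hq, EE_mul_left]
      rw [← e1]
      apply EE_mono hq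
      intro ξ
      have := Real.add_one_le_exp ((h * d - d ^ 2 / 2) * ((cmp (bg ξ) W v).card : ℝ))
      linarith
    have h3 : d * ((h - d / 2) * m) ≤ d * 1 := by nlinarith
    exact le_of_mul_le_mul_left h3 hd
  rw [le_div_iff₀ h0]
  apply le_of_forall_pos_le_add
  intro ε hε
  set d := min h (ε / (m + 1)) with hd
  have hm1 : 0 < m + 1 := by linarith
  have hd0 : 0 < d := lt_min h0 (div_pos hε hm1)
  have hdh : d ≤ h := min_le_left _ _
  have hdε : d * (m + 1) ≤ ε := by
    have : d ≤ ε / (m + 1) := min_le_right _ _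
    rwa [le_div_iff₀ hm1] at this
  have := key d hd0 (by linarith)
  nlinarith

end RST.G
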