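import Pool.Agent.Lib.MP_7946c7_pr.G.Fac
import Pool.Agent.Lib.MP_7946c7_pr.G.LapC
import Pool.Agent.Lib.MP_7946c7_pr.G.SubB

/-!
# Stream G, job GiaB: gap and uniqueness (G11)
-/

set_option autoImplicit false

open Finset

namespace RST.G

variable {V : Type} [Fintype V] [DecidableEq V]

/-- General gap lemma: union bound over `v ∈ W` and `t ∈ [k, |V|]`, `t ≤ M` (`PP_exists`,
`exact_size_gap`; at most `|V|` values of `t ≥ 1`, `exp(-t g²/8) ≤ exp(-k g²/8)`). -/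
theorem giant_gap (p g M : ℝ) (hp0 : 0 ≤ p) (hp1 : p ≤ 1) (hg0 : 0 < g) (hg1 : g ≤ 1)
    (W : Finset V) (k : ℕ) (hk : 1 ≤ k)
    (h : ∀ t : ℕ, k ≤ t → (t : ℝ) ≤ M → (1 + g) * t ≤ (W.card - 1) * (1 - (1 - p) ^ t)) :
    PP (bern p) {ξ | ∃ v ∈ W, k ≤ (cmp (bg ξ) W v).card ∧ ((cmp (bg ξ) W v).card : ℝ) ≤ M} ≤
      (Fintype.card V : ℝ) ^ 2 * Real.exp (-(k * g ^ 2 / 8)) := by
  classical
  have hlaw : IsLaw (bern p) := bern_law hp0 hp1
  set n := Fintype.card V with hn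
  set s : Finset (V × ℕ) := W ×ˢ ((Finset.Icc 1 n).filter fun t => k ≤ t ∧ (t : ℝ) ≤ M) with hs
  have hsub : {ξ : Sym2 V → Bool | ∃ v ∈ W, k ≤ (cmp (bg ξ) W v).card ∧
      ((cmp (bg ξ) W v).card : ℝ) ≤ M} ⊆
      {ξ | ∃ j ∈ s, ξ ∈ (fun j : V × ℕ => {ξ : Sym2 V → Bool |
        (cmp (bg ξ) W j.1).card = j.2}) j} := by
    rintro ξ ⟨v, hv, h1, h2⟩
    refine ⟨(v, (cmp (bg ξ) W v).card), ?_, rfl⟩
    rw [hs, Finset.mem_product, Finset.mem_filter, Finset.mem_Icc]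
    exact ⟨hv, ⟨by omega, Finset.card_le_univ _⟩, h1, h2⟩
  refine (PP_mono hlaw hsub).trans ((PP_exists hlaw s _).trans ?_)
  have hterm : ∀ j ∈ s, PP (bern p) ((fun j : V × ℕ => {ξ : Sym2 V → Bool |
      (cmp (bg ξ) W j.1).card = j.2}) j) ≤ Real.exp (-(k * g ^ 2 / 8)) := by
    rintro ⟨v, t⟩ hj
    rw [hs, Finset.mem_product, Finset.mem_filter, Finset.mem_Icc] at hj
    obtain ⟨hv, ⟨ht1, -⟩, hkt, htM⟩ := hj
    refine (exact_size_gap p g hp0 hp1 hg0 hg1 W v hv t ht1 (h t hkt htM)).trans ?_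
    apply Real.exp_le_exp.2
    have hkt' : (k : ℝ) ≤ t := by exact_mod_cast hkt
    have : (k : ℝ) * g ^ 2 ≤ t * g ^ 2 := mul_le_mul_of_nonneg_right hkt' (by positivity)
    linarith
  refine (Finset.sum_le_card_nsmul _ _ _ hterm).trans ?_
  rw [nsmul_eq_mul]
  apply mul_le_mul_of_nonneg_right _ (Real.exp_pos _).le
  have hc : s.card ≤ n * n := by
    rw [hs, Finset.card_product]
    apply Nat.mul_le_mul (Finset.card_le_univ _)
    refine (Finset.card_filter_le _ _).trans ?_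
    simp
  calc (s.card : ℝ) ≤ ((n * n : ℕ) : ℝ) := by exact_mod_cast hc
    _ = (n : ℝ) ^ 2 := by push_cast; ring

/-- `1 - (1-p)^t ≥ pt - (pt)²/2` -/
private theorem GiaB_pow (p : ℝ) (hp0 : 0 ≤ p) (hp1 : p ≤ 1) (t : ℕ) :
    p * t - (p * t) ^ 2 / 2 ≤ 1 - (1 - p) ^ t := by
  induction t with
  | zero => simp
  | succ t ih =>
    push_cast
    have h1 : 1 - (1 - p) ^ (t + 1) = (1 - (1 - p) ^ t) * (1 - p) + p := by
      rw [pow_succ (1 - p) t]; ring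
    rw [h1]
    have h2 := mul_le_mul_of_nonneg_right ih (show 0 ≤ 1 - p by linarith)
    have h3 : p * (t + 1) - (p * (t + 1)) ^ 2 / 2 ≤
        (p * t - (p * t) ^ 2 / 2) * (1 - p) + p := by
      have ht : (0 : ℝ) ≤ t := Nat.cast_nonneg t
      have : (p * t - (p * t) ^ 2 / 2) * (1 - p) + p - (p * (t + 1) - (p * (t + 1)) ^ 2 / 2) =
          p ^ 2 / 2 + p ^ 3 * t ^ 2 / 2 := by ring
      have h4 : 0 ≤ p ^ 2 / 2 + p ^ 3 * t ^ 2 / 2 := by positivity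
      linarith
    linarith

/-- The gap lemma for `x ≤ 1/4`: `g = x/20`, `M = 6/5 x n`, `p = (1+x)/n`.  For `1 ≤ t ≤ M`:
`1 - (1-p)^t ≥ 1 - exp(-pt) ≥ pt - (pt)²/2`, `pt/2 ≤ 0.6 x (1+x)`,
`(|W|-1) p ≥ (1-x/100)(1+x)`, and
`(1+x)(1-x/100)(1-0.6x(1+x)) - (1+x/20) = x (0.34 - 1.204x - 0.588x² + 0.006x³) ≥ 0`
for `0 ≤ x ≤ 1/4`.  `g²/8 = x²/3200`. -/
theorem giant_gap_small (x : ℝ) (hx0 : 0 < x) (hx1 : x ≤ 1 / 4) (W : Finset V)
    (hW : Fintype.card V * (1 - x / 100) ≤ W.card - 1) (hn : 8 ≤ Fintype.card V)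
    (k : ℕ) (hk : 1 ≤ k) :
    PP (bern ((1 + x) / Fintype.card V)) {ξ | ∃ v ∈ W, k ≤ (cmp (bg ξ) W v).card ∧
      ((cmp (bg ξ) W v).card : ℝ) ≤ 6 / 5 * x * Fintype.card V} ≤
      (Fintype.card V : ℝ) ^ 2 * Real.exp (-(x ^ 2 * k / 4000)) := by
  set n := Fintype.card V with hnn
  have hn' : (8 : ℝ) ≤ n := by exact_mod_cast hn
  have hnpos : (0 : ℝ) < n := by linarith
  have hp0 : 0 ≤ (1 + x) / (n : ℝ) := by positivity
  have hp1 : (1 + x) / (n : ℝ) ≤ 1 := by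
    rw [div_le_one hnpos]; linarith
  have hmain := giant_gap ((1 + x) / n) (x / 20) (6 / 5 * x * n) hp0 hp1 (by linarith)
    (by linarith) W k hk (by
      intro t hkt htM
      set p : ℝ := (1 + x) / n with hp
      have hpn : p * n = 1 + x := by rw [hp]; field_simp
      have ht0 : (0 : ℝ) ≤ t := Nat.cast_nonneg t
      have h1 := GiaB_pow p hp0 hp1 t
      have hpt : p * t ≤ 6 / 5 * x * (1 + x) := by
        calc p * t ≤ p * (6 / 5 * x * n) := mul_le_mul_of_nonneg_left htM hp0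
          _ = 6 / 5 * x * (p * n) := by ring
          _ = _ := by rw [hpn]
      have hw0 : (0 : ℝ) ≤ W.card - 1 := by
        have : 0 ≤ (n : ℝ) * (1 - x / 100) := mul_nonneg hnpos.le (by linarith)
        linarith
      have h2 : p * t * (1 - 3 / 5 * x * (1 + x)) ≤ 1 - (1 - p) ^ t := by
        have hptn : 0 ≤ p * t := mul_nonneg hp0 ht0
        nlinarith
      have h3 : (1 + x) * (1 - x / 100) ≤ (W.card - 1) * p := by
        calc (1 + x) * (1 - x / 100) = (n * (1 - x / 100)) * p := by rw [← hpn]; ring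
          _ ≤ (W.card - 1) * p := mul_le_mul_of_nonneg_right hW hp0
      have h4 : 0 ≤ 1 - 3 / 5 * x * (1 + x) := by nlinarith
      have h5 : (1 + x / 20) ≤ (1 + x) * (1 - x / 100) * (1 - 3 / 5 * x * (1 + x)) := by
        have e : (1 + x) * (1 - x / 100) * (1 - 3 / 5 * x * (1 + x)) - (1 + x / 20) =
          x * (34 / 100 - 1204 / 1000 * x - 588 / 1000 * x ^ 2 + 6 / 1000 * x ^ 3) := by ring
        have h6 : 0 ≤ 34 / 100 - 1204 / 1000 * x - 588 / 1000 * x ^ 2 + 6 / 1000 * x ^ 3 := by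
          have h7 : x ^ 2 ≤ 1 / 16 := by nlinarith
          have h8 : 0 ≤ x ^ 3 := by positivity
          nlinarith
        have h9 := mul_nonneg hx0.le h6
        linarith
      calc (1 + x / 20) * t ≤
            (1 + x) * (1 - x / 100) * (1 - 3 / 5 * x * (1 + x)) * t :=
            mul_le_mul_of_nonneg_right h5 ht0
        _ = (1 + x) * (1 - x / 100) * ((1 - 3 / 5 * x * (1 + x)) * t) := by ring
        _ ≤ ((W.card - 1) * p) * ((1 - 3 / 5 * x * (1 + x)) * t) :=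
            mul_le_mul_of_nonneg_right h3 (mul_nonneg h4 ht0)
        _ = (W.card - 1) * (p * t * (1 - 3 / 5 * x * (1 + x))) := by ring
        _ ≤ (W.card - 1) * (1 - (1 - p) ^ t) := mul_le_mul_of_nonneg_left h2 hw0)
  refine hmain.trans ?_
  apply mul_le_mul_of_nonneg_left _ (by positivity)
  apply Real.exp_le_exp.2
  have hk0 : (0 : ℝ) ≤ k := Nat.cast_nonneg k
  have : 0 ≤ x ^ 2 * (k : ℝ) := by positivity
  nlinarith

open Classical in
/-- Uniqueness: after a component of size at least `s`, the rest is subcritical.  Union bound over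
`u, v ∈ W` (at most `|V|²` pairs): for fixed `u ≠ v`, `D = cmp u` with `|D| ≥ s`, `v ∉ D`
(`cmp_eq_of_mem`), `cmp W v = cmp (W \ D) v` (`cmp_sdiff`), so by `cmp_cond` (`dep_cmp`) the
probability is `≤ E[1(|D| ≥ s) P(|cmp (W \ D) v| ≥ k)] ≤ 2 exp(-h²k/2)` (`subcrit_tail`,
`p |W \ D| ≤ p (|W| - s) ≤ 1 - h`). -/
private theorem GiaB_pair (p h : ℝ) (hp0 : 0 ≤ p) (hp1 : p ≤ 1) (h0 : 0 < h) (h1 : h ≤ 1)
    (W : Finset V) (k s : ℕ) (hs : p * (W.card - s) ≤ 1 - h) (u v : V) (hu : u ∈ W)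
    (hv : v ∈ W) :
    PP (bern p) {ξ | cmp (bg ξ) W u ≠ cmp (bg ξ) W v ∧
      s ≤ (cmp (bg ξ) W u).card ∧ k ≤ (cmp (bg ξ) W v).card} ≤
      2 * Real.exp (-(h ^ 2 * k / 2)) := by
  have hlaw : IsLaw (bern p) := bern_law hp0 hp1
  set F : Finset V → (Sym2 V → Bool) → ℝ := fun D ξ =>
    (fun C : Finset V => if s ≤ D.card ∧ k ≤ C.card then (1 : ℝ) else 0)
      (cmp (bg ξ) (W \ D) v) with hF
  have hdep : ∀ D, DependsOn (F D) (inE (W \ D)) := fun D =>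
    dep_cmp (W \ D) v (fun C : Finset V => if s ≤ D.card ∧ k ≤ C.card then (1 : ℝ) else 0)
  have hle : PP (bern p) {ξ : Sym2 V → Bool |
      cmp (bg ξ) W u ≠ cmp (bg ξ) W v ∧
      s ≤ (cmp (bg ξ) W u).card ∧ k ≤ (cmp (bg ξ) W v).card} ≤
      EE (bern p) (fun ξ => F (cmp (bg ξ) W u) ξ) := by
    rw [PP_eq]
    apply EE_mono hlaw
    intro ξ
    split_ifs with hE
    · obtain ⟨hne, hsu, hkv⟩ := hE
      have hvD : v ∈ W \ cmp (bg ξ) W u := by
        rw [Finset.mem_sdiff]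
        refine ⟨hv, fun hmem => hne ?_⟩
        exact (cmp_eq_of_mem (bg ξ) (bg_symm ξ) W u v hmem).symm
      have hc := cmp_sdiff (bg ξ) (bg_symm ξ) W u v hvD
      simp only [hF]
      rw [hc, if_pos ⟨hsu, hkv⟩]
    · simp only [hF]
      split_ifs <;> norm_num
  refine hle.trans ?_
  rw [cmp_cond hp0 hp1 W u hu F hdep]
  have hB : 0 ≤ 2 * Real.exp (-(h ^ 2 * k / 2)) := by positivity
  have hall : ∀ D : Finset V, D ⊆ W → EE (bern p) (F D) ≤ 2 * Real.exp (-(h ^ 2 * k / 2)) := by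
    intro D hDW
    by_cases hsD : s ≤ D.card
    · have hcard : ((W \ D).card : ℝ) = W.card - D.card := by
        rw [Finset.card_sdiff_of_subset hDW]
        rw [Nat.cast_sub (Finset.card_le_card hDW)]
      have hsub : p * ((W \ D).card : ℝ) ≤ 1 - h := by
        refine le_trans ?_ hs
        apply mul_le_mul_of_nonneg_left _ hp0
        rw [hcard]
        have : (s : ℝ) ≤ D.card := by exact_mod_cast hsD
        linarith
      have ht := subcrit_tail p h hp0 hp1 h0 h1 (W \ D) hsub v (k : ℝ)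
      refine le_trans (le_of_eq ?_) ht
      rw [PP_eq]
      apply EE_congr
      intro ξ
      simp only [hF]
      by_cases hkc : k ≤ (cmp (bg ξ) (W \ D) v).card
      · rw [if_pos ⟨hsD, hkc⟩, if_pos]
        show (k : ℝ) ≤ ((cmp (bg ξ) (W \ D) v).card : ℝ)
        exact_mod_cast hkc
      · rw [if_neg (fun hh => hkc hh.2), if_neg]
        intro hh
        apply hkc
        have hh' : (k : ℝ) ≤ ((cmp (bg ξ) (W \ D) v).card : ℝ) := hh
        exact_mod_cast hh'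
    · have : EE (bern p) (F D) = EE (bern p) (fun _ : Sym2 V → Bool => (0 : ℝ)) := by
        apply EE_congr
        intro ξ
        simp only [hF]
        rw [if_neg (fun hh => hsD hh.1)]
      rw [this, EE_const hlaw]
      exact hB
  calc EE (bern p) (fun ξ => EE (bern p) (F (cmp (bg ξ) W u))) ≤
        EE (bern p) (fun _ : Sym2 V → Bool => 2 * Real.exp (-(h ^ 2 * k / 2))) := by
        apply EE_mono hlaw
        intro ξ
        exact hall _ (cmp_subset _ _ _)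
    _ = _ := EE_const hlaw _

theorem giant_unique (p h : ℝ) (hp0 : 0 ≤ p) (hp1 : p ≤ 1) (h0 : 0 < h) (h1 : h ≤ 1)
    (W : Finset V) (k s : ℕ) (hs : p * (W.card - s) ≤ 1 - h) (hks : k ≤ s) :
    PP (bern p) {ξ | ∃ u ∈ W, ∃ v ∈ W, cmp (bg ξ) W u ≠ cmp (bg ξ) W v ∧
      s ≤ (cmp (bg ξ) W u).card ∧ k ≤ (cmp (bg ξ) W v).card} ≤
      2 * (Fintype.card V : ℝ) ^ 2 * Real.exp (-(h ^ 2 * k / 2)) := by
  classical
  have hlaw : IsLaw (bern p) := bern_law hp0 hp1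
  have hsub : {ξ : Sym2 V → Bool | ∃ u ∈ W, ∃ v ∈ W, cmp (bg ξ) W u ≠ cmp (bg ξ) W v ∧
      s ≤ (cmp (bg ξ) W u).card ∧ k ≤ (cmp (bg ξ) W v).card} ⊆
      {ξ | ∃ j ∈ W ×ˢ W, ξ ∈ (fun j : V × V => {ξ : Sym2 V → Bool |
        cmp (bg ξ) W j.1 ≠ cmp (bg ξ) W j.2 ∧
        s ≤ (cmp (bg ξ) W j.1).card ∧ k ≤ (cmp (bg ξ) W j.2).card}) j} := by
    rintro ξ ⟨u, hu, v, hv, hE⟩
    exact ⟨(u, v), Finset.mem_product.2 ⟨hu, hv⟩, hE⟩
  refine (PP_mono hlaw hsub).trans ((PP_exists hlaw (W ×ˢ W) _).trans ?_)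
  have hterm : ∀ j ∈ W ×ˢ W, PP (bern p) ((fun j : V × V => {ξ : Sym2 V → Bool |
      cmp (bg ξ) W j.1 ≠ cmp (bg ξ) W j.2 ∧
      s ≤ (cmp (bg ξ) W j.1).card ∧ k ≤ (cmp (bg ξ) W j.2).card}) j) ≤
      2 * Real.exp (-(h ^ 2 * k / 2)) := by
    rintro ⟨u, v⟩ hj
    rw [Finset.mem_product] at hj
    exact GiaB_pair p h hp0 hp1 h0 h1 W k s hs u v hj.1 hj.2
  refine (Finset.sum_le_card_nsmul _ _ _ hterm).trans ?_
  rw [nsmul_eq_mul]
  have hc : (((W ×ˢ W).card : ℕ) : ℝ) ≤ (Fintype.card V : ℝ) ^ 2 := by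
    rw [Finset.card_product]
    have : (W.card : ℝ) ≤ Fintype.card V := by exact_mod_cast Finset.card_le_univ W
    push_cast
    have h0' : (0 : ℝ) ≤ W.card := Nat.cast_nonneg _
    nlinarith
  calc (((W ×ˢ W).card : ℕ) : ℝ) * (2 * Real.exp (-(h ^ 2 * k / 2))) ≤
        (Fintype.card V : ℝ) ^ 2 * (2 * Real.exp (-(h ^ 2 * k / 2))) :=
        mul_le_mul_of_nonneg_right hc (by positivity)
    _ = _ := by ring

end RST.G
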