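import Pool.Agent.Lib.MP_7946c7_pr.G.BasA

/-!
# Stream G, job IndB: marginals, two rounds exposure

Induction on the set of coordinates (`Fintype.induction_empty_option`, `EE_equiv`, `EE_option`) or
direct fibre sums: `∑ b with (b e ∈ A) prescribed, ∏ q (b e) = ∏ (∑ x with x ∈ A prescribed, q x)`.
-/

set_option autoImplicit false

open Finset

namespace RST.G

variable {ι B : Type} [Fintype ι] [DecidableEq ι] [Fintype B] [DecidableEq B]

/-- push forward of the product law by a coordinatewise map -/
private theorem IndB_map {C : Type} [Fintype C] [DecidableEq C] {q : B → ℝ} (f : B → C)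
    (q' : C → ℝ) (hq' : ∀ y, ∑ x, (if f x = y then q x else 0) = q' y)
    (F : (ι → C) → ℝ) : EE q (fun b => F (fun e => f (b e))) = EE q' F := by
  classical
  rw [BasA_def, BasA_def]
  have h1 : ∀ b : ι → B, (∏ e, q (b e)) * F (fun e => f (b e)) =
      ∑ c : ι → C, (∏ e, q (b e)) * ((∏ e, if f (b e) = c e then (1 : ℝ) else 0) * F c) := by
    intro b
    rw [Finset.sum_eq_single (fun e => f (b e))]
    · simp
    · intro c _ hc
      have : ∃ e, f (b e) ≠ c e := by
        by_contra hno
        push Not at hno
        exact hc (funext fun e => (hno e).symm)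
      obtain ⟨e, he⟩ := this
      have h0 : (∏ e, if f (b e) = c e then (1 : ℝ) else 0) = 0 :=
        Finset.prod_eq_zero (Finset.mem_univ e) (if_neg he)
      rw [h0]
      ring
    · intro h
      exact absurd (Finset.mem_univ _) h
  rw [Finset.sum_congr rfl fun b _ => h1 b, Finset.sum_comm]
  refine Finset.sum_congr rfl fun c _ => ?_
  have h2 := EE_prod (ι := ι) (q := q) (fun e x => if f x = c e then (1 : ℝ) else 0)
  rw [BasA_def] at h2
  have h3 : (∏ e, ∑ x, q x * (if f x = c e then (1 : ℝ) else 0)) = ∏ e, q' (c e) := by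
    refine Finset.prod_congr rfl fun e _ => ?_
    rw [← hq' (c e)]
    exact Finset.sum_congr rfl fun x _ => by split_ifs <;> simp
  rw [h3] at h2
  rw [← h2, Finset.sum_mul]
  exact Finset.sum_congr rfl fun b _ => by ring

/-- two independent families as one family of pairs -/
private theorem IndB_pair {C D : Type} [Fintype C] [Fintype D] (q1 : C → ℝ) (q2 : D → ℝ)
    (H : (ι → C) → (ι → D) → ℝ) :
    EE q1 (fun ξ => EE q2 fun ζ => H ξ ζ) =
      EE (fun p : C × D => q1 p.1 * q2 p.2)
        (fun b : ι → C × D => H (fun e => (b e).1) (fun e => (b e).2)) := by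
  classical
  simp only [BasA_def]
  have h1 : ∀ ξ : ι → C, (∏ e, q1 (ξ e)) * ∑ ζ : ι → D, (∏ e, q2 (ζ e)) * H ξ ζ =
      ∑ ζ : ι → D, (∏ e, q1 (ξ e)) * ((∏ e, q2 (ζ e)) * H ξ ζ) := fun ξ => by
    rw [Finset.mul_sum]
  rw [Finset.sum_congr rfl fun ξ _ => h1 ξ, ← Finset.sum_product']
  refine Finset.sum_bij' (fun p _ => fun e => (p.1 e, p.2 e))
    (fun b _ => (fun e => (b e).1, fun e => (b e).2)) ?_ ?_ ?_ ?_ ?_
  · intro p _
    exact Finset.mem_univ _
  · intro b _
    exact Finset.mem_product.2 ⟨Finset.mem_univ _, Finset.mem_univ _⟩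
  · intro p _
    rfl
  · intro b _
    rfl
  · intro p _
    simp only [Finset.prod_mul_distrib]
    ring

private theorem IndB_sum (q : B → ℝ) (P : B → Prop) [DecidablePred P] (A : Finset B)
    (h : ∀ x, x ∈ A ↔ P x) : ∑ x, (if P x then q x else 0) = qs q A := by
  unfold qs
  rw [← Finset.sum_filter]
  refine Finset.sum_congr ?_ fun x _ => rfl
  ext x
  simp [h]

/-- Marginal of one set of bins. -/
theorem marginal {q : B → ℝ} (hq : IsLaw q) (A : Finset B) (F : (ι → Bool) → ℝ) :
    EE q (fun b => F (fun e => decide (b e ∈ A))) = EE (bern (qs q A)) F := by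
  refine IndB_map (fun x => decide (x ∈ A)) _ ?_ F
  intro y
  cases y
  · have h1 : ∑ x, (if decide (x ∈ A) = false then q x else 0) =
        ∑ x, (q x - (if x ∈ A then q x else 0)) := by
      refine Finset.sum_congr rfl fun x _ => ?_
      by_cases hx : x ∈ A <;> simp [hx]
    rw [h1, Finset.sum_sub_distrib, hq.sum_one, IndB_sum q (fun x => x ∈ A) A (fun _ => Iff.rfl)]
    simp [bern]
  · have h1 : ∑ x, (if decide (x ∈ A) = true then q x else 0) =
        ∑ x, (if x ∈ A then q x else 0) := by
      refine Finset.sum_congr rfl fun x _ => ?_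
      by_cases hx : x ∈ A <;> simp [hx]
    rw [h1, IndB_sum q (fun x => x ∈ A) A (fun _ => Iff.rfl)]
    simp [bern]

/-- Two rounds exposure: the pair (edges with bin in `A`, edges with bin in `A'`), `A ⊆ A'`.
One coordinate: the pair `(b ∈ A, b ∈ A')` takes the values (true,true), (false,true),
(false,false) with the probabilities `q(A)`, `q(A') - q(A)`, `1 - q(A')`; the pair
`(ξ, ξ || ζ)` has the same law: `q(A)`, `(1-q(A)) * (q(A')-q(A))/(1-q(A))`, the rest. -/
theorem two_rounds {q : B → ℝ} (hq : IsLaw q) (A A' : Finset B) (hA : A ⊆ A') (h1 : qs q A < 1)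
    (F : (ι → Bool) → (ι → Bool) → ℝ) :
    EE q (fun b => F (fun e => decide (b e ∈ A)) (fun e => decide (b e ∈ A'))) =
      EE (bern (qs q A)) fun ξ : ι → Bool =>
        EE (bern ((qs q A' - qs q A) / (1 - qs q A))) fun ζ : ι → Bool =>
          F ξ (fun e => ξ e || ζ e) := by
  have hne : (1 - qs q A) ≠ 0 := by linarith
  have hA1 := IndB_sum q (fun x => x ∈ A) A (fun _ => Iff.rfl)
  have hA2 := IndB_sum q (fun x => x ∈ A') A' (fun _ => Iff.rfl)
  rw [IndB_pair]
  -- the law of the pair
  let q' : Bool × Bool → ℝ := fun p =>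
    match p with
    | (true, true) => qs q A
    | (true, false) => 0
    | (false, true) => qs q A' - qs q A
    | (false, false) => 1 - qs q A'
  let G : (ι → Bool × Bool) → ℝ := fun b => F (fun e => (b e).1) (fun e => (b e).2)
  have hL := IndB_map (ι := ι) (q := q) (fun x => (decide (x ∈ A), decide (x ∈ A'))) q' ?_ G
  · have hR := IndB_map (ι := ι)
      (q := fun p : Bool × Bool => bern (qs q A) p.1 *
        bern ((qs q A' - qs q A) / (1 - qs q A)) p.2)
      (fun p => (p.1, p.1 || p.2)) q' ?_ G
    · exact hL.trans hR.symm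
    · rintro ⟨y1, y2⟩
      rw [Fintype.sum_prod_type]
      cases y1 <;> cases y2 <;> simp [q', bern]
      · field_simp
        ring
      · field_simp
      · ring
  · rintro ⟨y1, y2⟩
    cases y1 <;> cases y2
    · have h2 : ∑ x, (if (decide (x ∈ A), decide (x ∈ A')) = (false, false) then q x else 0) =
          ∑ x, (q x - (if x ∈ A' then q x else 0)) := by
        refine Finset.sum_congr rfl fun x _ => ?_
        by_cases hx : x ∈ A'
        · simp [hx]
        · have hx' : x ∉ A := fun h => hx (hA h)
          simp [hx, hx']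
      rw [h2, Finset.sum_sub_distrib, hq.sum_one, hA2]
    · have h2 : ∑ x, (if (decide (x ∈ A), decide (x ∈ A')) = (false, true) then q x else 0) =
          ∑ x, ((if x ∈ A' then q x else 0) - (if x ∈ A then q x else 0)) := by
        refine Finset.sum_congr rfl fun x _ => ?_
        by_cases hx : x ∈ A'
        · by_cases hx' : x ∈ A <;> simp [hx, hx']
        · have hx' : x ∉ A := fun h => hx (hA h)
          simp [hx, hx']
      rw [h2, Finset.sum_sub_distrib, hA1, hA2]
    · have h2 : ∑ x, (if (decide (x ∈ A), decide (x ∈ A')) = (true, false) then q x else 0) =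
          ∑ x : B, (0 : ℝ) := by
        refine Finset.sum_congr rfl fun x _ => ?_
        by_cases hx : x ∈ A'
        · simp [hx]
        · have hx' : x ∉ A := fun h => hx (hA h)
          simp [hx']
      rw [h2]
      simp [q']
    · have h2 : ∑ x, (if (decide (x ∈ A), decide (x ∈ A')) = (true, true) then q x else 0) =
          ∑ x, (if x ∈ A then q x else 0) := by
        refine Finset.sum_congr rfl fun x _ => ?_
        by_cases hx : x ∈ A
        · simp [hx, hA hx]
        · simp [hx]
      rw [h2, hA1]

end RST.G
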