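import Pool.Agent.Lib.MP_7946c7_pr.G.BasB
import Pool.Agent.Lib.MP_7946c7_pr.G.ExpB
import Pool.Agent.Lib.MP_7946c7_pr.G.LapA

/-!
# Stream G, job SubA: tail of a component at criticality
-/

set_option autoImplicit false

open Finset

namespace RST.G

variable {V : Type} [Fintype V] [DecidableEq V]

private lemma SubA_low (u : ℝ) (hu0 : 0 ≤ u) (hu1 : u ≤ 1 / 2) :
    Real.exp (-(u + u ^ 2)) ≤ 1 - u := by
  have h1 := Real.quadratic_le_exp_of_nonneg (x := u + u ^ 2) (by positivity)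
  have h2 : 1 ≤ (1 - u) * (1 + (u + u ^ 2) + (u + u ^ 2) ^ 2 / 2) := by
    have e : (1 - u) * (1 + (u + u ^ 2) + (u + u ^ 2) ^ 2 / 2) =
      1 + u ^ 2 / 2 * (1 - u - u ^ 2 - u ^ 3) := by ring
    rw [e]
    have h3 : 0 ≤ 1 - u - u ^ 2 - u ^ 3 := by
      have a1 : u ^ 2 ≤ 1 / 4 := by nlinarith
      have a2 : u ^ 3 ≤ 1 / 8 := by
        calc u ^ 3 = u ^ 2 * u := by ring
          _ ≤ 1 / 4 * (1 / 2) := mul_le_mul a1 hu1 hu0 (by norm_num)
          _ = 1 / 8 := by norm_num
      linarith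
    have : 0 ≤ u ^ 2 / 2 * (1 - u - u ^ 2 - u ^ 3) := by positivity
    linarith
  rw [Real.exp_neg]
  rw [inv_le_iff_one_le_mul₀ (Real.exp_pos _)]
  calc (1 : ℝ) ≤ (1 - u) * (1 + (u + u ^ 2) + (u + u ^ 2) ^ 2 / 2) := h2
    _ ≤ (1 - u) * Real.exp (u + u ^ 2) := mul_le_mul_of_nonneg_left h1 (by linarith)

private lemma SubA_up (d : ℝ) (hd0 : 0 ≤ d) (hd1 : d ≤ 1 / 2) :
    1 - d ≤ Real.exp (-(d + d ^ 2 / 2)) := by
  have hs := Real.hasSum_pow_div_log_of_abs_lt_one (x := d) (by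
    rw [abs_of_nonneg hd0]; linarith)
  have h1 := sum_le_hasSum (Finset.range 2) (fun i _ => by positivity) hs
  simp [Finset.sum_range_succ] at h1
  have h2 : Real.log (1 - d) ≤ -(d + d ^ 2 / 2) := by
    have : d + d ^ 2 / 2 ≤ -Real.log (1 - d) := by
      have e : d + d ^ 2 / 2 = d + d ^ 2 / (1 + 1) := by norm_num
      rw [e]; exact h1
    linarith
  calc 1 - d = Real.exp (Real.log (1 - d)) := (Real.exp_log (by linarith)).symm
    _ ≤ _ := Real.exp_le_exp.mpr h2

/-- Tail at criticality (from G3).  If `v ∉ W` the component is empty (`cmp_of_not_mem`).  If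
`k < 16` the bound is `≥ 1` (`PP_le_one`).  Let `k ≥ 16`, `C = expl {v} (W.erase v)`
(`cmp_eq_expl`), `z = exp(-1/k)`, `d = 2/√k ≤ 1/2`, `y = 1 - d`.  Condition of `laplace_lower`:
`log y ≤ -d - d²/2 = -d - 2/k` and `|W.erase v| log(1 - p d) ≥ -|W| (p d + (p d)²) ≥ -d - p d² ≥ -d - 1/k`
(`log(1-u) ≥ -u-u²` for `0 ≤ u ≤ 1/2`, `p |W| ≤ 1`, `p ≤ 1/4`, `d² = 4/k`).  So
`E z^|C| ≥ 1 - d`, and `(1 - e⁻¹) P(|C| ≥ k) ≤ E(1 - z^|C|) ≤ d = 2/√k`, `2/(1 - e⁻¹) ≤ 4`. -/
theorem tail_crit (p : ℝ) (hp0 : 0 ≤ p) (hp1 : p ≤ 1 / 4) (W : Finset V) (hW : p * W.card ≤ 1)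
    (v : V) (k : ℕ) (hk : 1 ≤ k) :
    PP (bern p) {ξ | k ≤ (cmp (bg ξ) W v).card} ≤ 4 / Real.sqrt k := by
  classical
  have hq : IsLaw (bern p) := bern_law hp0 (by linarith)
  have hkpos : (0 : ℝ) < k := by exact_mod_cast hk
  have hsk : 0 < Real.sqrt k := Real.sqrt_pos.mpr hkpos
  by_cases hv : v ∈ W
  swap
  · have : {ξ : Sym2 V → Bool | k ≤ (cmp (bg ξ) W v).card} = ∅ := by
      ext ξ
      simp only [Set.mem_setOf_eq, Set.mem_empty_iff_false, iff_false, not_le]
      rw [cmp_of_not_mem _ _ _ hv]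
      simp only [Finset.card_empty]
      omega
    rw [this, PP_empty]
    positivity
  by_cases hk16 : k < 16
  · refine le_trans (PP_le_one hq _) ?_
    rw [le_div_iff₀ hsk, one_mul]
    have h4 : Real.sqrt 16 = 4 := by
      rw [show (16 : ℝ) = 4 ^ 2 by norm_num]
      exact Real.sqrt_sq (by norm_num)
    calc Real.sqrt k ≤ Real.sqrt 16 := Real.sqrt_le_sqrt (by exact_mod_cast hk16.le)
      _ = 4 := h4
  · push Not at hk16
    have hsq : Real.sqrt k ^ 2 = k := Real.sq_sqrt hkpos.le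
    have hs4 : 4 ≤ Real.sqrt k := by
      apply Real.le_sqrt_of_sq_le
      have : (16 : ℝ) ≤ k := by exact_mod_cast hk16
      linarith
    set d : ℝ := 2 / Real.sqrt k with hd
    have hd0 : 0 < d := by positivity
    have hd1 : d ≤ 1 / 2 := by
      rw [hd, div_le_iff₀ hsk]; linarith
    have hd2 : d ^ 2 = 4 / k := by
      rw [hd, div_pow, hsq]; norm_num
    have hcond : 1 - d ≤ Real.exp (-(1 / k : ℝ)) * (1 - p + p * (1 - d)) ^ (W.erase v).card := by
      have hu := SubA_low (p * d) (by positivity) (by nlinarith)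
      have hpow : Real.exp (-(d + 1 / k)) ≤ (1 - p + p * (1 - d)) ^ (W.erase v).card := by
        calc Real.exp (-(d + 1 / k)) ≤
            Real.exp (((W.erase v).card : ℝ) * (-(p * d + (p * d) ^ 2))) := by
              apply Real.exp_le_exp.mpr
              have hc : ((W.erase v).card : ℝ) ≤ W.card := by
                exact_mod_cast Finset.card_le_card (Finset.erase_subset _ _)
              have hc2 : p * ((W.erase v).card : ℝ) ≤ 1 :=
                le_trans (mul_le_mul_of_nonneg_left hc hp0) hW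
              have hpc0 : 0 ≤ p * ((W.erase v).card : ℝ) := by positivity
              have e1 : ((W.erase v).card : ℝ) * (-(p * d + (p * d) ^ 2)) =
                  -(p * ((W.erase v).card : ℝ) * (d + p * d ^ 2)) := by ring
              rw [e1]
              have e2 : d + p * d ^ 2 ≤ d + 1 / k := by
                have : p * d ^ 2 ≤ 1 / 4 * d ^ 2 :=
                  mul_le_mul_of_nonneg_right hp1 (by positivity)
                rw [hd2] at this ⊢
                have e3 : (1 / 4 : ℝ) * (4 / k) = 1 / k := by field_simp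
                linarith
              have e4 : p * ((W.erase v).card : ℝ) * (d + p * d ^ 2) ≤ 1 * (d + p * d ^ 2) :=
                mul_le_mul_of_nonneg_right hc2 (by positivity)
              linarith
          _ = Real.exp (-(p * d + (p * d) ^ 2)) ^ (W.erase v).card := by
              rw [Real.exp_nat_mul]
          _ ≤ (1 - p * d) ^ (W.erase v).card :=
              pow_le_pow_left₀ (Real.exp_pos _).le hu _
          _ = (1 - p + p * (1 - d)) ^ (W.erase v).card := by
              congr 1; ring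
      calc 1 - d ≤ Real.exp (-(d + d ^ 2 / 2)) := SubA_up d hd0.le hd1
        _ = Real.exp (-(1 / k : ℝ)) * Real.exp (-(d + 1 / k)) := by
            rw [← Real.exp_add, hd2]
            congr 1
            ring
        _ ≤ _ := mul_le_mul_of_nonneg_left hpow (Real.exp_pos _).le
    have hlow := laplace_lower p (Real.exp (-(1 / k : ℝ))) (1 - d) hp0 (by linarith)
      (Real.exp_pos _) (by
        rw [Real.exp_le_one_iff]
        have : (0 : ℝ) ≤ 1 / k := by positivity
        linarith) (by linarith) (by linarith) {v} (W.erase v) (by simp) hcond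
    rw [card_singleton, pow_one] at hlow
    have hlow2 : 1 - d ≤ EE (bern p) fun ξ : Sym2 V → Bool =>
        Real.exp (-(1 / k : ℝ)) ^ (cmp (bg ξ) W v).card := by
      refine le_trans hlow (le_of_eq ?_)
      apply EE_congr
      intro ξ
      rw [cmp_eq_expl _ _ _ hv]
    have hkey : (1 - Real.exp (-1)) * PP (bern p) {ξ : Sym2 V → Bool | k ≤ (cmp (bg ξ) W v).card} ≤
        EE (bern p) (fun ξ : Sym2 V → Bool =>
          1 - Real.exp (-(1 / k : ℝ)) ^ (cmp (bg ξ) W v).card) := by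
      rw [PP_eq, ← EE_mul_left]
      apply EE_mono hq
      intro ξ
      by_cases hc : k ≤ (cmp (bg ξ) W v).card
      · have hm : ξ ∈ {ξ : Sym2 V → Bool | k ≤ (cmp (bg ξ) W v).card} := hc
        rw [if_pos hm, mul_one, ← Real.exp_nat_mul]
        have : Real.exp (((cmp (bg ξ) W v).card : ℝ) * (-(1 / k : ℝ))) ≤ Real.exp (-1) := by
          apply Real.exp_le_exp.mpr
          have hc' : (k : ℝ) ≤ ((cmp (bg ξ) W v).card : ℝ) := by exact_mod_cast hc
          have : 1 ≤ ((cmp (bg ξ) W v).card : ℝ) * (1 / k : ℝ) := by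
            rw [mul_one_div, le_div_iff₀ hkpos, one_mul]; exact hc'
          linarith
        linarith
      · have hm : ξ ∉ {ξ : Sym2 V → Bool | k ≤ (cmp (bg ξ) W v).card} := hc
        rw [if_neg hm, mul_zero]
        have h1 : Real.exp (-(1 / k : ℝ)) ^ (cmp (bg ξ) W v).card ≤ 1 := by
          apply pow_le_one₀ (Real.exp_pos _).le
          rw [Real.exp_le_one_iff]
          have : (0 : ℝ) ≤ 1 / k := by positivity
          linarith
        linarith
    rw [EE_sub, EE_const hq] at hkey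
    have he : Real.exp (-1) ≤ 1 / 2 := by
      rw [Real.exp_neg]
      have := Real.add_one_le_exp (1 : ℝ)
      rw [inv_le_comm₀ (Real.exp_pos _) (by norm_num)]
      norm_num at this ⊢
      linarith
    have hP0 := PP_nonneg hq {ξ : Sym2 V → Bool | k ≤ (cmp (bg ξ) W v).card}
    have h2 : 1 / 2 * PP (bern p) {ξ : Sym2 V → Bool | k ≤ (cmp (bg ξ) W v).card} ≤ d := by
      have : 1 / 2 * PP (bern p) {ξ : Sym2 V → Bool | k ≤ (cmp (bg ξ) W v).card} ≤
        (1 - Real.exp (-1)) * PP (bern p) {ξ : Sym2 V → Bool | k ≤ (cmp (bg ξ) W v).card} :=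
        mul_le_mul_of_nonneg_right (by linarith) hP0
      linarith
    have h3 : (4 : ℝ) / Real.sqrt k = 2 * d := by rw [hd]; ring
    rw [h3]
    linarith

private lemma SubA_sum (n : ℕ) :
    ∑ j ∈ Finset.range n, 4 / Real.sqrt ((j + 1 : ℕ) : ℝ) ≤ 8 * Real.sqrt n := by
  induction n with
  | zero => simp
  | succ n ih =>
    rw [Finset.sum_range_succ]
    have hn1 : (0 : ℝ) < ((n + 1 : ℕ) : ℝ) := by positivity
    have hs : 0 < Real.sqrt ((n + 1 : ℕ) : ℝ) := Real.sqrt_pos.mpr hn1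
    have hn0 : 0 ≤ Real.sqrt (n : ℝ) := Real.sqrt_nonneg _
    have a1 : Real.sqrt ((n + 1 : ℕ) : ℝ) ^ 2 = n + 1 := by
      rw [Real.sq_sqrt hn1.le]; push_cast; ring
    have a2 : Real.sqrt (n : ℝ) ^ 2 = n := Real.sq_sqrt (Nat.cast_nonneg _)
    have key : 4 / Real.sqrt ((n + 1 : ℕ) : ℝ) ≤
        8 * Real.sqrt ((n + 1 : ℕ) : ℝ) - 8 * Real.sqrt (n : ℝ) := by
      rw [div_le_iff₀ hs]
      nlinarith [sq_nonneg (Real.sqrt ((n + 1 : ℕ) : ℝ) - Real.sqrt (n : ℝ))]
    linarith

/-- `E[|C|; |C| < k] ≤ ∑_{j=1}^{k-1} P(|C| ≥ j) ≤ 4 ∑_{j=1}^{k-1} 1/√j ≤ 8 √(k-1)` for the component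
`C` of `v` (`EE_layer` for the variable `|C| 1(|C| < k)`). -/
theorem mean_small (p : ℝ) (hp0 : 0 ≤ p) (hp1 : p ≤ 1 / 4) (W : Finset V) (hW : p * W.card ≤ 1)
    (v : V) (k : ℕ) (hk : 1 ≤ k) :
    EE (bern p) (fun ξ => if (cmp (bg ξ) W v).card < k then ((cmp (bg ξ) W v).card : ℝ) else 0) ≤
      8 * Real.sqrt (k - 1) := by
  classical
  have hq : IsLaw (bern p) := bern_law hp0 (by linarith)
  have hl := EE_layer (q := bern p)
    (fun ξ : Sym2 V → Bool => if (cmp (bg ξ) W v).card < k then (cmp (bg ξ) W v).card else 0)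
    (k - 1) (by
      intro ξ
      split_ifs with h
      · omega
      · omega)
  have he : EE (bern p) (fun ξ : Sym2 V → Bool =>
      if (cmp (bg ξ) W v).card < k then ((cmp (bg ξ) W v).card : ℝ) else 0) =
      EE (bern p) (fun ξ : Sym2 V → Bool =>
        ((if (cmp (bg ξ) W v).card < k then (cmp (bg ξ) W v).card else 0 : ℕ) : ℝ)) := by
    apply EE_congr
    intro ξ
    split_ifs <;> simp
  rw [he, hl]
  have hk1 : ((k - 1 : ℕ) : ℝ) = (k : ℝ) - 1 := by
    rw [Nat.cast_sub hk]; simp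
  rw [← hk1]
  refine le_trans (Finset.sum_le_sum ?_) (SubA_sum (k - 1))
  intro j _
  refine le_trans (PP_mono hq ?_) (tail_crit p hp0 hp1 W hW v (j + 1) (by omega))
  intro ξ hξ
  simp only [Set.mem_setOf_eq] at hξ ⊢
  split_ifs at hξ with h
  · exact hξ
  · omega

end RST.G
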