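import Pool.Agent.Lib.MP_7946c7_pr.G.LapB
import Pool.Agent.Lib.MP_7946c7_pr.G.SubA

/-!
# Stream G, job MacA: macroscopic components, step (i)
-/

set_option autoImplicit false

open Finset

namespace RST.G

/-- Numerical condition of the budget lemma: `z = exp(-1.66 h²)`, `y = 1 - h/2`, `p = (1-h)/n`,
`N ≥ n (1 - h/20 - 2h)`: `(1-p+py)^N = (1 - p h/2)^N ≤ exp(-(h/2)(1-h)(1-2.05h)) ≤
exp(-h/2 + 1.525 h²)`, times `z` is `≤ exp(-h/2 - 0.135 h²) ≤ 1 - h/2`
(`log(1-u) ≥ -u - u²/2 - u³/2` for `u = h/2 ≤ 1/200`: `-h/2 - h²/8 - h³/16`). -/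
theorem mac_num (n h : ℝ) (N : ℕ) (hn : 1 ≤ n) (h0 : 0 < h) (h1 : h ≤ 1 / 100)
    (hN : n * (1 - h / 20 - 2 * h) ≤ N) :
    Real.exp (-(1.66 * h ^ 2)) * (1 - (1 - h) / n + (1 - h) / n * (1 - h / 2)) ^ N ≤ 1 - h / 2 := by
  have hn0 : 0 < n := by linarith
  have e1 : 1 - (1 - h) / n + (1 - h) / n * (1 - h / 2) = 1 - (1 - h) * (h / 2) / n := by ring
  have hx1 : (1 - h) * (h / 2) / n ≤ 1 := by
    rw [div_le_one hn0]
    nlinarith
  have hx0 : 0 ≤ 1 - (1 - h) * (h / 2) / n := by linarith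
  have hx2 : 1 - (1 - h) * (h / 2) / n ≤ Real.exp (-((1 - h) * (h / 2) / n)) := by
    have := Real.add_one_le_exp (-((1 - h) * (h / 2) / n))
    linarith
  have hx3 : (1 - (1 - h) * (h / 2) / n) ^ N ≤ Real.exp (-(h / 2) + 1.525 * h ^ 2) := by
    calc (1 - (1 - h) * (h / 2) / n) ^ N ≤ Real.exp (-((1 - h) * (h / 2) / n)) ^ N :=
          pow_le_pow_left₀ hx0 hx2 N
      _ = Real.exp (N * (-((1 - h) * (h / 2) / n))) := (Real.exp_nat_mul _ N).symm
      _ ≤ Real.exp (-(h / 2) + 1.525 * h ^ 2) := by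
          apply Real.exp_le_exp.2
          have h2 : (1 - h / 20 - 2 * h) ≤ N / n := by
            rw [le_div_iff₀ hn0]
            linarith
          have h3 : (N : ℝ) * (-((1 - h) * (h / 2) / n)) = -((1 - h) * (h / 2) * (N / n)) := by
            ring
          rw [h3]
          have h4 : 0 ≤ (1 - h) * (h / 2) := by
            apply mul_nonneg <;> linarith
          have h5 := mul_le_mul_of_nonneg_left h2 h4
          nlinarith [h5, pow_pos h0 3]
  have hy : Real.exp (-(h / 2) - 0.135 * h ^ 2) ≤ 1 - h / 2 := by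
    set u := h / 2 with hu
    have hu0 : 0 < u := by rw [hu]; linarith
    have hu1 : u ≤ 1 / 200 := by rw [hu]; linarith
    have e2 : -(h / 2) - 0.135 * h ^ 2 = -(u + 0.54 * u ^ 2) := by rw [hu]; ring
    rw [e2, Real.exp_neg]
    have h2 : 0 ≤ u + 0.54 * u ^ 2 := by positivity
    have h3 := Real.quadratic_le_exp_of_nonneg h2
    have h4 : 0 < 1 - u := by linarith
    have h5 : 1 ≤ (1 - u) * Real.exp (u + 0.54 * u ^ 2) := by
      have h6 := mul_le_mul_of_nonneg_left h3 h4.le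
      refine le_trans ?_ h6
      have h9 : 0 ≤ 0.04 - 0.5 * u - 0.54 * u ^ 2 - 0.2 * u ^ 3 := by nlinarith
      nlinarith [mul_nonneg (sq_nonneg u) h9, pow_pos hu0 4, pow_pos hu0 5]
    rw [inv_le_comm₀ (Real.exp_pos _) h4]
    rw [inv_le_iff_one_le_mul₀ h4]
    linarith
  rw [e1]
  calc Real.exp (-(1.66 * h ^ 2)) * (1 - (1 - h) * (h / 2) / n) ^ N
      ≤ Real.exp (-(1.66 * h ^ 2)) * Real.exp (-(h / 2) + 1.525 * h ^ 2) :=
        mul_le_mul_of_nonneg_left hx3 (Real.exp_pos _).le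
    _ = Real.exp (-(h / 2) - 0.135 * h ^ 2) := by
        rw [← Real.exp_add]
        congr 1
        ring
    _ ≤ 1 - h / 2 := hy

private theorem MacA_det {V : Type} [Fintype V] [DecidableEq V] (ξ : Sym2 V → Bool)
    (Q W : Finset V) (hQ : Q ⊆ W) (k : ℕ) :
    ((expl (bg ξ) Q (W \ Q)).card : ℝ) ≤
      (∑ v ∈ W, if k ≤ (cmp (bg ξ) W v).card then (1 : ℝ) else 0) +
        ∑ q ∈ Q, if (cmp (bg ξ) W q).card < k then ((cmp (bg ξ) W q).card : ℝ) else 0 := by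
  classical
  have h1 : expl (bg ξ) Q (W \ Q) ⊆ (W.filter fun v => k ≤ (cmp (bg ξ) W v).card) ∪
      (Q.filter fun q => (cmp (bg ξ) W q).card < k).biUnion fun q => cmp (bg ξ) W q := by
    intro w hw
    obtain ⟨q, hq, hwq⟩ := expl_sub_cmp (bg ξ) Q W hQ w hw
    have h2 := cmp_eq_of_mem (bg ξ) (bg_symm ξ) W q w hwq
    have h3 : w ∈ W := cmp_subset _ _ _ hwq
    rw [mem_union]
    by_cases h4 : k ≤ (cmp (bg ξ) W w).card
    · left
      rw [mem_filter]
      exact ⟨h3, h4⟩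
    · right
      rw [mem_biUnion]
      refine ⟨q, ?_, hwq⟩
      rw [mem_filter, ← h2]
      exact ⟨hq, not_le.1 h4⟩
  have h2 := (card_le_card h1).trans (card_union_le _ _)
  have h3 := h2.trans (Nat.add_le_add_left card_biUnion_le _)
  have h4 : (((W.filter fun v => k ≤ (cmp (bg ξ) W v).card).card : ℕ) : ℝ) =
      ∑ v ∈ W, if k ≤ (cmp (bg ξ) W v).card then (1 : ℝ) else 0 := by
    rw [card_filter]
    push_cast
    rfl
  have h5 : ((∑ q ∈ Q.filter fun q => (cmp (bg ξ) W q).card < k, (cmp (bg ξ) W q).card : ℕ) : ℝ) =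
      ∑ q ∈ Q, if (cmp (bg ξ) W q).card < k then ((cmp (bg ξ) W q).card : ℝ) else 0 := by
    rw [sum_filter]
    push_cast
    rfl
  rw [← h4, ← h5]
  exact_mod_cast h3

/-- Step (i) of G10: some vertex of `W` is in a component of size at least `k = kh h` with
probability at least `1.2 h`.
Proof.  `n = |V|`, `Q ⊆ W` with `|Q| = ⌈7 h² n⌉`, `t = ⌊2hn⌋`.  `budget_prob` for `Q`, `W \ Q`,
`N = |W| - t`, `mac_num`: `P(|C(Q)| ≤ t) ≤ y^|Q| z^(-t) ≤ exp(-(h/2) 7 h² n + 1.66 h² 2 h n) =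
exp(-0.18 h³ n)`.  So `E|C(Q)| ≥ (t+1)(1 - exp(-0.18 h³n)) ≥ 1.9 h n` for `h³ n ≥ C₀`.
`C(Q) = expl (bg ξ) Q (W \ Q)`: a vertex of `C(Q)` is in the component (in `W`) of some `q ∈ Q`
(`expl_sub_cmp`, `cmp_eq_of_mem`), so the number of `v ∈ C(Q)` with `|cmp v| < k` is at most
`∑_{q ∈ Q} |cmp q| 1(|cmp q| < k)`, of expectation `≤ |Q| 8 √(k-1) ≤ (7h²n+1) 0.08/h ≤ 0.6 h n`
(`mean_small`, `k - 1 ≤ 10⁻⁴/h²`, `p = (1-h)/n ≤ 1/4`, `p |W| ≤ 1`; `h² n ≥ C₀/h ≥ 100 C₀`).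
Hence `E #{v ∈ W : |cmp v| ≥ k} ≥ 1.3 h n ≥ 1.2 h |W|`, and one of the `v ∈ W` has
`P(|cmp v| ≥ k) ≥ 1.2 h` (`Finset.exists_le_of_sum_le`). -/
theorem mac_vertex : ∃ C₀ : ℝ, ∀ (V : Type) [Fintype V] [DecidableEq V] (h : ℝ) (W : Finset V),
    0 < h → h ≤ 1 / 100 → C₀ ≤ h ^ 3 * Fintype.card V →
    Fintype.card V * (1 - h / 20) ≤ W.card →
    ∃ v ∈ W, 6 / 5 * h ≤ PP (bern ((1 - h) / Fintype.card V)) {ξ : Sym2 V → Bool |
      kh h ≤ (cmp (bg ξ) W v).card} := by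
  refine ⟨1000, ?_⟩
  intro V _ _ h W h0 h1 hC hW
  classical
  obtain ⟨n, hn⟩ : ∃ n : ℝ, n = (Fintype.card V : ℝ) := ⟨_, rfl⟩
  rw [← hn] at hC hW ⊢
  have hh3 : h ^ 3 ≤ 1 / 10 ^ 6 := by
    calc h ^ 3 ≤ (1 / 100 : ℝ) ^ 3 := pow_le_pow_left₀ h0.le h1 3
      _ = 1 / 10 ^ 6 := by norm_num
  have hh3' : 0 < h ^ 3 := pow_pos h0 3
  have hn0 : 0 < n := by
    by_contra hcon
    have : h ^ 3 * n ≤ 0 := mul_nonpos_of_nonneg_of_nonpos hh3'.le (not_lt.1 hcon)
    linarith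
  have hn1 : 10 ^ 9 ≤ n := by
    have h2 : h ^ 3 * n ≤ 1 / 10 ^ 6 * n := mul_le_mul_of_nonneg_right hh3 hn0.le
    nlinarith
  -- `h² n` is large
  have hh2n : 100000 ≤ h ^ 2 * n := by
    have h2 : h ^ 3 * n = h * (h ^ 2 * n) := by ring
    rw [h2] at hC
    have h3 : 0 ≤ h ^ 2 * n := by positivity
    nlinarith [mul_le_mul_of_nonneg_right h1 h3]
  have hhn : 10000000 ≤ h * n := by
    have h2 : h ^ 2 * n = h * (h * n) := by ring
    rw [h2] at hh2n
    have h3 : 0 ≤ h * n := by positivity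
    nlinarith [mul_le_mul_of_nonneg_right h1 h3]
  have hWn : (W.card : ℝ) ≤ n := by
    rw [hn]
    exact_mod_cast Finset.card_le_univ W
  -- the set `Q`
  obtain ⟨s, hs⟩ : ∃ s : ℕ, s = ⌈7 * h ^ 2 * n⌉₊ := ⟨_, rfl⟩
  have hs1 : 7 * h ^ 2 * n ≤ s := by rw [hs]; exact Nat.le_ceil _
  have hs2 : (s : ℝ) < 7 * h ^ 2 * n + 1 := by
    rw [hs]
    exact Nat.ceil_lt_add_one (by positivity)
  have hsW : s ≤ W.card := by
    have h2 : (s : ℝ) ≤ W.card := by
      have h3 : h ^ 2 * n ≤ 1 / 10 ^ 4 * n := by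
        apply mul_le_mul_of_nonneg_right _ hn0.le
        nlinarith
      have h4 : h * n ≤ 1 / 100 * n := mul_le_mul_of_nonneg_right h1 hn0.le
      nlinarith
    exact_mod_cast h2
  obtain ⟨Q, hQW, hQs⟩ := Finset.exists_subset_card_eq hsW
  -- the budget
  obtain ⟨t, ht⟩ : ∃ t : ℕ, t = ⌊2 * h * n⌋₊ := ⟨_, rfl⟩
  have ht1 : (t : ℝ) ≤ 2 * h * n := by rw [ht]; exact Nat.floor_le (by positivity)
  have ht2 : 2 * h * n < t + 1 := by rw [ht]; exact Nat.lt_floor_add_one _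
  have htW : t ≤ W.card := by
    have h2 : (t : ℝ) ≤ W.card := by
      have h4 : h * n ≤ 1 / 100 * n := mul_le_mul_of_nonneg_right h1 hn0.le
      nlinarith
    exact_mod_cast h2
  obtain ⟨p, hp⟩ : ∃ p : ℝ, p = (1 - h) / n := ⟨_, rfl⟩
  rw [← hp]
  have hp0 : 0 ≤ p := by rw [hp]; apply div_nonneg <;> linarith
  have hp4 : p ≤ 1 / 4 := by
    rw [hp, div_le_iff₀ hn0]
    linarith
  have hp1 : p ≤ 1 := by linarith
  have hpn : p * n = 1 - h := by rw [hp, div_mul_cancel₀ _ hn0.ne']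
  have hpW : p * W.card ≤ 1 := by
    have := mul_le_mul_of_nonneg_left hWn hp0
    linarith
  have hq : IsLaw (bern p) := bern_law hp0 hp1
  have hcond : Real.exp (-(1.66 * h ^ 2)) * (1 - p + p * (1 - h / 2)) ^ (W.card - t) ≤
      1 - h / 2 := by
    rw [hp]
    apply mac_num n h (W.card - t) (by linarith) h0 h1
    rw [Nat.cast_sub htW]
    nlinarith
  have hbud := budget_prob p (Real.exp (-(1.66 * h ^ 2))) (1 - h / 2) (W.card - t) t hp0 hp1
    (Real.exp_pos _) (Real.exp_le_one_iff.2 (by nlinarith [sq_nonneg h])) (by linarith)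
    (by linarith) hcond Q (W \ Q) disjoint_sdiff (by
      rw [card_sdiff_of_subset hQW, Nat.sub_add_cancel htW, Nat.sub_add_cancel (card_le_card hQW)])
  obtain ⟨P0, hP0⟩ : ∃ P0 : ℝ, P0 = PP (bern p) {ξ : Sym2 V → Bool |
      (expl (bg ξ) Q (W \ Q)).card ≤ t} := ⟨_, rfl⟩
  rw [← hP0] at hbud
  have hP00 : 0 ≤ P0 := by rw [hP0]; exact PP_nonneg hq _
  have hP1 : P0 ≤ 1 / 20 := by
    have h2 : (1 - h / 2) ^ Q.card ≤ Real.exp (-(3.5 * (h ^ 3 * n))) := by
      have h3 : 1 - h / 2 ≤ Real.exp (-(h / 2)) := by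
        have := Real.add_one_le_exp (-(h / 2))
        linarith
      calc (1 - h / 2) ^ Q.card ≤ Real.exp (-(h / 2)) ^ Q.card :=
            pow_le_pow_left₀ (by linarith) h3 _
        _ = Real.exp (Q.card * (-(h / 2))) := (Real.exp_nat_mul _ _).symm
        _ ≤ Real.exp (-(3.5 * (h ^ 3 * n))) := by
            apply Real.exp_le_exp.2
            rw [hQs]
            have h4 := mul_le_mul_of_nonneg_left hs1 h0.le
            nlinarith [h4]
    have h3 : Real.exp (-(3.32 * (h ^ 3 * n))) ≤ Real.exp (-(1.66 * h ^ 2)) ^ t := by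
      rw [← Real.exp_nat_mul]
      apply Real.exp_le_exp.2
      have h4 := mul_le_mul_of_nonneg_left ht1 (sq_nonneg h)
      nlinarith [h4]
    have h4 : Real.exp (-(3.32 * (h ^ 3 * n))) * P0 ≤ Real.exp (-(3.5 * (h ^ 3 * n))) :=
      (mul_le_mul_of_nonneg_right h3 hP00).trans (hbud.trans h2)
    have h5 : P0 ≤ Real.exp (-(0.18 * (h ^ 3 * n))) := by
      have h6 : Real.exp (-(3.5 * (h ^ 3 * n))) =
          Real.exp (-(3.32 * (h ^ 3 * n))) * Real.exp (-(0.18 * (h ^ 3 * n))) := by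
        rw [← Real.exp_add]
        congr 1
        ring
      rw [h6] at h4
      exact le_of_mul_le_mul_left h4 (Real.exp_pos _)
    refine h5.trans ?_
    rw [Real.exp_neg, inv_le_comm₀ (Real.exp_pos _) (by norm_num)]
    have h6 := Real.add_one_le_exp (0.18 * (h ^ 3 * n))
    have h7 : (1 / 20 : ℝ)⁻¹ = 20 := by norm_num
    rw [h7]
    linarith
  -- lower bound for the expectation
  obtain ⟨E0, hE0⟩ : ∃ E0 : ℝ, E0 = EE (bern p) (fun ξ : Sym2 V → Bool =>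
      ((expl (bg ξ) Q (W \ Q)).card : ℝ)) := ⟨_, rfl⟩
  have hlow : 1.9 * (h * n) ≤ E0 := by
    have h2 := markov hq (F := fun ξ : Sym2 V → Bool => ((expl (bg ξ) Q (W \ Q)).card : ℝ))
      (fun ξ => Nat.cast_nonneg _) (a := (t : ℝ) + 1) (by positivity)
    rw [← hE0, le_div_iff₀ (by positivity)] at h2
    have h3 : {ξ : Sym2 V → Bool | (t : ℝ) + 1 ≤ ((expl (bg ξ) Q (W \ Q)).card : ℝ)} =
        {ξ : Sym2 V → Bool | (expl (bg ξ) Q (W \ Q)).card ≤ t}ᶜ := by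
      ext ξ
      simp only [Set.mem_setOf_eq, Set.mem_compl_iff, not_le]
      constructor
      · intro h4
        have h5 : ((t + 1 : ℕ) : ℝ) ≤ ((expl (bg ξ) Q (W \ Q)).card : ℝ) := by
          push_cast
          exact h4
        exact Nat.lt_of_succ_le (by exact_mod_cast h5)
      · intro h4
        have h5 : t + 1 ≤ (expl (bg ξ) Q (W \ Q)).card := h4
        exact_mod_cast h5
    rw [h3, PP_compl hq, ← hP0] at h2
    have h4 : (19 / 20 : ℝ) * (2 * h * n) ≤ (1 - P0) * (t + 1) := by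
      apply mul_le_mul (by linarith) ht2.le (by positivity) (by linarith)
    linarith
  -- upper bound for the expectation
  have hk1 : 1 ≤ kh h := by
    unfold kh
    exact Nat.one_le_ceil_iff.2 (by positivity)
  have hk2 : Real.sqrt (kh h - 1) ≤ 1 / 100 / h := by
    have h2 : ((kh h : ℕ) : ℝ) < (1 / 10 ^ 4 : ℝ) / h ^ 2 + 1 := by
      unfold kh
      exact Nat.ceil_lt_add_one (by positivity)
    rw [Real.sqrt_le_left (by positivity)]
    have h3 : (1 / 100 / h) ^ 2 = (1 / 10 ^ 4 : ℝ) / h ^ 2 := by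
      rw [div_pow]
      norm_num
    rw [h3]
    linarith
  have hup : E0 ≤ (∑ v ∈ W, PP (bern p) {ξ : Sym2 V → Bool | kh h ≤ (cmp (bg ξ) W v).card}) +
      0.6 * (h * n) := by
    have h2 : E0 ≤ EE (bern p) (fun ξ : Sym2 V → Bool =>
        (∑ v ∈ W, if kh h ≤ (cmp (bg ξ) W v).card then (1 : ℝ) else 0) +
        ∑ q ∈ Q, if (cmp (bg ξ) W q).card < kh h then ((cmp (bg ξ) W q).card : ℝ) else 0) := by
      rw [hE0]
      exact EE_mono hq fun ξ => MacA_det ξ Q W hQW (kh h)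
    rw [EE_add, EE_sum, EE_sum] at h2
    have h3 : ∀ v ∈ W, EE (bern p) (fun ξ : Sym2 V → Bool =>
        if kh h ≤ (cmp (bg ξ) W v).card then (1 : ℝ) else 0) =
        PP (bern p) {ξ : Sym2 V → Bool | kh h ≤ (cmp (bg ξ) W v).card} := by
      intro v _
      rw [PP_eq]
      apply EE_congr
      intro ξ
      by_cases h4 : kh h ≤ (cmp (bg ξ) W v).card
      · rw [if_pos h4, if_pos (show ξ ∈ {ξ : Sym2 V → Bool | kh h ≤ (cmp (bg ξ) W v).card} from h4)]
      · rw [if_neg h4, if_neg (show ξ ∉ {ξ : Sym2 V → Bool | kh h ≤ (cmp (bg ξ) W v).card} from h4)]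
    rw [sum_congr rfl h3] at h2
    have h4 : ∑ q ∈ Q, EE (bern p) (fun ξ : Sym2 V → Bool =>
        if (cmp (bg ξ) W q).card < kh h then ((cmp (bg ξ) W q).card : ℝ) else 0) ≤
        0.6 * (h * n) := by
      calc ∑ q ∈ Q, EE (bern p) (fun ξ : Sym2 V → Bool =>
          if (cmp (bg ξ) W q).card < kh h then ((cmp (bg ξ) W q).card : ℝ) else 0)
          ≤ ∑ _q ∈ Q, 8 * (1 / 100 / h) := by
            apply sum_le_sum
            intro q _
            refine (mean_small p hp0 hp4 W hpW q (kh h) hk1).trans ?_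
            exact mul_le_mul_of_nonneg_left hk2 (by norm_num)
        _ = s * (8 * (1 / 100 / h)) := by rw [sum_const, hQs, nsmul_eq_mul]
        _ ≤ (7 * h ^ 2 * n + 1) * (8 * (1 / 100 / h)) :=
            mul_le_mul_of_nonneg_right hs2.le (by positivity)
        _ ≤ 0.6 * (h * n) := by
            have h5 : (7 * h ^ 2 * n + 1) * (8 * (1 / 100 / h)) =
                (0.56 * (h ^ 2 * n) + 0.08) / h := by
              field_simp
              ring
            rw [h5, div_le_iff₀ h0]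
            nlinarith
    linarith
  -- conclusion
  have hWpos : W.Nonempty := by
    rw [← card_pos]
    have h2 : (0 : ℝ) < W.card := by
      have h4 : h * n ≤ 1 / 100 * n := mul_le_mul_of_nonneg_right h1 hn0.le
      nlinarith
    exact_mod_cast h2
  have hfin : ∑ _v ∈ W, 6 / 5 * h ≤
      ∑ v ∈ W, PP (bern p) {ξ : Sym2 V → Bool | kh h ≤ (cmp (bg ξ) W v).card} := by
    rw [sum_const, nsmul_eq_mul]
    have h2 : (W.card : ℝ) * (6 / 5 * h) ≤ n * (6 / 5 * h) :=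
      mul_le_mul_of_nonneg_right hWn (by linarith)
    nlinarith
  exact exists_le_of_sum_le hWpos hfin

end RST.G
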