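import Pool.Agent.Lib.MP_7946c7_pr.G.Fac
import Pool.Agent.Lib.MP_7946c7_pr.G.MacA
import Pool.Agent.Lib.MP_7946c7_pr.G.SubB

/-!
# Stream G, job MacB: macroscopic components, step (ii) and conclusion (G10)
-/

set_option autoImplicit false

open Finset

namespace RST.G

/-- Step (ii).  `b = 3/8 h²`, `n = |V|`, `M(W) = |bigs (bg ξ) W k|`.  Strong induction on `|W|`.
If `|W| ≤ n (1 - h/20)` the right side is `≥ 1`.  Otherwise take the vertex `v ∈ W` of the
hypothesis, `C = cmp (bg ξ) W v`: `M(W) = M(W \ C) + 1(k ≤ |C|)` (`bigs_sdiff`), `cmp_cond`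
(`dep_bigs`), induction hypothesis for `W \ D`, `D ∋ v`:
`E 2^(-M(W)) ≤ exp(-b(|W| - n(1-h/20))) E[2^(-1(k ≤ |C|)) e^(b|C|)]`, and
`E[...] ≤ E e^(b|C|) - P(|C| ≥ k)/2 ≤ 1 + h/2 - (6/5 h)/2 ≤ 1` (`subcrit_exp` with `d = h/2`:
`h d - d²/2 = 3/8 h²`, `p |W| ≤ 1 - h`). -/
theorem mac_laplace (V : Type) [Fintype V] [DecidableEq V] (h : ℝ) (k : ℕ) (h0 : 0 < h)
    (h1 : h ≤ 1 / 100) (hV : 1 ≤ Fintype.card V)
    (hv : ∀ W : Finset V, Fintype.card V * (1 - h / 20) ≤ W.card →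
      ∃ v ∈ W, 6 / 5 * h ≤ PP (bern ((1 - h) / Fintype.card V)) {ξ : Sym2 V → Bool |
        k ≤ (cmp (bg ξ) W v).card}) (W : Finset V) :
    EE (bern ((1 - h) / Fintype.card V)) (fun ξ : Sym2 V → Bool =>
      (1 / 2 : ℝ) ^ (bigs (bg ξ) W k).card) ≤
      Real.exp (-(3 / 8 * h ^ 2 * (W.card - Fintype.card V * (1 - h / 20)))) := by
  obtain ⟨n, hn⟩ : ∃ n : ℝ, n = (Fintype.card V : ℝ) := ⟨_, rfl⟩
  have hn1 : 1 ≤ n := by
    rw [hn]
    exact_mod_cast hV
  have hn0 : 0 < n := by linarith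
  obtain ⟨p, hp⟩ : ∃ p : ℝ, p = (1 - h) / n := ⟨_, rfl⟩
  rw [← hn] at hv ⊢
  rw [← hp] at hv ⊢
  have hp0 : 0 ≤ p := by rw [hp]; apply div_nonneg <;> linarith
  have hp1 : p ≤ 1 := by
    rw [hp, div_le_iff₀ hn0]
    linarith
  have hpn : p * n = 1 - h := by rw [hp, div_mul_cancel₀ _ hn0.ne']
  have hq : IsLaw (bern p) := bern_law hp0 hp1
  induction hm : W.card using Nat.strong_induction_on generalizing W with
  | _ m ih =>
  subst hm
  by_cases hW : n * (1 - h / 20) ≤ W.card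
  swap
  · have h2 : EE (bern p) (fun ξ : Sym2 V → Bool => (1 / 2 : ℝ) ^ (bigs (bg ξ) W k).card) ≤
        EE (bern p) (fun _ : Sym2 V → Bool => (1 : ℝ)) :=
      EE_mono hq fun ξ => pow_le_one₀ (by norm_num) (by norm_num)
    rw [EE_const hq] at h2
    refine h2.trans (Real.one_le_exp ?_)
    have h3 : (W.card : ℝ) - n * (1 - h / 20) ≤ 0 := by linarith [not_le.1 hW]
    have h4 : 0 ≤ 3 / 8 * h ^ 2 := by positivity
    have := mul_nonpos_of_nonneg_of_nonpos h4 h3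
    linarith
  obtain ⟨v, hvW, hvP⟩ := hv W hW
  have hWn : (W.card : ℝ) ≤ n := by
    rw [hn]
    exact_mod_cast Finset.card_le_univ W
  have hpW : p * W.card ≤ 1 - h := by
    have := mul_le_mul_of_nonneg_left hWn hp0
    linarith
  obtain ⟨b, hb⟩ : ∃ b : ℝ, b = 3 / 8 * h ^ 2 := ⟨_, rfl⟩
  have hb0 : 0 ≤ b := by rw [hb]; positivity
  rw [← hb]
  -- splitting off the component of `v`
  have e1 : ∀ ξ : Sym2 V → Bool, (1 / 2 : ℝ) ^ (bigs (bg ξ) W k).card =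
      (fun (D : Finset V) (ξ : Sym2 V → Bool) => (1 / 2 : ℝ) ^ (bigs (bg ξ) (W \ D) k).card *
        (1 / 2 : ℝ) ^ (if k ≤ D.card then 1 else 0)) (cmp (bg ξ) W v) ξ := by
    intro ξ
    rw [bigs_sdiff (bg ξ) (bg_symm ξ) W v hvW k, pow_add]
  rw [EE_congr e1, cmp_cond hp0 hp1 W v hvW _ (fun D => dep_bigs (W \ D) k
    (fun S => (1 / 2 : ℝ) ^ S.card * (1 / 2 : ℝ) ^ (if k ≤ D.card then 1 else 0)))]
  -- the induction hypothesis
  have h2 : ∀ ξ : Sym2 V → Bool, EE (bern p) ((fun (D : Finset V) (ξ : Sym2 V → Bool) =>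
      (1 / 2 : ℝ) ^ (bigs (bg ξ) (W \ D) k).card *
        (1 / 2 : ℝ) ^ (if k ≤ D.card then 1 else 0)) (cmp (bg ξ) W v)) ≤
      Real.exp (-(b * (W.card - n * (1 - h / 20)))) *
        (Real.exp (b * (cmp (bg ξ) W v).card) -
          1 / 2 * (if k ≤ (cmp (bg ξ) W v).card then (1 : ℝ) else 0)) := by
    intro ξ
    obtain ⟨D, hD⟩ : ∃ D : Finset V, D = cmp (bg ξ) W v := ⟨_, rfl⟩
    have hDW : D ⊆ W := by rw [hD]; exact cmp_subset _ _ _
    have hvD : v ∈ D := by rw [hD]; exact self_mem_cmp _ _ _ hvW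
    rw [← hD]
    have hlt : (W \ D).card < W.card := by
      apply card_lt_card
      refine ⟨sdiff_subset, fun hsub => ?_⟩
      have := hsub hvW
      rw [mem_sdiff] at this
      exact this.2 hvD
    have h3 := ih _ hlt (W \ D) rfl
    have h4 : (((W \ D).card : ℕ) : ℝ) = W.card - D.card := by
      rw [card_sdiff_of_subset hDW, Nat.cast_sub (card_le_card hDW)]
    rw [h4, ← hb] at h3
    have h5 : Real.exp (-(b * (W.card - D.card - n * (1 - h / 20)))) =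
        Real.exp (-(b * (W.card - n * (1 - h / 20)))) * Real.exp (b * D.card) := by
      rw [← Real.exp_add]
      congr 1
      ring
    rw [h5] at h3
    show EE (bern p) (fun ξ : Sym2 V → Bool => (1 / 2 : ℝ) ^ (bigs (bg ξ) (W \ D) k).card *
        (1 / 2 : ℝ) ^ (if k ≤ D.card then 1 else 0)) ≤ _
    rw [EE_mul_right]
    have hE1 : 1 ≤ Real.exp (b * D.card) := Real.one_le_exp (by positivity)
    have hE0 : 0 < Real.exp (-(b * (W.card - n * (1 - h / 20)))) := Real.exp_pos _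
    by_cases hk : k ≤ D.card
    · rw [if_pos hk, if_pos hk, pow_one]
      calc EE (bern p) (fun ξ : Sym2 V → Bool => (1 / 2 : ℝ) ^ (bigs (bg ξ) (W \ D) k).card) *
          (1 / 2) ≤ Real.exp (-(b * (W.card - n * (1 - h / 20)))) * Real.exp (b * D.card) *
            (1 / 2) := mul_le_mul_of_nonneg_right h3 (by norm_num)
        _ = Real.exp (-(b * (W.card - n * (1 - h / 20)))) * (Real.exp (b * D.card) * (1 / 2)) := by
            ring
        _ ≤ _ := by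
            apply mul_le_mul_of_nonneg_left _ hE0.le
            linarith
    · rw [if_neg hk, if_neg hk, pow_zero, mul_one, mul_zero, sub_zero]
      exact h3
  refine (EE_mono hq h2).trans ?_
  rw [EE_mul_left, EE_sub, EE_mul_left]
  have h3 : EE (bern p) (fun ξ : Sym2 V → Bool => Real.exp (b * (cmp (bg ξ) W v).card)) ≤
      1 + h / 2 := by
    have h4 := subcrit_exp p h (h / 2) hp0 hp1 h0 (by linarith) (by linarith) (by linarith) W hpW v
    have h5 : h * (h / 2) - (h / 2) ^ 2 / 2 = b := by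
      rw [hb]
      ring
    rwa [h5] at h4
  have h4 : EE (bern p) (fun ξ : Sym2 V → Bool =>
      if k ≤ (cmp (bg ξ) W v).card then (1 : ℝ) else 0) =
      PP (bern p) {ξ : Sym2 V → Bool | k ≤ (cmp (bg ξ) W v).card} := by
    classical
    rw [PP_eq]
    apply EE_congr
    intro ξ
    by_cases h5 : k ≤ (cmp (bg ξ) W v).card
    · rw [if_pos h5, if_pos (show ξ ∈ {ξ : Sym2 V → Bool | k ≤ (cmp (bg ξ) W v).card} from h5)]
    · rw [if_neg h5, if_neg (show ξ ∉ {ξ : Sym2 V → Bool | k ≤ (cmp (bg ξ) W v).card} from h5)]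
  rw [h4]
  have hE0 : 0 < Real.exp (-(b * (W.card - n * (1 - h / 20)))) := Real.exp_pos _
  calc _ ≤ Real.exp (-(b * (W.card - n * (1 - h / 20)))) * 1 := by
        apply mul_le_mul_of_nonneg_left _ hE0.le
        linarith
    _ = _ := mul_one _

/-- G10.  Markov for `2^(-M)`: `P(M ≤ h³n/100) ≤ 2^(h³n/100) E 2^(-M) ≤
exp(h³ n (0.6932/100 - 3/320)) ≤ exp(-h³n/500)` (`|W| - n(1-h/20) ≥ n h/40`,
`mac_vertex`, `mac_laplace`). -/
theorem macro_comps : ∃ C₀ : ℝ, ∀ (V : Type) [Fintype V] [DecidableEq V] (h : ℝ) (W : Finset V),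
    0 < h → h ≤ 1 / 100 → C₀ ≤ h ^ 3 * Fintype.card V → h ≤ 1 →
    Fintype.card V * (1 - h / 40) ≤ W.card →
    PP (bern ((1 - h) / Fintype.card V)) {ξ : Sym2 V → Bool |
      ((bigs (bg ξ) W (kh h)).card : ℝ) ≤ h ^ 3 * Fintype.card V / 100} ≤
      Real.exp (-(h ^ 3 * Fintype.card V / 500)) := by
  obtain ⟨C₁, hC₁⟩ := mac_vertex
  refine ⟨max C₁ 1, ?_⟩
  intro V _ _ h W h0 h1 hC _ hW
  have hC1 : C₁ ≤ h ^ 3 * Fintype.card V := (le_max_left _ _).trans hC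
  have hC2 : 1 ≤ h ^ 3 * Fintype.card V := (le_max_right _ _).trans hC
  have hV : 1 ≤ Fintype.card V := by
    by_contra hcon
    have h2 : Fintype.card V = 0 := by omega
    rw [h2] at hC2
    norm_num at hC2
  have hL := mac_laplace V h (kh h) h0 h1 hV (fun W' hW' => hC₁ V h W' h0 h1 hC1 hW') W
  obtain ⟨n, hn⟩ : ∃ n : ℝ, n = (Fintype.card V : ℝ) := ⟨_, rfl⟩
  have hn1 : 1 ≤ n := by
    rw [hn]
    exact_mod_cast hV
  have hn0 : 0 < n := by linarith
  rw [← hn] at hL hW ⊢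
  obtain ⟨p, hp⟩ : ∃ p : ℝ, p = (1 - h) / n := ⟨_, rfl⟩
  rw [← hp] at hL ⊢
  have hp0 : 0 ≤ p := by rw [hp]; apply div_nonneg <;> linarith
  have hp1 : p ≤ 1 := by
    rw [hp, div_le_iff₀ hn0]
    linarith
  have hq : IsLaw (bern p) := bern_law hp0 hp1
  obtain ⟨x, hx⟩ : ∃ x : ℝ, x = h ^ 3 * n := ⟨_, rfl⟩
  have hx0 : 0 ≤ x := by rw [hx]; positivity
  rw [← hx]
  have h2 : PP (bern p) {ξ : Sym2 V → Bool | ((bigs (bg ξ) W (kh h)).card : ℝ) ≤ x / 100} ≤
      PP (bern p) {ξ : Sym2 V → Bool | Real.exp (-(0.006932 * x)) ≤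
        (1 / 2 : ℝ) ^ (bigs (bg ξ) W (kh h)).card} := by
    apply PP_mono hq
    intro ξ hξ
    have hξ' : ((bigs (bg ξ) W (kh h)).card : ℝ) ≤ x / 100 := hξ
    show Real.exp (-(0.006932 * x)) ≤ (1 / 2 : ℝ) ^ (bigs (bg ξ) W (kh h)).card
    generalize (bigs (bg ξ) W (kh h)).card = M at hξ'
    have h3 : Real.exp (-0.6932) ≤ 1 / 2 := by
      have h4 : (1 / 2 : ℝ) = Real.exp (-Real.log 2) := by
        rw [Real.exp_neg, Real.exp_log (by norm_num)]
        norm_num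
      rw [h4]
      apply Real.exp_le_exp.2
      have := Real.log_two_lt_d9
      linarith
    calc Real.exp (-(0.006932 * x)) ≤ Real.exp (M * (-0.6932)) := by
          apply Real.exp_le_exp.2
          linarith
      _ = Real.exp (-0.6932) ^ M := Real.exp_nat_mul _ _
      _ ≤ (1 / 2 : ℝ) ^ M := pow_le_pow_left₀ (Real.exp_pos _).le h3 M
  have h3 := markov hq (F := fun ξ : Sym2 V → Bool => (1 / 2 : ℝ) ^ (bigs (bg ξ) W (kh h)).card)
    (fun ξ => by positivity) (Real.exp_pos (-(0.006932 * x)))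
  refine h2.trans (h3.trans ?_)
  rw [div_le_iff₀ (Real.exp_pos _), ← Real.exp_add]
  refine hL.trans (Real.exp_le_exp.2 ?_)
  have h4 : h * n / 40 ≤ W.card - n * (1 - h / 20) := by linarith
  have h5 : 0 ≤ 3 / 8 * h ^ 2 := by positivity
  have h6 := mul_le_mul_of_nonneg_left h4 h5
  have h7 : 3 / 8 * h ^ 2 * (h * n / 40) = 3 / 320 * x := by
    rw [hx]
    ring
  rw [h7] at h6
  linarith

end RST.G
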