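import Pool.Agent.Lib.MP_7946c7_pr.G.BasA

/-!
# Stream G, job Saw: counting self-avoiding walks
-/

set_option autoImplicit false

open Finset

namespace RST.G

variable {V : Type} [Fintype V] [DecidableEq V]

private theorem saw_fiber {B κ : Type} [Fintype B] [DecidableEq B] {q : B → ℝ} (hq : IsLaw q) (A : κ → Finset B)
    (F : Finset κ) (hF : F.card ≤ 1) :
    ∑ x, q x * ∏ i ∈ F, (if x ∈ A i then (1 : ℝ) else 0) = ∏ i ∈ F, qs q (A i) := by
  rcases F.eq_empty_or_nonempty with rfl | hne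
  · simp [hq.sum_one]
  · have h1 : F.card = 1 := le_antisymm hF (Finset.card_pos.2 hne)
    obtain ⟨i, rfl⟩ := Finset.card_eq_one.1 h1
    simp only [Finset.prod_singleton, mul_ite, mul_one, mul_zero]
    unfold qs
    rw [← Finset.sum_filter]
    congr 1
    ext x
    simp

open Classical in
private theorem saw_one {B : Type} [Fintype B] [DecidableEq B] {q : B → ℝ} (hq : IsLaw q) (ℓ : ℕ)
    (A : ℕ → Finset B) (γ : Fin (ℓ + 1) → V) (hγ : Function.Injective γ) :
    EE q (fun b : Sym2 V → B =>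
      if Function.Injective γ ∧ ∀ i : Fin ℓ, b s(γ i.castSucc, γ i.succ) ∈ A i then (1 : ℝ) else 0) =
      ∏ i ∈ range ℓ, qs q (A i) := by
  have hinj : Function.Injective fun i : Fin ℓ => s(γ i.castSucc, γ i.succ) := by
    intro i j hij
    simp only [Sym2.eq_iff] at hij
    rcases hij with ⟨h1, _⟩ | ⟨h1, h2⟩
    · exact Fin.castSucc_injective _ (hγ h1)
    · have h3 := congrArg Fin.val (hγ h1)
      have h4 := congrArg Fin.val (hγ h2)
      simp only [Fin.val_castSucc, Fin.val_succ] at h3 h4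
      omega
  obtain ⟨f, hf⟩ : ∃ f : Sym2 V → B → ℝ, ∀ e x, f e x =
      ∏ i ∈ univ.filter (fun i : Fin ℓ => s(γ i.castSucc, γ i.succ) = e),
        (if x ∈ A i then (1 : ℝ) else 0) := ⟨_, fun _ _ => rfl⟩
  have h1 : ∀ b : Sym2 V → B,
      (if Function.Injective γ ∧ ∀ i : Fin ℓ, b s(γ i.castSucc, γ i.succ) ∈ A i then (1 : ℝ) else 0)
      = ∏ e : Sym2 V, f e (b e) := by
    intro b
    simp only [hf]
    have h2 : ∀ e : Sym2 V, (∏ i ∈ univ.filter (fun i : Fin ℓ => s(γ i.castSucc, γ i.succ) = e),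
            (if b e ∈ A i then (1 : ℝ) else 0)) =
        ∏ i ∈ univ.filter (fun i : Fin ℓ => s(γ i.castSucc, γ i.succ) = e),
            (if b s(γ i.castSucc, γ i.succ) ∈ A i then (1 : ℝ) else 0) := by
      intro e
      apply Finset.prod_congr rfl
      intro i hi
      rw [(Finset.mem_filter.1 hi).2]
    simp only [h2]
    rw [Finset.prod_fiberwise]
    by_cases h : ∀ i : Fin ℓ, b s(γ i.castSucc, γ i.succ) ∈ A i
    · rw [if_pos ⟨hγ, h⟩]
      symm
      apply Finset.prod_eq_one
      intro i _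
      rw [if_pos (h i)]
    · rw [if_neg (fun h' => h h'.2)]
      push Not at h
      obtain ⟨i, hi⟩ := h
      symm
      apply Finset.prod_eq_zero (Finset.mem_univ i)
      rw [if_neg hi]
  rw [EE_congr h1, EE_prod]
  simp only [hf]
  have h3 : ∀ e : Sym2 V, (∑ x, q x * ∏ i ∈ univ.filter (fun i : Fin ℓ =>
      s(γ i.castSucc, γ i.succ) = e), (if x ∈ A i then (1 : ℝ) else 0)) =
      ∏ i ∈ univ.filter (fun i : Fin ℓ => s(γ i.castSucc, γ i.succ) = e), qs q (A i) := by
    intro e
    apply saw_fiber hq (fun i : Fin ℓ => A i)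
    rw [Finset.card_le_one]
    intro i hi j hj
    apply hinj
    show s(γ i.castSucc, γ i.succ) = s(γ j.castSucc, γ j.succ)
    rw [(Finset.mem_filter.1 hi).2, (Finset.mem_filter.1 hj).2]
  simp only [h3]
  rw [Finset.prod_fiberwise, Finset.prod_range]

open Classical in
/-- G9. First moment of self-avoiding walks with constraints on the bins.  `EE_sum`; for injective
`γ` the pairs `s(γ i, γ (i+1))`, `i < ℓ`, are distinct, so the probability is
`∏ i, qs q (A i)` (`EE_coord` with a product over the image, or the product of indicator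
functions); there are at most `|V|^(ℓ+1)` functions `γ`. -/
theorem saw_count {B : Type} [Fintype B] [DecidableEq B] {q : B → ℝ} (hq : IsLaw q) (ℓ : ℕ)
    (A : ℕ → Finset B) :
    EE q (fun b : Sym2 V → B => ∑ γ : Fin (ℓ + 1) → V,
      if Function.Injective γ ∧ ∀ i : Fin ℓ, b s(γ i.castSucc, γ i.succ) ∈ A i then (1 : ℝ) else 0) ≤
      Fintype.card V * ∏ i ∈ range ℓ, (Fintype.card V * qs q (A i)) := by
  have hqs : ∀ i, 0 ≤ qs q (A i) := fun i => Finset.sum_nonneg fun x _ => hq.nonneg x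
  have h0 : 0 ≤ ∏ i ∈ range ℓ, qs q (A i) := Finset.prod_nonneg fun i _ => hqs i
  rw [EE_sum]
  have h1 : ∀ γ ∈ (univ : Finset (Fin (ℓ + 1) → V)), EE q (fun b : Sym2 V → B =>
      if Function.Injective γ ∧ ∀ i : Fin ℓ, b s(γ i.castSucc, γ i.succ) ∈ A i then (1 : ℝ) else 0)
      ≤ ∏ i ∈ range ℓ, qs q (A i) := by
    intro γ _
    by_cases hγ : Function.Injective γ
    · exact (saw_one hq ℓ A γ hγ).le
    · have h2 : ∀ b : Sym2 V → B,
        (if Function.Injective γ ∧ ∀ i : Fin ℓ, b s(γ i.castSucc, γ i.succ) ∈ A i then (1 : ℝ)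
          else 0) = 0 := by
        intro b
        rw [if_neg (fun h => hγ h.1)]
      rw [EE_congr h2, EE_const hq]
      exact h0
  refine (Finset.sum_le_sum h1).trans ?_
  rw [Finset.sum_const, nsmul_eq_mul, Finset.prod_mul_distrib, Finset.prod_const,
    Finset.card_range, Finset.card_univ, Fintype.card_fun, Fintype.card_fin]
  push_cast
  rw [pow_succ]
  apply le_of_eq
  ring

end RST.G
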