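import Pool.Agent.Lib.MP_7946c7_pr.G.Har
import Pool.Agent.Lib.MP_7946c7_pr.G.IndA

/-!
# Stream G, job ArmA: recursion for the one arm probability
-/

set_option autoImplicit false

open Finset

namespace RST.G

variable {V : Type} [Fintype V] [DecidableEq V]

theorem arm_not_mem (R : V → V → Prop) (W : Finset V) (v : V) (r : ℕ) (hv : v ∉ W) :
    ¬ Arm R W v r := by
  rintro ⟨γ, h0, -, h⟩
  apply hv
  rw [← h0]
  exact h 0 (Nat.zero_le r)

theorem arm_mono (R R' : V → V → Prop) (W W' : Finset V) (v : V) (r : ℕ)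
    (h : ∀ u w, R u w → R' u w) (hW : W ⊆ W') (ha : Arm R W v r) : Arm R' W' v r := by
  obtain ⟨γ, h0, hγ, hW0⟩ := ha
  exact ⟨γ, h0, ⟨fun i hi => h _ _ (hγ.1 i hi), hγ.2⟩, fun i hi => hW (hW0 i hi)⟩

theorem arm_succ (R : V → V → Prop) (W : Finset V) (v : V) (r : ℕ) (hv : v ∈ W) :
    Arm R W v (r + 1) ↔ ∃ w ∈ W.erase v, R v w ∧ Arm R (W.erase v) w r := by
  constructor
  · rintro ⟨γ, h0, hγ, hW⟩
    have hne : ∀ i ≤ r, γ (i + 1) ≠ v := by
      intro i hi heq
      rw [← h0] at heq
      have := hγ.2 (i + 1) (by omega) 0 (by omega) heq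
      omega
    refine ⟨γ 1, ?_, ?_, fun i => γ (i + 1), rfl, ⟨?_, ?_⟩, ?_⟩
    · rw [Finset.mem_erase]
      exact ⟨hne 0 (Nat.zero_le r), hW 1 (by omega)⟩
    · have := hγ.1 0 (by omega)
      rw [h0] at this
      exact this
    · intro i hi
      exact hγ.1 (i + 1) (by omega)
    · intro i hi j hj hij
      have := hγ.2 (i + 1) (by omega) (j + 1) (by omega) hij
      omega
    · intro i hi
      rw [Finset.mem_erase]
      exact ⟨hne i hi, hW (i + 1) (by omega)⟩
  · rintro ⟨w, hw, hvw, γ, h0, hγ, hW⟩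
    have hW' : ∀ i ≤ r, γ i ≠ v ∧ γ i ∈ W := fun i hi => Finset.mem_erase.1 (hW i hi)
    refine ⟨fun i => if i = 0 then v else γ (i - 1), by simp, ⟨?_, ?_⟩, ?_⟩
    · intro i hi
      rcases Nat.eq_zero_or_pos i with h | h
      · subst h
        simp only [if_true, Nat.zero_add, one_ne_zero, if_false, Nat.sub_self]
        rw [h0]
        exact hvw
      · have e1 : i ≠ 0 := by omega
        have e2 : i + 1 ≠ 0 := by omega
        simp only [e1, e2, if_false]
        have := hγ.1 (i - 1) (by omega)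
        have e3 : i - 1 + 1 = i := by omega
        rw [e3] at this
        exact this
    · intro i hi j hj hij
      rcases Nat.eq_zero_or_pos i with h | h
      · rcases Nat.eq_zero_or_pos j with h' | h'
        · omega
        · have e2 : j ≠ 0 := by omega
          simp only [h, if_true, e2, if_false] at hij
          exact absurd hij.symm (hW' (j - 1) (by omega)).1
      · have e1 : i ≠ 0 := by omega
        rcases Nat.eq_zero_or_pos j with h' | h'
        · simp only [h', if_true, e1, if_false] at hij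
          exact absurd hij (hW' (i - 1) (by omega)).1
        · have e2 : j ≠ 0 := by omega
          simp only [e1, e2, if_false] at hij
          have := hγ.2 (i - 1) (by omega) (j - 1) (by omega) hij
          omega
    · intro i hi
      by_cases h : i = 0
      · simp only [h, if_true]
        exact hv
      · simp only [h, if_false]
        exact (hW' (i - 1) (by omega)).2

theorem inc_arm (W : Finset V) (v : V) (r : ℕ) : Inc {ξ : Sym2 V → Bool | Arm (bg ξ) W v r} := by
  intro ξ ξ' h hξ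
  exact arm_mono (bg ξ) (bg ξ') W W v r (fun u w huw => ⟨huw.1, h _ huw.2⟩) (Finset.Subset.refl W)
    hξ

/-- the arm in `W` only depends on the edges inside `W` -/
private lemma armA_dep (W : Finset V) (v : V) (r : ℕ) (ξ ξ' : Sym2 V → Bool)
    (h : ∀ e ∈ inE W, ξ e = ξ' e) (ha : Arm (bg ξ) W v r) : Arm (bg ξ') W v r := by
  obtain ⟨γ, h0, hγ, hW⟩ := ha
  refine ⟨γ, h0, ⟨fun i hi => ?_, hγ.2⟩, hW⟩
  obtain ⟨h1, h2⟩ := hγ.1 i hi
  refine ⟨h1, ?_⟩
  rw [← h _ ?_]
  · exact h2
  · intro x hx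
    rw [Sym2.mem_iff] at hx
    rcases hx with rfl | rfl
    · exact hW i (by omega)
    · exact hW (i + 1) (by omega)

open Classical in
/-- probability of one open edge and an arm which does not use it -/
private lemma armA_edge {p : ℝ} (hp0 : 0 ≤ p) (hp1 : p ≤ 1) (U : Finset V) (v w : V) (r : ℕ)
    (hv : v ∉ U) :
    PP (bern p) {ξ : Sym2 V → Bool | ξ s(v, w) = true ∧ Arm (bg ξ) U w r} =
      p * PP (bern p) {ξ : Sym2 V → Bool | Arm (bg ξ) U w r} := by
  have hlaw := bern_law hp0 hp1
  have h1 : PP (bern p) {ξ : Sym2 V → Bool | ξ s(v, w) = true ∧ Arm (bg ξ) U w r} =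
      EE (bern p) (fun ξ : Sym2 V → Bool => (if ξ s(v, w) = true then (1 : ℝ) else 0) *
        (if Arm (bg ξ) U w r then (1 : ℝ) else 0)) := by
    rw [PP_eq]
    apply EE_congr
    intro ξ
    by_cases h2 : ξ s(v, w) = true
    · by_cases h3 : Arm (bg ξ) U w r
      · simp [h2, h3]
      · simp [h2, h3]
    · by_cases h3 : Arm (bg ξ) U w r
      · simp [h2, h3]
      · simp [h2, h3]
  rw [h1, EE_indep hlaw {s(v, w)}]
  · have h2 : EE (bern p) (fun ξ : Sym2 V → Bool => if ξ s(v, w) = true then (1 : ℝ) else 0) =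
        p := by
      have h3 := EE_coord hlaw ({s(v, w)} : Finset (Sym2 V))
        (fun _ x => if x = true then (1 : ℝ) else 0)
      simp only [Finset.prod_singleton] at h3
      rw [h3]
      simp [bern]
    rw [h2, PP_eq]
    rfl
  · intro x y hxy
    have := hxy s(v, w) (by simp)
    simp only [this]
  · intro x y hxy
    have hin : ∀ e ∈ inE U, x e = y e := by
      intro e he
      apply hxy
      intro h
      rw [Set.mem_singleton_iff] at h
      subst h
      exact hv (he v (by simp))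
    have hiff : Arm (bg x) U w r ↔ Arm (bg y) U w r :=
      ⟨armA_dep U w r x y hin, armA_dep U w r y x fun e he => (hin e he).symm⟩
    simp only [hiff]

/-- Recursion.  By `arm_succ` the complement of the event is the intersection over `w ∈ W.erase v`
of the complements of the increasing events `A_w` = (the edge `s(v,w)` is open and there is an arm of
length `r` from `w` in `W.erase v`), `P(A_w) = p P(Arm (W.erase v) w r) ≤ p b` (`EE_indep`: the arm
only depends on the edges inside `W.erase v`); `harris_prod`: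
`1 - P ≥ ∏ (1 - p b) = (1 - p b)^(|W|-1) ≥ (1-p b)^m`. -/
theorem arm_rec {p : ℝ} (hp0 : 0 ≤ p) (hp1 : p ≤ 1) (W : Finset V) (v : V) (r m : ℕ) (b : ℝ)
    (hb0 : 0 ≤ b) (hb1 : b ≤ 1) (hW : W.card ≤ m)
    (h : ∀ w ∈ W.erase v, PP (bern p) {ξ : Sym2 V → Bool | Arm (bg ξ) (W.erase v) w r} ≤ b) :
    PP (bern p) {ξ : Sym2 V → Bool | Arm (bg ξ) W v (r + 1)} ≤ 1 - (1 - p * b) ^ m := by
  have hlaw := bern_law hp0 hp1
  have hpb0 : 0 ≤ p * b := mul_nonneg hp0 hb0
  have hpb1 : p * b ≤ 1 := by nlinarith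
  by_cases hv : v ∈ W
  · obtain ⟨A, hA⟩ : ∃ A : V → Set (Sym2 V → Bool), A = fun w =>
      {ξ : Sym2 V → Bool | ξ s(v, w) = true ∧ Arm (bg ξ) (W.erase v) w r} := ⟨_, rfl⟩
    have hinc : ∀ w ∈ W.erase v, Inc (A w) := by
      intro w _ ξ ξ' hle hξ
      rw [hA] at hξ ⊢
      exact ⟨hle _ hξ.1, inc_arm _ w r ξ ξ' hle hξ.2⟩
    have hpr : ∀ w ∈ W.erase v, 1 - p * b ≤ 1 - PP (bern p) (A w) := by
      intro w hw
      have h1 : PP (bern p) (A w) ≤ p * b := by
        rw [hA]
        show PP (bern p) {ξ : Sym2 V → Bool | ξ s(v, w) = true ∧ Arm (bg ξ) (W.erase v) w r} ≤ _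
        rw [armA_edge hp0 hp1 (W.erase v) v w r (Finset.notMem_erase v W)]
        exact mul_le_mul_of_nonneg_left (h w hw) hp0
      linarith
    have h2 := harris_prod hp0 hp1 (W.erase v) A hinc
    have h3 : (1 - p * b) ^ m ≤ ∏ w ∈ W.erase v, (1 - PP (bern p) (A w)) := by
      calc (1 - p * b) ^ m ≤ (1 - p * b) ^ (W.erase v).card := by
            apply pow_le_pow_of_le_one (by linarith) (by linarith)
            exact (Finset.card_le_card (Finset.erase_subset v W)).trans hW
        _ = ∏ w ∈ W.erase v, (1 - p * b) := by rw [Finset.prod_const]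
        _ ≤ _ := Finset.prod_le_prod (fun _ _ => by linarith) hpr
    have h4 : {ξ : Sym2 V → Bool | ∀ w ∈ W.erase v, ξ ∉ A w} =
        {ξ : Sym2 V → Bool | Arm (bg ξ) W v (r + 1)}ᶜ := by
      ext ξ
      rw [Set.mem_compl_iff, Set.mem_setOf_eq, Set.mem_setOf_eq, arm_succ (bg ξ) W v r hv, hA]
      constructor
      · rintro h5 ⟨w, hw, hvw, ha⟩
        exact h5 w hw ⟨hvw.2, ha⟩
      · intro h5 w hw h6
        exact h5 ⟨w, hw, ⟨(Finset.ne_of_mem_erase hw).symm, h6.1⟩, h6.2⟩
    rw [h4, PP_compl hlaw] at h2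
    linarith
  · have h1 : {ξ : Sym2 V → Bool | Arm (bg ξ) W v (r + 1)} = ∅ := by
      ext ξ
      simp only [Set.mem_setOf_eq, Set.mem_empty_iff_false, iff_false]
      exact arm_not_mem _ W v _ hv
    rw [h1, PP_empty]
    have : (1 - p * b) ^ m ≤ 1 := pow_le_one₀ (by linarith) (by linarith)
    linarith

end RST.G
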