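import Pool.Agent.Lib.MP_7946c7_pr.G.ArmA

/-!
# Stream G, job ArmB: the one arm bound G8
-/

set_option autoImplicit false

open Finset

namespace RST.G

/-- `exp (-τ) ≥ 1 - τ / (1 + τ/2)` -/
private lemma armB_exp (τ : ℝ) (hτ : 0 ≤ τ) : 1 - Real.exp (-τ) ≤ τ / (1 + τ / 2) := by
  have h1 : 1 ≤ Real.exp τ := Real.one_le_exp hτ
  have h2 := Real.le_log_one_add_of_nonneg (x := Real.exp τ - 1) (by linarith)
  have h3 : 1 + (Real.exp τ - 1) = Real.exp τ := by ring
  rw [h3, Real.log_exp, div_le_iff₀ (by linarith)] at h2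
  -- `2 (e^τ - 1) ≤ τ (e^τ + 1)`
  have h4 : Real.exp (-τ) * Real.exp τ = 1 := by rw [← Real.exp_add]; simp
  have h5 := Real.exp_pos (-τ)
  rw [le_div_iff₀ (by linarith)]
  have h6 : Real.exp (-τ) * (2 * (Real.exp τ - 1)) ≤
      Real.exp (-τ) * (τ * (Real.exp τ - 1 + 2)) := mul_le_mul_of_nonneg_left h2 h5.le
  nlinarith

/-- `(1 - p b)^n ≥ exp (-L b)` -/
private lemma armB_pow (p x b : ℝ) (hp0 : 0 ≤ p) (hx0 : 0 ≤ x) (hx1 : x ≤ 1 / 4) (n : ℕ)
    (hn : 16 ≤ n) (hp : p * n ≤ 1 + x) (hb0 : 0 ≤ b) (hb1 : b ≤ 1) :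
    Real.exp (-((1 + (x + 4 / n)) * b)) ≤ (1 - p * b) ^ n := by
  have hn' : (16 : ℝ) ≤ n := by exact_mod_cast hn
  have hn0 : (0 : ℝ) < n := by linarith
  have hp2 : p ≤ (5 / 4) / n := by
    rw [le_div_iff₀ hn0]; linarith
  have hinv : (4 : ℝ) / n ≤ 1 / 4 := by
    rw [div_le_iff₀ hn0]; linarith
  have hinv0 : (0 : ℝ) < 4 / n := by positivity
  have hp3 : p ≤ 5 / 16 * (4 / n) := by
    calc p ≤ (5 / 4) / n := hp2
      _ = 5 / 16 * (4 / n) := by ring
  obtain ⟨u, hu⟩ : ∃ u, u = p * b := ⟨_, rfl⟩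
  have hu0 : 0 ≤ u := by rw [hu]; exact mul_nonneg hp0 hb0
  have hup : u ≤ p := by rw [hu]; nlinarith
  have hu1 : u < 1 := by linarith
  rw [← hu]
  have h1 : Real.exp (-(u / (1 - u))) ≤ 1 - u := by
    have h2 : u / (1 - u) + 1 ≤ Real.exp (u / (1 - u)) := Real.add_one_le_exp _
    have h3 : u / (1 - u) + 1 = (1 - u)⁻¹ := by
      have : 1 - u ≠ 0 := by linarith
      field_simp
      ring
    rw [h3] at h2
    rw [Real.exp_neg]
    calc (Real.exp (u / (1 - u)))⁻¹ ≤ ((1 - u)⁻¹)⁻¹ :=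
          inv_anti₀ (inv_pos.2 (by linarith)) h2
      _ = 1 - u := inv_inv _
  have h4 : Real.exp (-(u / (1 - u))) ^ n ≤ (1 - u) ^ n :=
    pow_le_pow_left₀ (Real.exp_pos _).le h1 n
  refine le_trans ?_ h4
  rw [← Real.exp_nat_mul]
  apply Real.exp_le_exp.2
  have h5 : (n : ℝ) * (u / (1 - u)) ≤ (1 + (x + 4 / n)) * b := by
    rw [← mul_div_assoc, div_le_iff₀ (by linarith)]
    have h6 : (n : ℝ) * u ≤ (1 + x) * b := by
      rw [hu]
      nlinarith
    refine h6.trans ?_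
    have h7 : 1 + x ≤ (1 + (x + 4 / n)) * (1 - u) := by
      have h8 : u * (1 + (x + 4 / n)) ≤ 5 / 16 * (4 / n) * (3 / 2) := by
        apply mul_le_mul (hup.trans hp3) (by linarith) (by positivity) (by positivity)
      nlinarith
    calc (1 + x) * b ≤ (1 + (x + 4 / n)) * (1 - u) * b := mul_le_mul_of_nonneg_right h7 hb0
      _ = (1 + (x + 4 / n)) * b * (1 - u) := by ring
  linarith

/-- Numerical recursion for `b = min 1 (armB n x r)`, `armB n x r = 8/r + 4x'`, `x' = x + 4/n`.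
If `armB n x (r+1) ≥ 1` trivial.  Otherwise `4x' < 1`, `r ≥ 8`, and with `u = p b ≤ 5/(4n) ≤ 1/12`:
`(1-u)^n ≥ exp(-n u/(1-u))` (`log(1-u) ≥ -u/(1-u)`), `n u/(1-u) ≤ (1+x)(1+2.5/n) b ≤ L b`, `L = 1+x'`
(`(1+x) 2.5/n ≤ 3.2/n ≤ 4/n`), so the left side is `≤ 1 - exp(-L b) ≤ L b/(1 + L b/2)`
(`exp(-τ) ≥ (1-τ/2)/(1+τ/2)` for `0 ≤ τ ≤ 2`).
* `b = 8/r + 4x' ≤ 1`: `b - L b/(1+L b/2) = b (L b/2 - x')/(1 + L b/2) ≥ b (b/2 - x')/(13/8)`
  `≥ (8/r)(4/r)/(13/8) ≥ 8/(r(r+1))` (`b/2 - x' = 4/r + x'`), so the left side is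
  `≤ 8/r + 4x' - 8/(r(r+1)) = 8/(r+1) + 4x'`.
* `b = 1 < 8/r + 4x'`: the left side is `≤ L/(1+L/2) ≤ (5/4)/(13/8) < 8/9` and
  `8/(r+1) + 4x' > 1 - 8/(r(r+1)) ≥ 8/9`. -/
theorem arm_num (p x : ℝ) (hp0 : 0 ≤ p) (hx0 : 0 ≤ x) (hx1 : x ≤ 1 / 4) (n r : ℕ)
    (hn : 16 ≤ n) (hp : p * n ≤ 1 + x) (hr : 1 ≤ r) :
    1 - (1 - p * min 1 (armB n x r)) ^ n ≤ min 1 (armB n x (r + 1)) := by
  have hn' : (16 : ℝ) ≤ n := by exact_mod_cast hn
  have hn0 : (0 : ℝ) < n := by linarith
  have hr' : (1 : ℝ) ≤ r := by exact_mod_cast hr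
  have hr0 : (0 : ℝ) < r := by linarith
  obtain ⟨y, hy⟩ : ∃ y : ℝ, y = x + 4 / n := ⟨_, rfl⟩
  have hy0 : 0 ≤ y := by rw [hy]; positivity
  have hA : armB n x r = 8 / r + 4 * y := by unfold armB; rw [hy]
  have hA' : armB n x (r + 1) = 8 / (r + 1) + 4 * y := by
    unfold armB; rw [hy]; push_cast; rfl
  obtain ⟨b, hb⟩ : ∃ b, b = min 1 (armB n x r) := ⟨_, rfl⟩
  have hb0 : 0 ≤ b := by
    rw [hb, hA]
    exact le_min zero_le_one (by positivity)
  have hb1 : b ≤ 1 := by rw [hb]; exact min_le_left _ _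
  rw [← hb, hA']
  have hpow := armB_pow p x b hp0 hx0 hx1 n hn hp hb0 hb1
  rw [← hy] at hpow
  have hmain : 1 - (1 - p * b) ^ n ≤ (1 + y) * b / (1 + (1 + y) * b / 2) := by
    have := armB_exp ((1 + y) * b) (by positivity)
    linarith
  apply le_min
  · have : 0 ≤ (1 - p * b) ^ n := (Real.exp_pos _).le.trans hpow
    linarith
  · rcases le_or_gt 1 (8 / ((r : ℝ) + 1) + 4 * y) with hbig | hsmall
    · have : 0 ≤ (1 - p * b) ^ n := (Real.exp_pos _).le.trans hpow
      linarith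
    · have hy1 : y < 1 / 4 := by
        have : 0 < 8 / ((r : ℝ) + 1) := by positivity
        linarith
      have hr8 : (8 : ℝ) ≤ r := by
        have h1 : 8 / ((r : ℝ) + 1) < 1 := by linarith
        rw [div_lt_one (by positivity)] at h1
        have h2 : (7 : ℝ) < r := by linarith
        have h3 : 7 < r := by exact_mod_cast h2
        exact_mod_cast h3
      refine hmain.trans ?_
      have hid : 8 / ((r : ℝ) + 1) = 8 / r - 8 / (r * (r + 1)) := by
        field_simp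
        ring
      rcases le_or_gt (armB n x r) 1 with hc | hc
      · have hbe : b = 8 / r + 4 * y := by rw [hb, min_eq_right hc, hA]
        have hden : 0 < 1 + (1 + y) * b / 2 := by positivity
        have hLb : (1 + y) * b ≤ 5 / 4 := by nlinarith
        rw [div_le_iff₀ hden, hid]
        -- `b - 8/(r(r+1))` times the denominator
        obtain ⟨s, hs⟩ : ∃ s : ℝ, s = 1 / r := ⟨_, rfl⟩
        have hs0 : 0 < s := by rw [hs]; positivity
        have hs8 : s ≤ 1 / 8 := by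
          rw [hs]
          exact one_div_le_one_div_of_le (by norm_num) hr8
        have h8r : 8 / (r : ℝ) = 8 * s := by rw [hs]; ring
        have hq : 8 / ((r : ℝ) * (r + 1)) ≤ 8 * s ^ 2 := by
          rw [hs, div_le_iff₀ (by positivity)]
          field_simp
          nlinarith
        have hbs : b = 8 * s + 4 * y := by rw [hbe, h8r]
        have hgoal : (1 + y) * b ≤ (b - 8 * s ^ 2) * (1 + (1 + y) * b / 2) := by
          have e1 : (b - 8 * s ^ 2) * (1 + (1 + y) * b / 2) - (1 + y) * b =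
              b * ((1 + y) * b / 2 - y) - 8 * s ^ 2 * (1 + (1 + y) * b / 2) := by ring
          have e2 : 8 * s ^ 2 * (1 + (1 + y) * b / 2) ≤ 8 * s ^ 2 * (13 / 8) := by
            apply mul_le_mul_of_nonneg_left (by linarith) (by positivity)
          have e3 : 4 * s ≤ (1 + y) * b / 2 - y := by
            have : b ≤ (1 + y) * b := by nlinarith
            linarith
          have e4 : 8 * s * (4 * s) ≤ b * ((1 + y) * b / 2 - y) :=
            mul_le_mul (by linarith) e3 (by positivity) (by linarith)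
          nlinarith
        have hle : b - 8 * s ^ 2 ≤ 8 / r - 8 / (r * (r + 1)) + 4 * y := by
          rw [hbe] at *
          linarith
        calc (1 + y) * b ≤ (b - 8 * s ^ 2) * (1 + (1 + y) * b / 2) := hgoal
          _ ≤ (8 / r - 8 / (r * (r + 1)) + 4 * y) * (1 + (1 + y) * b / 2) :=
            mul_le_mul_of_nonneg_right hle hden.le
      · have hbe : b = 1 := by rw [hb, min_eq_left hc.le]
        rw [hA] at hc
        rw [hbe, hid]
        have h1 : (1 + y) * 1 / (1 + (1 + y) * 1 / 2) ≤ 8 / 9 := by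
          rw [div_le_iff₀ (by positivity)]
          linarith
        have h2 : 8 / ((r : ℝ) * (r + 1)) ≤ 1 / 9 := by
          rw [div_le_iff₀ (by positivity)]
          nlinarith
        linarith

variable {V : Type} [Fintype V] [DecidableEq V]

/-- G8. One arm: `P(Arm W v r) ≤ min 1 (armB |V| x r)` by induction on `r ≥ 1` (for all `W`, `v`),
`arm_rec` with `m = |V|`, `arm_num`; `r = 1`: `armB ≥ 8`; `v ∉ W`: `arm_not_mem`. -/
theorem one_arm (p x : ℝ) (hp0 : 0 ≤ p) (hx0 : 0 ≤ x) (hx1 : x ≤ 1 / 4)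
    (hn : 16 ≤ Fintype.card V) (hp : p * Fintype.card V ≤ 1 + x) (W : Finset V) (v : V) (r : ℕ)
    (hr : 1 ≤ r) :
    PP (bern p) {ξ | Arm (bg ξ) W v r} ≤ armB (Fintype.card V) x r := by
  have hn' : (16 : ℝ) ≤ Fintype.card V := by exact_mod_cast hn
  have hp1 : p ≤ 1 := by nlinarith
  have hlaw := bern_law hp0 hp1
  have key : ∀ r : ℕ, 1 ≤ r → ∀ (W : Finset V) (v : V),
      PP (bern p) {ξ : Sym2 V → Bool | Arm (bg ξ) W v r} ≤
        min 1 (armB (Fintype.card V) x r) := by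
    intro r hr
    induction r, hr using Nat.le_induction with
    | base =>
      intro W v
      have h1 : min 1 (armB (Fintype.card V) x 1) = 1 := by
        apply min_eq_left
        unfold armB
        have : (0 : ℝ) ≤ 4 * (x + 4 / (Fintype.card V : ℝ)) := by positivity
        push_cast
        linarith
      rw [h1]
      exact PP_le_one hlaw _
    | succ r hr ih =>
      intro W v
      refine le_trans (arm_rec hp0 hp1 W v r (Fintype.card V)
        (min 1 (armB (Fintype.card V) x r)) ?_ (min_le_left _ _) (Finset.card_le_univ W)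
        fun w _ => ih _ w) (arm_num p x hp0 hx0 hx1 (Fintype.card V) r hn hp hr)
      apply le_min zero_le_one
      unfold armB
      positivity
  exact (key r hr W v).trans (min_le_right _ _)

end RST.G
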