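import Pool.Agent.Lib.MP_7946c7_pr.G.BasB

/-!
# Stream G, job BK: the van den Berg - Kesten inequality for `p ≤ 1/2`
-/

set_option autoImplicit false

open Finset

namespace RST.G

/-- sections of an event in one coordinate -/
def sec {ι : Type} (x : Bool) (A : Set (Option ι → Bool)) : Set (ι → Bool) :=
  {b | (fun o : Option ι => o.elim x b) ∈ A}

theorem PP_option {ι : Type} [Fintype ι] {p : ℝ} (A : Set (Option ι → Bool)) :
    PP (bern p) A = p * PP (bern p) (sec true A) + (1 - p) * PP (bern p) (sec false A) := by
  classical
  rw [PP_eq, EE_option, PP_eq, PP_eq, Fintype.sum_bool]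
  have e1 : bern p true = p := by simp [bern]
  have e2 : bern p false = 1 - p := by simp [bern]
  rw [e1, e2]
  rfl

private theorem bk_sec_inc {ι : Type} {A : Set (Option ι → Bool)} (hA : Inc A) (x : Bool) :
    Inc (sec x A) := by
  intro ξ ξ' h hξ
  refine hA _ _ ?_ hξ
  intro e he
  cases e with
  | none => exact he
  | some e => exact h e he

private theorem bk_sec_mono {ι : Type} {A : Set (Option ι → Bool)} (hA : Inc A) :
    sec false A ⊆ sec true A := by
  intro ξ hξ
  refine hA _ _ ?_ hξ
  intro e he
  cases e with
  | none => rfl
  | some e => exact he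

private theorem bk_box_mono {ι : Type} {A A' B B' : Set (ι → Bool)} (hA : A ⊆ A') (hB : B ⊆ B') :
    Box A B ⊆ Box A' B' := by
  rintro ξ ⟨η, h1, h2, h3⟩
  exact ⟨η, h1, hA h2, hB h3⟩

private theorem bk_sec_false {ι : Type} (A B : Set (Option ι → Bool)) :
    sec false (Box A B) ⊆ Box (sec false A) (sec false B) := by
  rintro b ⟨η, h1, h2, h3⟩
  have h0 : η none = false := by
    by_contra h
    have h4 : η none = true := by simpa using h
    exact absurd (h1 none h4) (by simp)
  refine ⟨fun i => η (some i), fun e he => h1 (some e) he, ?_, ?_⟩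
  · show (fun o : Option ι => o.elim false fun i => η (some i)) ∈ A
    have h5 : (fun o : Option ι => o.elim false fun i => η (some i)) = η := by
      funext o
      cases o with
      | none => exact h0.symm
      | some i => rfl
    rw [h5]
    exact h2
  · show (fun o : Option ι => o.elim false fun i => (b i && !η (some i))) ∈ B
    have h5 : (fun o : Option ι => o.elim false fun i => (b i && !η (some i))) =
        fun e : Option ι => (e.elim false b && !η e) := by
      funext o
      cases o with
      | none => simp
      | some i => rfl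
    rw [h5]
    exact h3

private theorem bk_sec_true {ι : Type} (A B : Set (Option ι → Bool)) :
    sec true (Box A B) ⊆ Box (sec true A) (sec false B) ∪ Box (sec false A) (sec true B) := by
  rintro b ⟨η, h1, h2, h3⟩
  cases h0 : η none with
  | true =>
    left
    refine ⟨fun i => η (some i), fun e he => h1 (some e) he, ?_, ?_⟩
    · show (fun o : Option ι => o.elim true fun i => η (some i)) ∈ A
      have h5 : (fun o : Option ι => o.elim true fun i => η (some i)) = η := by
        funext o
        cases o with
        | none => exact h0.symm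
        | some i => rfl
      rw [h5]
      exact h2
    · show (fun o : Option ι => o.elim false fun i => (b i && !η (some i))) ∈ B
      have h5 : (fun o : Option ι => o.elim false fun i => (b i && !η (some i))) =
          fun e : Option ι => (e.elim true b && !η e) := by
        funext o
        cases o with
        | none => simp [h0]
        | some i => rfl
      rw [h5]
      exact h3
  | false =>
    right
    refine ⟨fun i => η (some i), fun e he => h1 (some e) he, ?_, ?_⟩
    · show (fun o : Option ι => o.elim false fun i => η (some i)) ∈ A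
      have h5 : (fun o : Option ι => o.elim false fun i => η (some i)) = η := by
        funext o
        cases o with
        | none => exact h0.symm
        | some i => rfl
      rw [h5]
      exact h2
    · show (fun o : Option ι => o.elim true fun i => (b i && !η (some i))) ∈ B
      have h5 : (fun o : Option ι => o.elim true fun i => (b i && !η (some i))) =
          fun e : Option ι => (e.elim true b && !η e) := by
        funext o
        cases o with
        | none => simp [h0]
        | some i => rfl
      rw [h5]
      exact h3

private theorem bk_union {ι : Type} [Fintype ι] {p : ℝ} (hp0 : 0 ≤ p) (hp1 : p ≤ 1)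
    (S T D : Set (ι → Bool)) (hS : D ⊆ S) (hT : D ⊆ T) :
    PP (bern p) (S ∪ T) + PP (bern p) D ≤ PP (bern p) S + PP (bern p) T := by
  classical
  have hq := bern_law hp0 hp1
  rw [PP_eq, PP_eq, PP_eq, PP_eq, ← EE_add, ← EE_add]
  apply EE_mono hq
  intro b
  by_cases h1 : b ∈ S <;> by_cases h2 : b ∈ T <;> by_cases h3 : b ∈ D
  · simp [h1, h2, h3]
  · simp [h1, h2, h3]
  · exact absurd (hT h3) h2
  · simp [h1, h2, h3]
  · exact absurd (hS h3) h1
  · simp [h1, h2, h3]
  · exact absurd (hS h3) h1
  · simp [h1, h2, h3]

/-- BK, `0 ≤ p ≤ 1/2`.  `Fintype.induction_empty_option` (`EE_equiv` for the equivalences; for the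
empty set both sides are products of indicators).  Step: let `A0, A1, B0, B1` be the sections.
`sec false (Box A B) = Box A0 B0`, `sec true (Box A B) = Box A1 B0 ∪ Box A0 B1` (the open edge is
used by one of the two), and `Box A0 B0 ⊆ Box A1 B0 ∩ Box A0 B1` (`A0 ⊆ A1`, `B0 ⊆ B1`).  So
`P(Box A B) ≤ (1-p) D + p (P(Box A1 B0) + P(Box A0 B1) - D)`, `D = P(Box A0 B0)`
(`P(S ∪ T) ≤ P(S) + P(T) - P(D')` for `D' ⊆ S ∩ T`), `1 - 2p ≥ 0`, induction hypothesis three
times, and with `a0 ≤ a1`, `b0 ≤ b1` the probabilities:
`((1-p)a0 + p a1)((1-p)b0 + p b1) - ((1-2p) a0 b0 + p (a1 b0 + a0 b1)) = p² (a1-a0)(b1-b0) ≥ 0`. -/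
theorem bk {ι : Type} [Fintype ι] {p : ℝ} (hp0 : 0 ≤ p) (hp : p ≤ 1 / 2)
    (A B : Set (ι → Bool)) (hA : Inc A) (hB : Inc B) :
    PP (bern p) (Box A B) ≤ PP (bern p) A * PP (bern p) B := by
  have hp1 : p ≤ 1 := by linarith
  have hq := bern_law hp0 hp1
  have key : ∀ (κ : Type) [Fintype κ], ∀ (A B : Set (κ → Bool)), Inc A → Inc B →
      PP (bern p) (Box A B) ≤ PP (bern p) A * PP (bern p) B := by
    intro κ hκ
    refine Fintype.induction_empty_option
      (P := fun (κ : Type) [Fintype κ] => ∀ (A B : Set (κ → Bool)), Inc A → Inc B →
      PP (bern p) (Box A B) ≤ PP (bern p) A * PP (bern p) B) ?_ ?_ ?_ κ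
    · intro α β hβ e ih A B hA hB
      letI : Fintype α := Fintype.ofEquiv β e.symm
      have tr : ∀ S : Set (β → Bool), PP (bern p) S =
          PP (bern p) {b : α → Bool | (fun k => b (e.symm k)) ∈ S} := by
        intro S
        classical
        rw [PP_eq, PP_eq, EE_equiv e]
        rfl
      have inc : ∀ S : Set (β → Bool), Inc S → Inc {b : α → Bool | (fun k => b (e.symm k)) ∈ S} := by
        intro S hS ξ ξ' h hξ
        exact hS _ _ (fun k hk => h _ hk) hξ
      rw [tr A, tr B, tr (Box A B)]
      refine le_trans (PP_mono hq ?_) (ih _ _ (inc A hA) (inc B hB))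
      rintro ξ ⟨η, h1, h2, h3⟩
      refine ⟨fun a => η (e a), ?_, ?_, ?_⟩
      · intro a ha
        have h4 := h1 (e a) ha
        simpa using h4
      · show (fun k => η (e (e.symm k))) ∈ A
        simpa using h2
      · show (fun k => (ξ (e.symm k) && !η (e (e.symm k)))) ∈ B
        simpa using h3
    · intro A B _ _
      by_cases hne : (Box A B).Nonempty
      · obtain ⟨ξ, η, _, h2, h3⟩ := hne
        have hAu : A = Set.univ := by
          ext x
          have hx : x = η := by funext i; exact i.elim
          rw [hx]
          simp [h2]
        have hBu : B = Set.univ := by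
          ext x
          have hx : x = (fun e => ξ e && !η e) := by funext i; exact i.elim
          rw [hx]
          simp [h3]
        have h1 : PP (bern p) (Set.univ : Set (PEmpty → Bool)) = 1 := by
          have h4 := PP_compl hq (∅ : Set (PEmpty → Bool))
          rw [PP_empty, Set.compl_empty, sub_zero] at h4
          exact h4
        rw [hAu, hBu, h1, one_mul]
        exact PP_le_one hq _
      · rw [Set.not_nonempty_iff_eq_empty] at hne
        rw [hne, PP_empty]
        exact mul_nonneg (PP_nonneg hq _) (PP_nonneg hq _)
    · intro α hα ih A B hA hB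
      have i1 := ih (sec true A) (sec false B) (bk_sec_inc hA true) (bk_sec_inc hB false)
      have i2 := ih (sec false A) (sec true B) (bk_sec_inc hA false) (bk_sec_inc hB true)
      have i3 := ih (sec false A) (sec false B) (bk_sec_inc hA false) (bk_sec_inc hB false)
      have m1 := PP_mono hq (bk_sec_false A B)
      have m2 := PP_mono hq (bk_sec_true A B)
      have m3 := bk_union hp0 hp1 (Box (sec true A) (sec false B)) (Box (sec false A) (sec true B))
        (Box (sec false A) (sec false B)) (bk_box_mono (bk_sec_mono hA) subset_rfl)
        (bk_box_mono subset_rfl (bk_sec_mono hB))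
      have ma := PP_mono hq (bk_sec_mono hA)
      have mb := PP_mono hq (bk_sec_mono hB)
      rw [PP_option (Box A B), PP_option A, PP_option B]
      generalize PP (bern p) (sec true A) = a1 at *
      generalize PP (bern p) (sec false A) = a0 at *
      generalize PP (bern p) (sec true B) = b1 at *
      generalize PP (bern p) (sec false B) = b0 at *
      generalize PP (bern p) (Box (sec true A) (sec false B)) = s1 at *
      generalize PP (bern p) (Box (sec false A) (sec true B)) = s2 at *
      generalize PP (bern p) (Box (sec false A) (sec false B)) = D at *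
      generalize PP (bern p) (sec true (Box A B)) = t1 at *
      generalize PP (bern p) (sec false (Box A B)) = t0 at *
      generalize PP (bern p) (Box (sec true A) (sec false B) ∪
        Box (sec false A) (sec true B)) = U at *
      have h1 : p * t1 + (1 - p) * t0 ≤ p * (s1 + s2 - D) + (1 - p) * D := by
        have h2 : t1 ≤ s1 + s2 - D := by linarith
        have h3 := mul_le_mul_of_nonneg_left h2 hp0
        have h4 := mul_le_mul_of_nonneg_left m1 (by linarith : 0 ≤ 1 - p)
        linarith
      have h2 : p * (s1 + s2 - D) + (1 - p) * D ≤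
          p * (a1 * b0 + a0 * b1) + (1 - 2 * p) * (a0 * b0) := by
        have h3 := mul_le_mul_of_nonneg_left (add_le_add i1 i2) hp0
        have h4 := mul_le_mul_of_nonneg_left i3 (by linarith : 0 ≤ 1 - 2 * p)
        linarith
      have h3 : 0 ≤ p ^ 2 * ((a1 - a0) * (b1 - b0)) := by
        apply mul_nonneg (sq_nonneg p)
        exact mul_nonneg (by linarith) (by linarith)
      have h4 : (p * a1 + (1 - p) * a0) * (p * b1 + (1 - p) * b0) =
          p * (a1 * b0 + a0 * b1) + (1 - 2 * p) * (a0 * b0) +
          p ^ 2 * ((a1 - a0) * (b1 - b0)) := by ring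
      linarith
  exact key ι A B hA hB

end RST.G
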