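import Pool.Agent.Lib.MP_7946c7_pr.G.ArmB
import Pool.Agent.Lib.MP_7946c7_pr.G.BK

/-!
# Stream G, job ArmC: disjoint arms (BK)
-/

set_option autoImplicit false

open Finset

namespace RST.G

variable {V : Type} [Fintype V] [DecidableEq V]

private lemma armC_inc (W ws : Finset V) (r : ℕ) :
    Inc {ξ : Sym2 V → Bool | DisjArms (bg ξ) W ws r} := by
  rintro ξ ξ' h ⟨γ, h1, h2⟩
  refine ⟨γ, fun w hw => ?_, h2⟩
  obtain ⟨h3, h4, h5⟩ := h1 w hw
  exact ⟨h3, ⟨fun i hi => ⟨(h4.1 i hi).1, h _ (h4.1 i hi).2⟩, h4.2⟩, h5⟩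

open Classical in
private lemma armC_step (W ws : Finset V) (w : V) (r : ℕ) (hw : w ∉ ws)
    (ξ : Sym2 V → Bool) (hξ : DisjArms (bg ξ) W (insert w ws) r) :
    ξ ∈ Box {ξ : Sym2 V → Bool | Arm (bg ξ) W w r} {ξ : Sym2 V → Bool | DisjArms (bg ξ) W ws r} := by
  obtain ⟨γ, h1, h2⟩ := hξ
  obtain ⟨h3, h4, h5⟩ := h1 w (Finset.mem_insert_self w ws)
  refine ⟨fun e => decide (∃ i < r, e = s(γ w i, γ w (i + 1))), ?_, ?_, ?_⟩
  · intro e he
    obtain ⟨i, hi, rfl⟩ := of_decide_eq_true he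
    exact (h4.1 i hi).2
  · refine ⟨γ w, h3, ⟨fun i hi => ⟨(h4.1 i hi).1, ?_⟩, h4.2⟩, h5⟩
    exact decide_eq_true ⟨i, hi, rfl⟩
  · refine ⟨γ, fun w' hw' => ?_, fun w' hw' w'' hw'' => h2 w' (Finset.mem_insert_of_mem hw') w''
      (Finset.mem_insert_of_mem hw'')⟩
    obtain ⟨h6, h7, h8⟩ := h1 w' (Finset.mem_insert_of_mem hw')
    refine ⟨h6, ⟨fun i hi => ⟨(h7.1 i hi).1, ?_⟩, h7.2⟩, h8⟩
    have hne : w' ≠ w := fun h => hw (h ▸ hw')
    have hno : ¬ ∃ j < r, s(γ w' i, γ w' (i + 1)) = s(γ w j, γ w (j + 1)) := by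
      rintro ⟨j, hj, hij⟩
      have hd := h2 w' (Finset.mem_insert_of_mem hw') w (Finset.mem_insert_self w ws) hne
      rcases Sym2.eq_iff.1 hij with ⟨h9, _⟩ | ⟨h9, _⟩
      · exact hd i (by omega) j (by omega) h9
      · exact hd i (by omega) (j + 1) (by omega) h9
    show (ξ s(γ w' i, γ w' (i + 1)) && !decide (∃ j < r, s(γ w' i, γ w' (i + 1)) =
      s(γ w j, γ w (j + 1)))) = true
    rw [decide_eq_false hno, (h7.1 i hi).2]
    rfl

private lemma armC_p (p x : ℝ) (hp0 : 0 ≤ p) (hx1 : x ≤ 1 / 4)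
    (hn : 16 ≤ Fintype.card V) (hp : p * Fintype.card V ≤ 1 + x) : p ≤ 1 / 2 := by
  have hn' : (16 : ℝ) ≤ Fintype.card V := by exact_mod_cast hn
  nlinarith

private lemma armC_nonneg (x : ℝ) (hx0 : 0 ≤ x) (n r : ℕ) : 0 ≤ armB n x r := by
  unfold armB
  positivity

/-- G8. Disjoint arms from given vertices.  Induction on `ws`: `ws = ∅`: `PP ≤ 1`.  For
`insert w ws` (`w ∉ ws`) the event is contained in `Box (Arm … w) (DisjArms … ws)`: take for `η` the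
set of the edges `s(γ w i, γ w (i+1))`, `i < r`, of the arm of `w`; the other arms use other edges
(disjoint vertex sets), so they survive in `ξ && !η`.  Both events are increasing (`inc_arm`;
`DisjArms` is monotone in the relation).  `bk` (`p ≤ 1/2` since `p |V| ≤ 5/4`, `|V| ≥ 16`),
`one_arm`, `0 ≤ armB`. -/
theorem disj_arms (p x : ℝ) (hp0 : 0 ≤ p) (hx0 : 0 ≤ x) (hx1 : x ≤ 1 / 4)
    (hn : 16 ≤ Fintype.card V) (hp : p * Fintype.card V ≤ 1 + x) (W : Finset V) (ws : Finset V)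
    (r : ℕ) (hr : 1 ≤ r) :
    PP (bern p) {ξ | DisjArms (bg ξ) W ws r} ≤ armB (Fintype.card V) x r ^ ws.card := by
  classical
  have hp2 := armC_p p x hp0 hx1 hn hp
  have hlaw := bern_law hp0 (by linarith : p ≤ 1)
  induction ws using Finset.induction_on with
  | empty =>
    rw [Finset.card_empty, pow_zero]
    exact PP_le_one hlaw _
  | insert w ws hw ih =>
    rw [Finset.card_insert_of_notMem hw, pow_succ, mul_comm]
    calc PP (bern p) {ξ | DisjArms (bg ξ) W (insert w ws) r} ≤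
          PP (bern p) (Box {ξ : Sym2 V → Bool | Arm (bg ξ) W w r}
            {ξ : Sym2 V → Bool | DisjArms (bg ξ) W ws r}) :=
          PP_mono hlaw fun ξ hξ => armC_step W ws w r hw ξ hξ
      _ ≤ PP (bern p) {ξ : Sym2 V → Bool | Arm (bg ξ) W w r} *
          PP (bern p) {ξ : Sym2 V → Bool | DisjArms (bg ξ) W ws r} :=
          bk hp0 hp2 _ _ (inc_arm W w r) (armC_inc W ws r)
      _ ≤ armB (Fintype.card V) x r * armB (Fintype.card V) x r ^ ws.card :=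
          mul_le_mul (one_arm p x hp0 hx0 hx1 hn hp W w r hr) ih (PP_nonneg hlaw _)
            (armC_nonneg x hx0 _ r)

/-- G8. Two arms from the same vertex, disjoint except for this vertex: the event is contained in
`Box (Arm univ v r) (Arm univ v r)` (a common edge would give two common vertices, but the only
common vertex is `v`, of index `0` on both). -/
theorem two_arms (p x : ℝ) (hp0 : 0 ≤ p) (hx0 : 0 ≤ x) (hx1 : x ≤ 1 / 4)
    (hn : 16 ≤ Fintype.card V) (hp : p * Fintype.card V ≤ 1 + x) (v : V)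
    (r : ℕ) (hr : 1 ≤ r) :
    PP (bern p) {ξ | ∃ γ γ' : ℕ → V, γ 0 = v ∧ γ' 0 = v ∧ IsSAW (bg ξ) γ r ∧ IsSAW (bg ξ) γ' r ∧
      ∀ i ≤ r, ∀ j ≤ r, γ i = γ' j → i = 0 ∧ j = 0} ≤ armB (Fintype.card V) x r ^ 2 := by
  classical
  have hp2 := armC_p p x hp0 hx1 hn hp
  have hlaw := bern_law hp0 (by linarith : p ≤ 1)
  have h1 := one_arm p x hp0 hx0 hx1 hn hp univ v r hr
  have hsub : {ξ : Sym2 V → Bool | ∃ γ γ' : ℕ → V, γ 0 = v ∧ γ' 0 = v ∧ IsSAW (bg ξ) γ r ∧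
      IsSAW (bg ξ) γ' r ∧ ∀ i ≤ r, ∀ j ≤ r, γ i = γ' j → i = 0 ∧ j = 0} ⊆
      Box {ξ : Sym2 V → Bool | Arm (bg ξ) univ v r} {ξ : Sym2 V → Bool | Arm (bg ξ) univ v r} := by
    rintro ξ ⟨γ, γ', h0, h0', hγ, hγ', hd⟩
    refine ⟨fun e => decide (∃ i < r, e = s(γ i, γ (i + 1))), ?_, ?_, ?_⟩
    · intro e he
      obtain ⟨i, hi, rfl⟩ := of_decide_eq_true he
      exact (hγ.1 i hi).2
    · refine ⟨γ, h0, ⟨fun i hi => ⟨(hγ.1 i hi).1, ?_⟩, hγ.2⟩, fun i _ => mem_univ _⟩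
      exact decide_eq_true ⟨i, hi, rfl⟩
    · refine ⟨γ', h0', ⟨fun j hj => ⟨(hγ'.1 j hj).1, ?_⟩, hγ'.2⟩, fun i _ => mem_univ _⟩
      have hno : ¬ ∃ i < r, s(γ' j, γ' (j + 1)) = s(γ i, γ (i + 1)) := by
        rintro ⟨i, hi, hij⟩
        rcases Sym2.eq_iff.1 hij with ⟨_, h9⟩ | ⟨h9, _⟩
        · have := hd (i + 1) (by omega) (j + 1) (by omega) h9.symm
          omega
        · have := hd (i + 1) (by omega) j (by omega) h9.symm
          omega
      show (ξ s(γ' j, γ' (j + 1)) && !decide (∃ i < r, s(γ' j, γ' (j + 1)) =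
        s(γ i, γ (i + 1)))) = true
      rw [decide_eq_false hno, (hγ'.1 j hj).2]
      rfl
  calc _ ≤ _ := PP_mono hlaw hsub
    _ ≤ PP (bern p) {ξ : Sym2 V → Bool | Arm (bg ξ) univ v r} *
        PP (bern p) {ξ : Sym2 V → Bool | Arm (bg ξ) univ v r} :=
        bk hp0 hp2 _ _ (inc_arm univ v r) (inc_arm univ v r)
    _ ≤ armB (Fintype.card V) x r * armB (Fintype.card V) x r :=
        mul_le_mul h1 h1 (PP_nonneg hlaw _) (armC_nonneg x hx0 _ r)
    _ = armB (Fintype.card V) x r ^ 2 := by ring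

end RST.G
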