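import Pool.Agent.Lib.MP_7946c7_pr.G.IndA

/-!
# Stream G, job BallA: layered exploration

`nb R L W` = the vertices of `W` adjacent to `L`; `bex R 0 L W = L`,
`bex R (j+1) L W = L ∪ bex R j (nb R L W) (W \ nb R L W)` (G/Defs.lean).
-/

set_option autoImplicit false

open Finset

namespace RST.G

variable {V : Type} [Fintype V] [DecidableEq V]

omit [Fintype V] in
private theorem ballA_zero (R : V → V → Prop) (L W : Finset V) : bex R 0 L W = L := rfl

omit [Fintype V] in
private theorem ballA_succ (R : V → V → Prop) (j : ℕ) (L W : Finset V) :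
    bex R (j + 1) L W = L ∪ bex R j (nb R L W) (W \ nb R L W) := by
  obtain rfl : ‹DecidableEq V› = fun a b => Classical.propDecidable (a = b) := Subsingleton.elim _ _
  rw [bex]

omit [Fintype V] [DecidableEq V] in
private theorem ballA_mem_nb (R : V → V → Prop) (L W : Finset V) (w : V) :
    w ∈ nb R L W ↔ w ∈ W ∧ ∃ u ∈ L, R u w := by
  simp only [nb, Finset.mem_filter]

omit [Fintype V] in
private theorem ballA_bex_subset (R : V → V → Prop) (j : ℕ) :
    ∀ L W : Finset V, bex R j L W ⊆ L ∪ W := by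
  induction j with
  | zero => intro L W; rw [ballA_zero]; exact Finset.subset_union_left
  | succ j ih =>
    intro L W x hx
    rw [ballA_succ, Finset.mem_union] at hx
    rw [Finset.mem_union]
    rcases hx with hx | hx
    · exact Or.inl hx
    · right
      have h1 := ih _ _ hx
      rw [Finset.mem_union, Finset.mem_sdiff] at h1
      rcases h1 with h1 | h1
      · exact ((ballA_mem_nb R L W x).1 h1).1
      · exact h1.1

theorem bex_subset (R : V → V → Prop) (j : ℕ) (L W : Finset V) : bex R j L W ⊆ L ∪ W :=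
  ballA_bex_subset R j L W

private theorem ballA_sub (R : V → V → Prop) (j : ℕ) (L W : Finset V) :
    bex R j (nb R L W) (W \ nb R L W) ⊆ W := by
  intro x hx
  have h1 := ballA_bex_subset R j _ _ hx
  rw [Finset.mem_union, Finset.mem_sdiff] at h1
  rcases h1 with h1 | h1
  · exact ((ballA_mem_nb R L W x).1 h1).1
  · exact h1.1

theorem card_bex_succ (R : V → V → Prop) (j : ℕ) (L W : Finset V) (hLW : Disjoint L W) :
    (bex R (j + 1) L W).card = L.card + (bex R j (nb R L W) (W \ nb R L W)).card := by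
  rw [ballA_succ, Finset.card_union_of_disjoint]
  exact hLW.mono_right (ballA_sub R j L W)

/-- Induction on `r` (for all `L`, `W`): a walk `γ 0 ∈ L, …, γ ℓ` in `L ∪ W` of length `ℓ ≤ r` ends
in `bex R r L W`.  If `γ ℓ ∉ L` let `i < ℓ` be the last index with `γ i ∈ L`: `γ (i+1)` is in `W`,
adjacent to `L`, and the rest of the walk is in `W`. -/
theorem walk_bex (R : V → V → Prop) (r : ℕ) (L W : Finset V) (γ : ℕ → V) (ℓ : ℕ) (hℓ : ℓ ≤ r)
    (h0 : γ 0 ∈ L) (hR : ∀ i < ℓ, R (γ i) (γ (i + 1))) (hW : ∀ i ≤ ℓ, γ i ∈ L ∪ W) :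
    γ ℓ ∈ bex R r L W := by
  induction r generalizing L W γ ℓ with
  | zero =>
    have h1 : ℓ = 0 := by omega
    subst h1
    rw [ballA_zero]
    exact h0
  | succ r ih =>
    rw [ballA_succ, Finset.mem_union]
    by_cases hl : γ ℓ ∈ L
    · exact Or.inl hl
    right
    -- last index in L
    obtain ⟨i, hi, hiL, hilast⟩ : ∃ i, i < ℓ ∧ γ i ∈ L ∧ ∀ j, i < j → j ≤ ℓ → γ j ∉ L := by
      have hne : ((Finset.range (ℓ + 1)).filter fun i => γ i ∈ L).Nonempty :=
        ⟨0, by rw [Finset.mem_filter]; exact ⟨by simp, h0⟩⟩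
      refine ⟨((Finset.range (ℓ + 1)).filter fun i => γ i ∈ L).max' hne, ?_, ?_, ?_⟩
      · have h1 := Finset.max'_mem _ hne
        rw [Finset.mem_filter, Finset.mem_range] at h1
        rcases Nat.lt_succ_iff_lt_or_eq.1 h1.1 with h2 | h2
        · exact h2
        · rw [h2] at h1
          exact absurd h1.2 hl
      · have h1 := Finset.max'_mem _ hne
        rw [Finset.mem_filter] at h1
        exact h1.2
      · intro j hj hjl hjL
        have h1 := Finset.le_max' ((Finset.range (ℓ + 1)).filter fun i => γ i ∈ L) j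
          (by rw [Finset.mem_filter, Finset.mem_range]; exact ⟨by omega, hjL⟩)
        omega
    have hWj : ∀ j, i < j → j ≤ ℓ → γ j ∈ W := by
      intro j h1 h2
      have h3 := hW j h2
      rw [Finset.mem_union] at h3
      rcases h3 with h3 | h3
      · exact absurd h3 (hilast j h1 h2)
      · exact h3
    have h1 := ih (nb R L W) (W \ nb R L W) (fun k => γ (i + 1 + k)) (ℓ - (i + 1)) (by omega)
      (by
        rw [ballA_mem_nb]
        exact ⟨hWj _ (by omega) (by omega), γ i, hiL, hR i hi⟩)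
      (by
        intro k hk
        have h2 := hR (i + 1 + k) (by omega)
        exact h2)
      (by
        intro k hk
        have h2 := hWj (i + 1 + k) (by omega) (by omega)
        rw [Finset.mem_union, Finset.mem_sdiff]
        by_cases h3 : γ (i + 1 + k) ∈ nb R L W
        · exact Or.inl h3
        · exact Or.inr ⟨h2, h3⟩)
    have h2 : i + 1 + (ℓ - (i + 1)) = ℓ := by omega
    simp only [h2] at h1
    exact h1

theorem ball_subset (R : V → V → Prop) (v : V) (r : ℕ) :
    ball R v r ⊆ bex R r {v} (univ.erase v) := by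
  intro w hw
  simp only [ball, Finset.mem_filter] at hw
  obtain ⟨_, γ, ℓ, hℓ, h0, h1, h2⟩ := hw
  rw [← h1]
  apply walk_bex R r _ _ γ ℓ hℓ
  · rw [h0]; simp
  · exact h2
  · intro i _
    rw [Finset.mem_union, Finset.mem_singleton, Finset.mem_erase]
    by_cases h : γ i = v
    · exact Or.inl h
    · exact Or.inr ⟨h, Finset.mem_univ _⟩

omit [Fintype V] in
/-- the exploration depends only on the relation inside `L ∪ W` -/
private theorem ballA_congr (R R' : V → V → Prop) (j : ℕ) :
    ∀ L W : Finset V, (∀ u ∈ L ∪ W, ∀ w ∈ W, R u w ↔ R' u w) → bex R j L W = bex R' j L W := by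
  induction j with
  | zero => intro L W _; rfl
  | succ j ih =>
    intro L W h
    have h1 : nb R L W = nb R' L W := by
      ext w
      rw [ballA_mem_nb, ballA_mem_nb]
      constructor
      · rintro ⟨hw, u, hu, hR⟩
        exact ⟨hw, u, hu, (h u (Finset.mem_union_left _ hu) w hw).1 hR⟩
      · rintro ⟨hw, u, hu, hR⟩
        exact ⟨hw, u, hu, (h u (Finset.mem_union_left _ hu) w hw).2 hR⟩
    rw [ballA_succ, ballA_succ, h1]
    congr 1
    apply ih
    intro u hu w hw
    apply h
    · rw [Finset.mem_union, Finset.mem_sdiff, ballA_mem_nb] at hu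
      apply Finset.mem_union_right
      rcases hu with hu | hu
      · exact hu.1
      · exact hu.1
    · exact (Finset.mem_sdiff.1 hw).1

/-- the indicator that the vertex `w` has (or has not) an open edge to `L` -/
private noncomputable def ballA_phi (L N : Finset V) (w : V) (ξ : Sym2 V → Bool) : ℝ :=
  if w ∈ N then 1 - ∏ u ∈ L, (if ξ s(u, w) = true then (0 : ℝ) else 1)
  else ∏ u ∈ L, (if ξ s(u, w) = true then (0 : ℝ) else 1)

open Classical in
private theorem ballA_phi_val (L N W : Finset V) (w : V) (hw : w ∈ W) (hLW : Disjoint L W)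
    (ξ : Sym2 V → Bool) :
    ballA_phi L N w ξ = if (w ∈ N ↔ ∃ u ∈ L, bg ξ u w) then (1 : ℝ) else 0 := by
  classical
  have hiff : (∃ u ∈ L, bg ξ u w) ↔ ∃ u ∈ L, ξ s(u, w) = true := by
    constructor
    · rintro ⟨u, hu, h1⟩
      exact ⟨u, hu, h1.2⟩
    · rintro ⟨u, hu, h1⟩
      refine ⟨u, hu, ?_, h1⟩
      rintro rfl
      exact Finset.disjoint_left.1 hLW hu hw
  have hprod : (∏ u ∈ L, (if ξ s(u, w) = true then (0 : ℝ) else 1)) =
      if ∃ u ∈ L, ξ s(u, w) = true then (0 : ℝ) else 1 := by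
    by_cases h : ∃ u ∈ L, ξ s(u, w) = true
    · rw [if_pos h]
      obtain ⟨u, hu, h1⟩ := h
      exact Finset.prod_eq_zero hu (if_pos h1)
    · rw [if_neg h]
      apply Finset.prod_eq_one
      intro u hu
      rw [if_neg (fun h1 => h ⟨u, hu, h1⟩)]
  unfold ballA_phi
  rw [hprod]
  by_cases h1 : w ∈ N <;> by_cases h2 : ∃ u ∈ L, ξ s(u, w) = true
  · rw [if_pos h1, if_pos h2, if_pos (iff_of_true h1 (hiff.2 h2))]; ring
  · rw [if_pos h1, if_neg h2, if_neg (fun h => h2 (hiff.1 (h.1 h1)))]; ring
  · rw [if_neg h1, if_pos h2, if_neg (fun h => h1 (h.2 (hiff.2 h2)))]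
  · rw [if_neg h1, if_neg h2, if_pos (iff_of_false h1 (fun h => h2 (hiff.1 h)))]

private theorem ballA_phi_EE {p : ℝ} (hp0 : 0 ≤ p) (hp1 : p ≤ 1) (L N W : Finset V) (w : V)
    (hw : w ∈ W) (hLW : Disjoint L W) :
    EE (bern p) (ballA_phi L N w) =
      if w ∈ N then 1 - (1 - p) ^ L.card else (1 - p) ^ L.card := by
  classical
  have hq := bern_law hp0 hp1
  have hinj : Set.InjOn (fun u => s(u, w)) (L : Set V) := by
    intro u hu u' hu' h
    simp only [Sym2.eq_iff] at h
    rcases h with h | h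
    · exact h.1
    · exfalso
      rw [h.1] at hu
      exact Finset.disjoint_left.1 hLW hu hw
  have h1 : EE (bern p) (fun ξ : Sym2 V → Bool => ∏ u ∈ L, (if ξ s(u, w) = true then (0 : ℝ) else 1))
      = (1 - p) ^ L.card := by
    have h2 : ∀ ξ : Sym2 V → Bool, (∏ u ∈ L, (if ξ s(u, w) = true then (0 : ℝ) else 1)) =
        ∏ e ∈ L.image (fun u => s(u, w)), (fun (_ : Sym2 V) (x : Bool) =>
          (if x = true then (0 : ℝ) else 1)) e (ξ e) := by
      intro ξ
      rw [Finset.prod_image hinj]
    rw [EE_congr h2, EE_coord hq (L.image (fun u => s(u, w)))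
      (fun (_ : Sym2 V) (x : Bool) => (if x = true then (0 : ℝ) else 1))]
    rw [Finset.prod_image hinj]
    have h3 : (∑ x : Bool, bern p x * (if x = true then (0 : ℝ) else 1)) = 1 - p := by
      rw [Fintype.sum_bool]
      simp [bern]
    rw [Finset.prod_congr rfl fun u _ => h3, Finset.prod_const]
  by_cases hN : w ∈ N
  · rw [if_pos hN]
    have h2 : ∀ ξ : Sym2 V → Bool, ballA_phi L N w ξ =
        1 - ∏ u ∈ L, (if ξ s(u, w) = true then (0 : ℝ) else 1) := by
      intro ξ
      unfold ballA_phi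
      rw [if_pos hN]
    rw [EE_congr h2, EE_sub, h1, EE_const hq]
  · rw [if_neg hN]
    have h2 : ∀ ξ : Sym2 V → Bool, ballA_phi L N w ξ =
        ∏ u ∈ L, (if ξ s(u, w) = true then (0 : ℝ) else 1) := by
      intro ξ
      unfold ballA_phi
      rw [if_neg hN]
    rw [EE_congr h2, h1]

private theorem ballA_phi_prod {p : ℝ} (hp0 : 0 ≤ p) (hp1 : p ≤ 1) (L N W : Finset V)
    (hLW : Disjoint L W) (W' : Finset V) (hW' : W' ⊆ W) :
    EE (bern p) (fun ξ => ∏ w ∈ W', ballA_phi L N w ξ) =
      ∏ w ∈ W', EE (bern p) (ballA_phi L N w) := by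
  classical
  have hq := bern_law hp0 hp1
  induction W' using Finset.induction_on with
  | empty => simp [EE_const hq]
  | insert w W' hw ih =>
    have hwW : w ∈ W := hW' (Finset.mem_insert_self _ _)
    have hsub : W' ⊆ W := fun x hx => hW' (Finset.mem_insert_of_mem hx)
    rw [Finset.prod_insert hw, ← ih hsub]
    have h1 : ∀ ξ : Sym2 V → Bool, (∏ w' ∈ insert w W', ballA_phi L N w' ξ) =
        ballA_phi L N w ξ * ∏ w' ∈ W', ballA_phi L N w' ξ := by
      intro ξ
      rw [Finset.prod_insert hw]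
    rw [EE_congr h1]
    apply EE_indep hq {e : Sym2 V | ∃ u ∈ L, e = s(u, w)}
    · intro ξ ξ' h
      have h2 : ∀ u ∈ L, ξ s(u, w) = ξ' s(u, w) := fun u hu => h _ ⟨u, hu, rfl⟩
      have h3 : (∏ u ∈ L, (if ξ s(u, w) = true then (0 : ℝ) else 1)) =
          ∏ u ∈ L, (if ξ' s(u, w) = true then (0 : ℝ) else 1) := by
        apply Finset.prod_congr rfl
        intro u hu
        rw [h2 u hu]
      unfold ballA_phi
      rw [h3]
    · intro ξ ξ' h
      apply Finset.prod_congr rfl
      intro w' hw'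
      have h2 : ∀ u ∈ L, ξ s(u, w') = ξ' s(u, w') := by
        intro u hu
        apply h
        rintro ⟨u', hu', he⟩
        rw [Sym2.eq_iff] at he
        rcases he with he | he
        · rw [he.2] at hw'
          exact hw hw'
        · rw [he.1] at hu
          exact Finset.disjoint_left.1 hLW hu hwW
      have h3 : (∏ u ∈ L, (if ξ s(u, w') = true then (0 : ℝ) else 1)) =
          ∏ u ∈ L, (if ξ' s(u, w') = true then (0 : ℝ) else 1) := by
        apply Finset.prod_congr rfl
        intro u hu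
        rw [h2 u hu]
      unfold ballA_phi
      rw [h3]

/-- One layer: the event `nb (bg ξ) L W = N` has probability
`(1 - (1-p)^|L|)^|N| ((1-p)^|L|)^(|W|-|N|)` (for `w ∈ W` the events (no edge from `w` to `L`) are
independent, `EE_coord` over the edges `s(u,w)`, `u ∈ L`, `w ∈ W`, which are distinct as `L`, `W`
are disjoint), and is independent of `bex R j N (W \ N)`, a function of the edges inside `W`. -/
theorem bex_EE {p : ℝ} (hp0 : 0 ≤ p) (hp1 : p ≤ 1) (j : ℕ) (L W : Finset V) (hLW : Disjoint L W)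
    (F : ℕ → ℝ) :
    EE (bern p) (fun ξ : Sym2 V → Bool => F (bex (bg ξ) (j + 1) L W).card) =
      ∑ N ∈ W.powerset, (1 - (1 - p) ^ L.card) ^ N.card *
        ((1 - p) ^ L.card) ^ (W.card - N.card) *
        EE (bern p) (fun ξ : Sym2 V → Bool => F (L.card + (bex (bg ξ) j N (W \ N)).card)) := by
  classical
  have hq := bern_law hp0 hp1
  have hnb : ∀ (ξ : Sym2 V → Bool), ∀ N ∈ W.powerset,
      (∏ w ∈ W, ballA_phi L N w ξ) = if nb (bg ξ) L W = N then (1 : ℝ) else 0 := by
    intro ξ N hN
    rw [Finset.mem_powerset] at hN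
    have h1 : nb (bg ξ) L W = N ↔ ∀ w ∈ W, (w ∈ N ↔ ∃ u ∈ L, bg ξ u w) := by
      constructor
      · rintro rfl w hw
        rw [ballA_mem_nb]
        exact ⟨fun h => h.2, fun h => ⟨hw, h⟩⟩
      · intro h
        ext w
        rw [ballA_mem_nb]
        constructor
        · rintro ⟨hw, h2⟩
          exact (h w hw).2 h2
        · intro h2
          exact ⟨hN h2, (h w (hN h2)).1 h2⟩
    by_cases h2 : nb (bg ξ) L W = N
    · rw [if_pos h2]
      apply Finset.prod_eq_one
      intro w hw
      rw [ballA_phi_val L N W w hw hLW, if_pos (h1.1 h2 w hw)]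
    · rw [if_neg h2]
      rw [h1] at h2
      push Not at h2
      obtain ⟨w, hw, h3⟩ := h2
      apply Finset.prod_eq_zero hw
      rw [ballA_phi_val L N W w hw hLW, if_neg]
      intro h4
      rcases h3 with h3 | h3
      · obtain ⟨u, hu, hu2⟩ := h4.1 h3.1
        exact h3.2 u hu hu2
      · exact h3.1 (h4.2 h3.2)
  have h1 : ∀ ξ : Sym2 V → Bool, F (bex (bg ξ) (j + 1) L W).card =
      ∑ N ∈ W.powerset, (∏ w ∈ W, ballA_phi L N w ξ) *
        F (L.card + (bex (bg ξ) j N (W \ N)).card) := by
    intro ξ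
    rw [card_bex_succ (bg ξ) j L W hLW]
    have hmem : nb (bg ξ) L W ∈ W.powerset := by
      rw [Finset.mem_powerset]
      intro w hw
      exact ((ballA_mem_nb _ _ _ _).1 hw).1
    rw [Finset.sum_eq_single_of_mem _ hmem]
    · rw [hnb ξ _ hmem, if_pos rfl, one_mul]
    · intro N hN hne
      rw [hnb ξ N hN, if_neg (fun h => hne h.symm), zero_mul]
  rw [EE_congr h1, EE_sum]
  apply Finset.sum_congr rfl
  intro N hN
  have hNW : N ⊆ W := Finset.mem_powerset.1 hN
  rw [EE_indep hq {e : Sym2 V | ∃ u ∈ L, ∃ w ∈ W, e = s(u, w)}]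
  · rw [ballA_phi_prod hp0 hp1 L N W hLW W subset_rfl]
    congr 1
    rw [Finset.prod_congr rfl fun w hw => ballA_phi_EE hp0 hp1 L N W w hw hLW]
    rw [← Finset.prod_filter_mul_prod_filter_not W (fun w => w ∈ N)]
    have e1 : (∏ w ∈ W.filter (fun w => w ∈ N),
        (if w ∈ N then 1 - (1 - p) ^ L.card else (1 - p) ^ L.card)) =
        (1 - (1 - p) ^ L.card) ^ N.card := by
      rw [Finset.prod_congr rfl (g := fun _ => 1 - (1 - p) ^ L.card)
        (fun w hw => if_pos (Finset.mem_filter.1 hw).2), Finset.prod_const]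
      congr 2
      ext w
      rw [Finset.mem_filter]
      exact ⟨fun h => h.2, fun h => ⟨hNW h, h⟩⟩
    have e2 : (∏ w ∈ W.filter (fun w => ¬ w ∈ N),
        (if w ∈ N then 1 - (1 - p) ^ L.card else (1 - p) ^ L.card)) =
        ((1 - p) ^ L.card) ^ (W.card - N.card) := by
      rw [Finset.prod_congr rfl (g := fun _ => (1 - p) ^ L.card)
        (fun w hw => if_neg (Finset.mem_filter.1 hw).2), Finset.prod_const]
      congr 1
      rw [← Finset.card_sdiff_of_subset hNW]
      congr 1
      ext w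
      rw [Finset.mem_filter, Finset.mem_sdiff]
    rw [e1, e2]
  · intro ξ ξ' h
    apply Finset.prod_congr rfl
    intro w hw
    have h2 : ∀ u ∈ L, ξ s(u, w) = ξ' s(u, w) := fun u hu => h _ ⟨u, hu, w, hw, rfl⟩
    have h3 : (∏ u ∈ L, (if ξ s(u, w) = true then (0 : ℝ) else 1)) =
        ∏ u ∈ L, (if ξ' s(u, w) = true then (0 : ℝ) else 1) := by
      apply Finset.prod_congr rfl
      intro u hu
      rw [h2 u hu]
    unfold ballA_phi
    rw [h3]
  · intro ξ ξ' h
    have h2 : bex (bg ξ) j N (W \ N) = bex (bg ξ') j N (W \ N) := by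
      apply ballA_congr
      intro u hu w hw
      have huW : u ∈ W := by
        rw [Finset.mem_union, Finset.mem_sdiff] at hu
        rcases hu with hu | hu
        · exact hNW hu
        · exact hu.1
      have hwW : w ∈ W := (Finset.mem_sdiff.1 hw).1
      have h3 : ξ s(u, w) = ξ' s(u, w) := by
        apply h
        rintro ⟨a, ha, b, hb, he⟩
        rw [Sym2.eq_iff] at he
        rcases he with he | he
        · rw [he.1] at huW
          exact Finset.disjoint_left.1 hLW ha huW
        · rw [he.2] at hwW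
          exact Finset.disjoint_left.1 hLW ha hwW
      unfold bg
      rw [h3]
    show F (L.card + (bex (bg ξ) j N (W \ N)).card) = F (L.card + (bex (bg ξ') j N (W \ N)).card)
    rw [h2]

end RST.G
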