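import Pool.Agent.Lib.MP_7946c7_pr.Defs
import Pool.Agent.Lib.MP_7946c7_pr.G.Defs

/-!
# Stream G, job BasA: expectations `EE`

`EE q F = ∑ b : ι → B, (∏ e, q (b e)) * F b` (Defs.lean; the `Fintype (ι → B)` instance inside is
classical: unfold and use `Finset.sum_congr`, `Finset.mul_sum`, ...; for the statements with a
given `DecidableEq ι` the two instances agree by `Subsingleton.elim`, e.g. with `convert`).
-/

set_option autoImplicit false

open Finset

namespace RST.G

variable {ι B : Type} [Fintype ι] [Fintype B] {q : B → ℝ}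

/-- `EE` with an arbitrary `DecidableEq` instance on the index set -/
theorem BasA_def [DecidableEq ι] (F : (ι → B) → ℝ) :
    EE q F = ∑ b : ι → B, (∏ e, q (b e)) * F b := by
  unfold EE
  refine Finset.sum_congr ?_ fun b _ => rfl
  ext b
  simp only [Finset.mem_univ]

theorem EE_congr {F G : (ι → B) → ℝ} (h : ∀ b, F b = G b) : EE q F = EE q G := by
  have : F = G := funext h
  rw [this]

theorem EE_add (F G : (ι → B) → ℝ) : EE q (fun b => F b + G b) = EE q F + EE q G := by
  unfold EE
  rw [← Finset.sum_add_distrib]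
  exact Finset.sum_congr rfl fun b _ => by ring

theorem EE_sub (F G : (ι → B) → ℝ) : EE q (fun b => F b - G b) = EE q F - EE q G := by
  unfold EE
  rw [← Finset.sum_sub_distrib]
  exact Finset.sum_congr rfl fun b _ => by ring

theorem EE_mul_left (c : ℝ) (F : (ι → B) → ℝ) : EE q (fun b => c * F b) = c * EE q F := by
  unfold EE
  rw [Finset.mul_sum]
  exact Finset.sum_congr rfl fun b _ => by ring

theorem EE_mul_right (c : ℝ) (F : (ι → B) → ℝ) : EE q (fun b => F b * c) = EE q F * c := by
  unfold EE
  rw [Finset.sum_mul]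
  exact Finset.sum_congr rfl fun b _ => by ring

theorem EE_sum {κ : Type} (s : Finset κ) (F : κ → (ι → B) → ℝ) :
    EE q (fun b => ∑ k ∈ s, F k b) = ∑ k ∈ s, EE q (F k) := by
  unfold EE
  rw [Finset.sum_comm]
  exact Finset.sum_congr rfl fun b _ => by rw [Finset.mul_sum]

theorem EE_mono (hq : IsLaw q) {F G : (ι → B) → ℝ} (h : ∀ b, F b ≤ G b) : EE q F ≤ EE q G := by
  unfold EE
  exact Finset.sum_le_sum fun b _ =>
    mul_le_mul_of_nonneg_left (h b) (Finset.prod_nonneg fun e _ => hq.nonneg _)

theorem EE_nonneg (hq : IsLaw q) {F : (ι → B) → ℝ} (h : ∀ b, 0 ≤ F b) : 0 ≤ EE q F := by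
  unfold EE
  exact Finset.sum_nonneg fun b _ =>
    mul_nonneg (Finset.prod_nonneg fun e _ => hq.nonneg _) (h b)

/-- product formula: `∑ b, ∏ e, q (b e) * f e (b e) = ∏ e, ∑ x, q x * f e x`
(`Finset.prod_univ_sum`, `Fintype.piFinset_univ`) -/
theorem EE_prod (f : ι → B → ℝ) :
    EE q (fun b => ∏ e, f e (b e)) = ∏ e, ∑ x, q x * f e x := by
  classical
  unfold EE
  rw [Finset.prod_univ_sum, Fintype.piFinset_univ]
  refine Finset.sum_congr ?_ fun b _ => by rw [Finset.prod_mul_distrib]
  congr!

/-- the same for a subset of the coordinates (put `f e = 1` outside `s`; `hq.sum_one`) -/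
theorem EE_coord (hq : IsLaw q) (s : Finset ι) (f : ι → B → ℝ) :
    EE q (fun b => ∏ e ∈ s, f e (b e)) = ∏ e ∈ s, ∑ x, q x * f e x := by
  classical
  have h1 := EE_prod (q := q) (fun e x => if e ∈ s then f e x else 1)
  have h2 : ∀ b : ι → B, (∏ e, if e ∈ s then f e (b e) else 1) = ∏ e ∈ s, f e (b e) := by
    intro b
    rw [Finset.prod_ite_mem, Finset.univ_inter]
  simp only [h2] at h1
  rw [h1, ← Finset.prod_subset (Finset.subset_univ s)]
  · exact Finset.prod_congr rfl fun e he => Finset.sum_congr rfl fun x _ => by rw [if_pos he]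
  · intro e _ he
    simp only [if_neg he, mul_one]
    exact hq.sum_one

theorem EE_const (hq : IsLaw q) (c : ℝ) : EE q (fun _ : ι → B => c) = c := by
  have h1 := EE_coord (ι := ι) hq ∅ (fun _ _ => 1)
  simp only [Finset.prod_empty] at h1
  have h2 := EE_mul_left (q := q) c (fun _ : ι → B => 1)
  rw [h1] at h2
  simpa using h2

theorem bern_law {p : ℝ} (hp0 : 0 ≤ p) (hp1 : p ≤ 1) : IsLaw (bern p) := by
  refine ⟨fun x => ?_, ?_⟩
  · unfold bern
    split_ifs
    · exact hp0
    · linarith
  · simp [bern]

/-- an expectation with positive lower bound is attained: if `F b < c` for all `b` then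
`EE q F < c` (contrapositive form used for averaging) -/
theorem exists_ge (hq : IsLaw q) {F : (ι → B) → ℝ} {c : ℝ} (h : c ≤ EE q F) : ∃ b, c ≤ F b := by
  by_contra hcon
  push Not at hcon
  have h1 : EE q F < EE q (fun _ : ι → B => c) := by
    have hpos : ∃ b : ι → B, 0 < ∏ e, q (b e) := by
      by_contra hno
      push Not at hno
      have h2 : EE q (fun _ : ι → B => (1 : ℝ)) ≤ 0 := by
        unfold EE
        exact Finset.sum_nonpos fun b _ => by rw [mul_one]; exact hno b
      rw [EE_const hq] at h2
      linarith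
    obtain ⟨b0, hb0⟩ := hpos
    classical
    rw [BasA_def, BasA_def]
    refine Finset.sum_lt_sum (fun b _ =>
      mul_le_mul_of_nonneg_left (hcon b).le (Finset.prod_nonneg fun e _ => hq.nonneg _))
      ⟨b0, Finset.mem_univ _, mul_lt_mul_of_pos_left (hcon b0) hb0⟩
  rw [EE_const hq] at h1
  linarith

/-- change of the index set -/
theorem EE_equiv {κ : Type} [Fintype κ] (e : ι ≃ κ) (F : (κ → B) → ℝ) :
    EE q F = EE q (fun b : ι → B => F (fun k => b (e.symm k))) := by
  classical
  rw [BasA_def, BasA_def]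
  refine Finset.sum_bij' (fun b _ => fun i => b (e i)) (fun b _ => fun k => b (e.symm k))
    (fun b _ => Finset.mem_univ _) (fun b _ => Finset.mem_univ _) ?_ ?_ ?_
  · intro b _
    funext k
    simp
  · intro b _
    funext k
    simp
  · intro b _
    have h1 : (∏ k, q (b k)) = ∏ i, q (b (e i)) := (Equiv.prod_comp e (fun k => q (b k))).symm
    rw [h1]
    simp

/-- splitting off one coordinate -/
theorem EE_option (F : (Option ι → B) → ℝ) :
    EE q F = ∑ x, q x * EE q (fun b : ι → B => F (fun o => o.elim x b)) := by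
  classical
  simp only [BasA_def]
  have h1 : ∀ x : B, q x * ∑ b : ι → B, (∏ e, q (b e)) * F (fun o => o.elim x b) =
      ∑ b : ι → B, q x * ((∏ e, q (b e)) * F (fun o => o.elim x b)) := fun x => by
    rw [Finset.mul_sum]
  rw [Finset.sum_congr rfl fun x _ => h1 x, ← Finset.sum_product']
  refine Finset.sum_bij' (fun b _ => (b none, fun i => b (some i)))
    (fun p _ => fun o => o.elim p.1 p.2) ?_ ?_ ?_ ?_ ?_
  · intro b _
    exact Finset.mem_product.2 ⟨Finset.mem_univ _, Finset.mem_univ _⟩
  · intro p _
    exact Finset.mem_univ _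
  · intro b _
    funext o
    cases o <;> rfl
  · intro p _
    rfl
  · intro b _
    have h2 : (fun o : Option ι => o.elim (b none) (fun i => b (some i))) = b := by
      funext o
      cases o <;> rfl
    rw [Fintype.prod_option]
    simp only [h2]
    ring

end RST.G
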