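import Pool.Agent.Lib.MP_7946c7_pr.Defs

/-!
# Stream G, job ExpA: the explored set `expl R Q W` (no probability)
-/

set_option autoImplicit false

open Finset

namespace RST.G

variable {V : Type} [DecidableEq V]

omit [DecidableEq V] in
private theorem ExpA_mem (R : V → V → Prop) (Q W : Finset V) (w : V) :
    w ∈ expl R Q W ↔ w ∈ Q ∨ (w ∈ W ∧ ∃ q ∈ Q, ∃ u ∈ W, R q u ∧ Rch R W u w) := by
  classical
  simp only [expl, mem_union, mem_filter]

omit [DecidableEq V] in
private theorem ExpA_min (R : V → V → Prop) (Q W S : Finset V) (hQ : Q ⊆ S)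
    (hS : ∀ u ∈ S, ∀ w ∈ W, R u w → w ∈ S) : expl R Q W ⊆ S := by
  intro w hw
  rw [ExpA_mem] at hw
  rcases hw with hw | ⟨_, q, hq, u, hu, hqu, hr⟩
  · exact hQ hw
  · have hu' : u ∈ S := hS q (hQ hq) u hu hqu
    induction hr with
    | refl => exact hu'
    | tail _ h ih => exact hS _ (ih h.2.1) _ h.2.2 h.1

theorem subset_expl (R : V → V → Prop) (Q W : Finset V) : Q ⊆ expl R Q W := by
  intro w hw
  rw [ExpA_mem]
  exact Or.inl hw

theorem expl_subset (R : V → V → Prop) (Q W : Finset V) : expl R Q W ⊆ Q ∪ W := by
  intro w hw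
  rw [ExpA_mem] at hw
  rw [mem_union]
  rcases hw with hw | hw
  · exact Or.inl hw
  · exact Or.inr hw.1

theorem expl_empty (R : V → V → Prop) (W : Finset V) : expl R ∅ W = ∅ := by
  ext w
  rw [ExpA_mem]
  simp

/-- a vertex of `W` adjacent to the explored set is in the explored set -/
private theorem ExpA_closed (R : V → V → Prop) (Q W : Finset V) (u w : V)
    (hu : u ∈ expl R Q W) (hw : w ∈ W) (h : R u w) : w ∈ expl R Q W := by
  rw [ExpA_mem] at hu ⊢
  rcases hu with hu | ⟨huW, q, hq, x, hx, hqx, hr⟩
  · exact Or.inr ⟨hw, u, hu, w, hw, h, Relation.ReflTransGen.refl⟩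
  · exact Or.inr ⟨hw, q, hq, x, hx, hqx, Relation.ReflTransGen.tail hr ⟨h, huW, hw⟩⟩

private theorem ExpA_congr_sub (R R' : V → V → Prop) (Q W : Finset V)
    (h : ∀ u ∈ Q ∪ W, ∀ w ∈ W, R u w ↔ R' u w) : expl R Q W ⊆ expl R' Q W := by
  apply ExpA_min
  · exact subset_expl R' Q W
  · intro u hu w hw huw
    exact ExpA_closed R' Q W u w hu hw ((h u (expl_subset R' Q W hu) w hw).1 huw)

/-- the explored set only depends on the relation between `Q ∪ W` and `W` -/
theorem expl_congr (R R' : V → V → Prop) (Q W : Finset V)
    (h : ∀ u ∈ Q ∪ W, ∀ w ∈ W, R u w ↔ R' u w) : expl R Q W = expl R' Q W :=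
  Subset.antisymm (ExpA_congr_sub R R' Q W h)
    (ExpA_congr_sub R' R Q W fun u hu w hw => (h u hu w hw).symm)

/-- a vertex of `W` adjacent to the explored set is in the explored set -/
theorem expl_closed (R : V → V → Prop) (Q W : Finset V) (u w : V) (hu : u ∈ expl R Q W)
    (hw : w ∈ W) (h : R u w) : w ∈ expl R Q W := by
  exact ExpA_closed R Q W u w hu hw h

/-- Structure of the event `expl R Q W = D`: it is an event on the edges inside `D` and the
absence of edges between `D` and `W \ D`. -/
theorem expl_eq_iff (R : V → V → Prop) (Q W D : Finset V) (hQW : Disjoint Q W) :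
    expl R Q W = D ↔ Q ⊆ D ∧ D ⊆ Q ∪ W ∧ expl R Q (D \ Q) = D ∧ ∀ u ∈ D, ∀ w ∈ W \ D, ¬ R u w := by
  constructor
  · rintro rfl
    refine ⟨subset_expl R Q W, expl_subset R Q W, Subset.antisymm ?_ ?_, ?_⟩
    · intro x hx
      rcases mem_union.1 (expl_subset R Q _ hx) with h | h
      · exact subset_expl R Q W h
      · exact (mem_sdiff.1 h).1
    · apply ExpA_min
      · exact subset_expl R Q _
      · intro u hu w hw huw
        have huD : u ∈ expl R Q W := by
          rcases mem_union.1 (expl_subset R Q _ hu) with h | h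
          · exact subset_expl R Q W h
          · exact (mem_sdiff.1 h).1
        refine expl_closed R Q _ u w hu ?_ huw
        rw [mem_sdiff]
        exact ⟨expl_closed R Q W u w huD hw huw, fun h => (disjoint_left.1 hQW h) hw⟩
    · intro u hu w hw huw
      rw [mem_sdiff] at hw
      exact hw.2 (expl_closed R Q W u w hu hw.1 huw)
  · rintro ⟨h1, h2, h3, h4⟩
    apply Subset.antisymm
    · apply ExpA_min _ _ _ _ h1
      intro u hu w hw huw
      by_contra hwD
      exact h4 u hu w (mem_sdiff.2 ⟨hw, hwD⟩) huw
    · conv_lhs => rw [← h3]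
      apply ExpA_min
      · exact subset_expl R Q W
      · intro u hu w hw huw
        rw [mem_sdiff] at hw
        refine expl_closed R Q W u w hu ?_ huw
        rcases mem_union.1 (h2 hw.1) with h | h
        · exact absurd h hw.2
        · exact h

/-- One step of the exploration.  `⊆`: consider the last vertex in `N` of a path from `Q` in `W`;
`⊇`: clear. -/
theorem expl_step (R : V → V → Prop) (Q W : Finset V)
    (hQW : Disjoint Q W) (q : V) (hq : q ∈ Q) (N : Finset V)
    (hN : ∀ w, w ∈ N ↔ w ∈ W ∧ R q w) :
    expl R Q W = insert q (expl R (Q.erase q ∪ N) (W \ N)) := by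
  apply Subset.antisymm
  · apply ExpA_min
    · intro x hx
      rw [mem_insert]
      by_cases hxq : x = q
      · exact Or.inl hxq
      · right
        apply subset_expl
        rw [mem_union, mem_erase]
        exact Or.inl ⟨hxq, hx⟩
    · intro u hu w hw huw
      rw [mem_insert]
      right
      by_cases hwN : w ∈ N
      · apply subset_expl
        rw [mem_union]
        exact Or.inr hwN
      · rcases mem_insert.1 hu with h | h
        · exfalso
          apply hwN
          rw [hN, ← h]
          exact ⟨hw, huw⟩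
        · exact expl_closed R _ _ u w h (mem_sdiff.2 ⟨hw, hwN⟩) huw
  · intro x hx
    rcases mem_insert.1 hx with rfl | hx
    · exact subset_expl R Q W hq
    · revert x
      intro x _ hx
      have h1 : expl R (Q.erase q ∪ N) (W \ N) ⊆ expl R Q W := by
        apply ExpA_min
        · intro y hy
          rcases mem_union.1 hy with h | h
          · exact subset_expl R Q W (mem_erase.1 h).2
          · rw [hN] at h
            exact expl_closed R Q W q y (subset_expl R Q W hq) h.1 h.2
        · intro u hu w hw huw
          exact expl_closed R Q W u w hu (mem_sdiff.1 hw).1 huw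
      exact h1 hx

end RST.G
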