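import Pool.Agent.Lib.MP_7946c7_pr.G.BasB
import Pool.Agent.Lib.MP_7946c7_pr.G.ExpA
import Pool.Agent.Lib.MP_7946c7_pr.G.ExpB
import Pool.Agent.Lib.MP_7946c7_pr.G.IndA

/-!
# Stream G, job Fac: factorisation at the explored set / the component of a vertex
-/

set_option autoImplicit false

open Finset

namespace RST.G

variable {V : Type} [Fintype V] [DecidableEq V]

/-- functions of the explored set only depend on the edges inside `Q ∪ W` (`expl_congr`,
`bg_congr`) -/
theorem dep_expl {β : Type} (Q W : Finset V) (F : Finset V → β) :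
    DependsOn (fun ξ : Sym2 V → Bool => F (expl (bg ξ) Q W)) (inE (Q ∪ W)) := by
  intro ξ ξ' h
  have : expl (bg ξ) Q W = expl (bg ξ') Q W :=
    expl_congr _ _ _ _ fun u hu w hw =>
      bg_congr ξ ξ' (Q ∪ W) h u hu w (Finset.mem_union_right _ hw)
  simp only [this]

theorem dep_cmp {β : Type} (W : Finset V) (v : V) (F : Finset V → β) :
    DependsOn (fun ξ : Sym2 V → Bool => F (cmp (bg ξ) W v)) (inE W) := by
  intro ξ ξ' h
  have : cmp (bg ξ) W v = cmp (bg ξ') W v :=
    cmp_congr _ _ _ _ fun u hu w hw => bg_congr ξ ξ' W h u hu w hw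
  simp only [this]

theorem dep_bigs {β : Type} (W : Finset V) (k : ℕ) (F : Finset (Finset V) → β) :
    DependsOn (fun ξ : Sym2 V → Bool => F (bigs (bg ξ) W k)) (inE W) := by
  intro ξ ξ' h
  have h1 : (fun v => cmp (bg ξ) W v) = fun v => cmp (bg ξ') W v := by
    funext v
    exact cmp_congr _ _ _ _ fun u hu w hw => bg_congr ξ ξ' W h u hu w hw
  have : bigs (bg ξ) W k = bigs (bg ξ') W k := by
    unfold bigs
    rw [h1]
  simp only [this]

open Classical in
/-- general form of the factorisation -/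
private theorem Fac_aux {p : ℝ} (hp0 : 0 ≤ p) (hp1 : p ≤ 1) (E : Set (Sym2 V → Bool))
    (S : Set (Sym2 V))
    (hE : ∀ ξ ξ' : Sym2 V → Bool, (∀ e, e ∉ S → ξ e = ξ' e) → ξ ∈ E → ξ' ∈ E)
    (F : (Sym2 V → Bool) → ℝ) (hF : DependsOn F S) :
    EE (bern p) (fun ξ => (if ξ ∈ E then (1 : ℝ) else 0) * F ξ) =
      PP (bern p) E * EE (bern p) F := by
  rw [PP_eq]
  refine EE_indep (bern_law hp0 hp1) Sᶜ (fun ξ => if ξ ∈ E then (1 : ℝ) else 0) F ?_ ?_
  · intro ξ ξ' h
    have hiff : ξ ∈ E ↔ ξ' ∈ E :=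
      ⟨hE ξ ξ' fun e he => h e he, hE ξ' ξ fun e he => (h e he).symm⟩
    by_cases h1 : ξ ∈ E
    · simp only [if_pos h1, if_pos (hiff.mp h1)]
    · simp only [if_neg h1, if_neg (fun h2 => h1 (hiff.mpr h2))]
  · rw [compl_compl]
    exact hF

open Classical in
/-- Factorisation.  By `expl_eq_iff` the event `expl (bg ξ) Q W = D` depends only on the edges
which are not inside `W \ D` (an edge inside `D`, or between `D` and `W \ D`; the set
`expl R Q (D \ Q)` only depends on the edges inside `Q ∪ D`), so `EE_indep` with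
`s = (inE (W \ D))ᶜ`. -/
theorem expl_factor {p : ℝ} (hp0 : 0 ≤ p) (hp1 : p ≤ 1) (Q W D : Finset V) (hQW : Disjoint Q W)
    (F : (Sym2 V → Bool) → ℝ) (hF : DependsOn F (inE (W \ D))) :
    EE (bern p) (fun ξ => (if expl (bg ξ) Q W = D then (1 : ℝ) else 0) * F ξ) =
      PP (bern p) {ξ | expl (bg ξ) Q W = D} * EE (bern p) F := by
  rw [← Fac_aux hp0 hp1 {ξ | expl (bg ξ) Q W = D} (inE (W \ D)) ?_ F hF]
  · refine EE_congr fun ξ => ?_
    by_cases h : expl (bg ξ) Q W = D
    · rw [if_pos h, if_pos (show ξ ∈ {ξ | expl (bg ξ) Q W = D} from h)]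
    · rw [if_neg h, if_neg (show ¬ ξ ∈ {ξ | expl (bg ξ) Q W = D} from h)]
  · intro ξ ξ' h hξ
    have hD : ∀ u w, (u ∈ D ∨ w ∈ D) → (bg ξ u w ↔ bg ξ' u w) := by
      intro u w huw
      have he : ξ s(u, w) = ξ' s(u, w) := by
        apply h
        intro hcon
        rcases huw with hu | hw
        · exact (Finset.mem_sdiff.mp (hcon u (Sym2.mem_mk_left u w))).2 hu
        · exact (Finset.mem_sdiff.mp (hcon w (Sym2.mem_mk_right u w))).2 hw
      unfold bg
      rw [he]
    have h1 : expl (bg ξ) Q W = D := hξ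
    rw [expl_eq_iff _ _ _ _ hQW] at h1
    obtain ⟨a1, a2, a3, a4⟩ := h1
    show expl (bg ξ') Q W = D
    rw [expl_eq_iff _ _ _ _ hQW]
    refine ⟨a1, a2, ?_, ?_⟩
    · rw [← expl_congr (bg ξ) (bg ξ') Q (D \ Q) ?_]
      · exact a3
      · intro u _ w hw
        exact hD u w (Or.inr (Finset.mem_sdiff.mp hw).1)
    · intro u hu w hw hcon
      exact a4 u hu w hw ((hD u w (Or.inl hu)).mpr hcon)

open Classical in
/-- the same for the component of a vertex (`cmp_eq_expl`; `(W.erase v) \ D = W \ D` as `v ∈ D`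
when the probability is not 0) -/
theorem cmp_factor {p : ℝ} (hp0 : 0 ≤ p) (hp1 : p ≤ 1) (W D : Finset V) (v : V) (hv : v ∈ W)
    (F : (Sym2 V → Bool) → ℝ) (hF : DependsOn F (inE (W \ D))) :
    EE (bern p) (fun ξ => (if cmp (bg ξ) W v = D then (1 : ℝ) else 0) * F ξ) =
      PP (bern p) {ξ | cmp (bg ξ) W v = D} * EE (bern p) F := by
  have hdis : Disjoint {v} (W.erase v) := by
    rw [Finset.disjoint_singleton_left]
    exact Finset.notMem_erase v W
  by_cases hvD : v ∈ D
  · have hW : (W.erase v) \ D = W \ D := by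
      ext x
      rw [Finset.mem_sdiff, Finset.mem_sdiff, Finset.mem_erase]
      constructor
      · rintro ⟨⟨_, hx⟩, hxD⟩
        exact ⟨hx, hxD⟩
      · rintro ⟨hx, hxD⟩
        refine ⟨⟨?_, hx⟩, hxD⟩
        intro h
        exact hxD (h ▸ hvD)
    have hF' : DependsOn F (inE ((W.erase v) \ D)) := by
      rw [hW]
      exact hF
    have h := expl_factor hp0 hp1 {v} (W.erase v) D hdis F hF'
    have hset : {ξ : Sym2 V → Bool | cmp (bg ξ) W v = D} =
        {ξ | expl (bg ξ) {v} (W.erase v) = D} := by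
      ext ξ
      rw [Set.mem_setOf_eq, Set.mem_setOf_eq, cmp_eq_expl _ _ _ hv]
    rw [hset, ← h]
    refine EE_congr fun ξ => ?_
    rw [cmp_eq_expl _ _ _ hv]
  · have hne : ∀ ξ : Sym2 V → Bool, ¬ cmp (bg ξ) W v = D := by
      intro ξ h
      apply hvD
      rw [← h]
      exact self_mem_cmp _ _ _ hv
    have hset : {ξ : Sym2 V → Bool | cmp (bg ξ) W v = D} = ∅ := by
      ext ξ
      constructor
      · intro h
        exact (hne ξ h).elim
      · intro h
        exact h.elim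
    rw [hset, PP_empty, zero_mul]
    rw [EE_congr (G := fun _ => (0 : ℝ)) (fun ξ => by rw [if_neg (hne ξ), zero_mul])]
    exact EE_const (bern_law hp0 hp1) 0

open Classical in
/-- consequence: if for every `D` the function `F D` depends only on the edges inside `W \ D`,
`E F(C) = E g(C)` with `g D = E F_D` (`EE_partition`, `cmp_factor`, `EE_fun_of`) -/
theorem cmp_cond {p : ℝ} (hp0 : 0 ≤ p) (hp1 : p ≤ 1) (W : Finset V) (v : V) (hv : v ∈ W)
    (F : Finset V → (Sym2 V → Bool) → ℝ) (hF : ∀ D, DependsOn (F D) (inE (W \ D))) :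
    EE (bern p) (fun ξ => F (cmp (bg ξ) W v) ξ) =
      EE (bern p) (fun ξ => EE (bern p) (F (cmp (bg ξ) W v))) := by
  rw [EE_partition (fun ξ : Sym2 V → Bool => cmp (bg ξ) W v)
    (fun ξ => F (cmp (bg ξ) W v) ξ)]
  rw [EE_fun_of (fun ξ : Sym2 V → Bool => cmp (bg ξ) W v) (fun D => EE (bern p) (F D))]
  refine Finset.sum_congr rfl fun D _ => ?_
  rw [← cmp_factor hp0 hp1 W D v hv (F D) (hF D)]
  refine EE_congr fun ξ => ?_
  by_cases h : cmp (bg ξ) W v = D
  · rw [if_pos h, if_pos h, h]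
  · rw [if_neg h, if_neg h, zero_mul, zero_mul]

end RST.G
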