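import Pool.Agent.Lib.MP_7946c7_pr.G.BasB

/-!
# Stream G, job Har: the Harris inequality
-/

set_option autoImplicit false

open Finset

namespace RST.G

/-- Harris for two decreasing events given by the complements of increasing events.  Mathlib has
`fkg` (`Mathlib/Combinatorics/SetFamily/FourFunctions.lean`) for log-supermodular measures on a
finite distributive lattice (`ι → Bool`; apply it to the indicators of the increasing events `A`,
`B` and pass to complements: `P(Aᶜ ∩ Bᶜ) - P(Aᶜ)P(Bᶜ) = P(A ∩ B) - P(A)P(B)`), or do the induction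
over the coordinates with `EE_option`. -/
theorem harris {ι : Type} [Fintype ι] {p : ℝ} (hp0 : 0 ≤ p) (hp1 : p ≤ 1)
    (A B : Set (ι → Bool)) (hA : Inc A) (hB : Inc B) :
    (1 - PP (bern p) A) * (1 - PP (bern p) B) ≤ PP (bern p) {ξ | ξ ∉ A ∧ ξ ∉ B} := by
  classical
  have hlaw : IsLaw (bern p) := bern_law hp0 hp1
  have hmono : ∀ C : Set (ι → Bool), Inc C →
      Monotone (fun b : ι → Bool => if b ∈ C then (1 : ℝ) else 0) := by
    intro C hC b c hbc
    have h1 : b ∈ C → c ∈ C := by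
      refine hC b c fun e he => ?_
      have h2 := hbc e
      rw [he] at h2
      exact Bool.eq_true_of_true_le h2
    show (if b ∈ C then (1 : ℝ) else 0) ≤ if c ∈ C then (1 : ℝ) else 0
    by_cases hb : b ∈ C
    · rw [if_pos hb, if_pos (h1 hb)]
    · rw [if_neg hb]
      split_ifs <;> norm_num
  have hnn : ∀ C : Set (ι → Bool), (0 : (ι → Bool) → ℝ) ≤
      (fun b : ι → Bool => if b ∈ C then (1 : ℝ) else 0) := by
    intro C b
    show (0 : ℝ) ≤ if b ∈ C then (1 : ℝ) else 0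
    split_ifs <;> norm_num
  have hfkg := fkg (fun b : ι → Bool => if b ∈ A then (1 : ℝ) else 0)
    (fun b : ι → Bool => if b ∈ B then (1 : ℝ) else 0)
    (fun b : ι → Bool => ∏ e, bern p (b e))
    (fun b => Finset.prod_nonneg fun e _ => hlaw.nonneg _) (hnn A) (hnn B) (hmono A hA)
    (hmono B hB) ?_
  · have e1 : PP (bern p) A = ∑ b : ι → Bool, (∏ e, bern p (b e)) * (if b ∈ A then (1 : ℝ) else 0) := by
      rw [PP_eq, BasA_def]
    have e2 : PP (bern p) B = ∑ b : ι → Bool, (∏ e, bern p (b e)) * (if b ∈ B then (1 : ℝ) else 0) := by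
      rw [PP_eq, BasA_def]
    have e3 : (∑ b : ι → Bool, ∏ e, bern p (b e)) = 1 := by
      have := EE_const (ι := ι) hlaw 1
      rw [BasA_def] at this
      simpa using this
    have e4 : PP (bern p) {ξ | ξ ∉ A ∧ ξ ∉ B} = ∑ b : ι → Bool, (∏ e, bern p (b e)) *
        (1 - (if b ∈ A then (1 : ℝ) else 0) - (if b ∈ B then (1 : ℝ) else 0) +
          (if b ∈ A then (1 : ℝ) else 0) * (if b ∈ B then (1 : ℝ) else 0)) := by
      rw [PP_eq, BasA_def]
      refine Finset.sum_congr rfl fun b _ => ?_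
      congr 1
      by_cases hbA : b ∈ A <;> by_cases hbB : b ∈ B <;> simp [hbA, hbB]
    have e5 : ∑ b : ι → Bool, (∏ e, bern p (b e)) *
        (1 - (if b ∈ A then (1 : ℝ) else 0) - (if b ∈ B then (1 : ℝ) else 0) +
          (if b ∈ A then (1 : ℝ) else 0) * (if b ∈ B then (1 : ℝ) else 0)) =
        (∑ b : ι → Bool, ∏ e, bern p (b e)) -
        (∑ b : ι → Bool, (∏ e, bern p (b e)) * (if b ∈ A then (1 : ℝ) else 0)) -
        (∑ b : ι → Bool, (∏ e, bern p (b e)) * (if b ∈ B then (1 : ℝ) else 0)) +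
        ∑ b : ι → Bool, (∏ e, bern p (b e)) *
          ((if b ∈ A then (1 : ℝ) else 0) * (if b ∈ B then (1 : ℝ) else 0)) := by
      rw [← Finset.sum_sub_distrib, ← Finset.sum_sub_distrib, ← Finset.sum_add_distrib]
      exact Finset.sum_congr rfl fun b _ => by ring
    rw [← e1, ← e2, e3] at e5
    rw [← e1, ← e2, e3] at hfkg
    rw [e4, e5]
    nlinarith [hfkg]
  · intro a b
    show (∏ e, bern p (a e)) * (∏ e, bern p (b e)) ≤
      (∏ e, bern p ((a ⊓ b) e)) * ∏ e, bern p ((a ⊔ b) e)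
    rw [← Finset.prod_mul_distrib, ← Finset.prod_mul_distrib]
    refine le_of_eq (Finset.prod_congr rfl fun e _ => ?_)
    show bern p (a e) * bern p (b e) = bern p (a e && b e) * bern p (a e || b e)
    cases a e <;> cases b e <;> simp [mul_comm]

/-- finite families (induction on `s`; a finite union of increasing events is increasing) -/
theorem harris_prod {ι κ : Type} [Fintype ι] [DecidableEq κ] {p : ℝ} (hp0 : 0 ≤ p) (hp1 : p ≤ 1)
    (s : Finset κ) (A : κ → Set (ι → Bool)) (hA : ∀ k ∈ s, Inc (A k)) :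
    ∏ k ∈ s, (1 - PP (bern p) (A k)) ≤ PP (bern p) {ξ | ∀ k ∈ s, ξ ∉ A k} := by
  classical
  have hlaw : IsLaw (bern p) := bern_law hp0 hp1
  induction s using Finset.induction_on with
  | empty =>
    have h1 : {ξ : ι → Bool | ∀ k ∈ (∅ : Finset κ), ξ ∉ A k} = (∅ : Set (ι → Bool))ᶜ := by
      ext ξ
      simp
    rw [h1, PP_compl hlaw, PP_empty]
    simp
  | insert k s hk ih =>
    have ih' := ih (fun j hj => hA j (Finset.mem_insert_of_mem hj))
    have hset : {ξ : ι → Bool | ∀ j ∈ s, ξ ∉ A j} = {ξ | ∃ j ∈ s, ξ ∈ A j}ᶜ := by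
      ext ξ
      simp
    have hU : Inc {ξ : ι → Bool | ∃ j ∈ s, ξ ∈ A j} := by
      rintro ξ ξ' hle ⟨j, hj, hξ⟩
      exact ⟨j, hj, hA j (Finset.mem_insert_of_mem hj) ξ ξ' hle hξ⟩
    have h2 := harris hp0 hp1 (A k) {ξ : ι → Bool | ∃ j ∈ s, ξ ∈ A j}
      (hA k (Finset.mem_insert_self k s)) hU
    have h3 : PP (bern p) {ξ : ι → Bool | ∀ j ∈ s, ξ ∉ A j} =
        1 - PP (bern p) {ξ : ι → Bool | ∃ j ∈ s, ξ ∈ A j} := by
      rw [hset, PP_compl hlaw]
    have h4 : {ξ : ι → Bool | ξ ∉ A k ∧ ξ ∉ {ξ : ι → Bool | ∃ j ∈ s, ξ ∈ A j}} =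
        {ξ : ι → Bool | ∀ j ∈ insert k s, ξ ∉ A j} := by
      ext ξ
      simp
    rw [h4, ← h3] at h2
    rw [Finset.prod_insert hk]
    refine le_trans (mul_le_mul_of_nonneg_left ih' ?_) h2
    linarith [PP_le_one hlaw (A k)]

end RST.G
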